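import Pool.Agent.helper19.WildTwoF

namespace Pool.Agent.WildPlane

open IsLocalRing

section NotLt

variable {k : Type*} [Field k] [CharP k 2]
variable {x y z : Plane k} {σ : Plane k ≃ₐ[k] Plane k}
variable (T : TwoData σ x y z) {hx1 : OrdGe 1 x} {hy1 : OrdGe 1 y}
  (hφ : ∀ f, σ (sub hx1 hy1 f) = sub hx1 hy1 f)
variable {K : Type*} [Field K] [Algebra k K] [Algebra (invariants σ) K]
  [IsScalarTower k (invariants σ) K] [IsFractionRing (invariants σ) K]
variable {F : Type*} [Field F] [Algebra (WRing k) F] [IsFractionRing (WRing k) F]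
  [Algebra k F] [IsScalarTower k (WRing k) F]
variable (ι : K →ₐ[k] F)
  (hι : ∀ r : invariants σ, ι (algebraMap (invariants σ) K r) =
    algebraMap (WRing k) F (iota k (r : Plane k)))
variable [PerfectRing k 2]

include T hφ hι in
omit [IsScalarTower k (invariants σ) K] in
/-- A vector field whose values on `x, y, z, Y, Z` are regular along the divisor preserves the
valuation ring. -/
theorem regular_pull [IsScalarTower k (invariants σ) K] (D : Derivation k K K)
    (dx : D (T.xK K) ∈ pullO (WRing k) (ι : K →+* F))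
    (dy : D (T.yK K) ∈ pullO (WRing k) (ι : K →+* F))
    (dz : D (T.zK K) ∈ pullO (WRing k) (ι : K →+* F))
    (dY : D (T.Y K) ∈ pullO (WRing k) (ι : K →+* F))
    (dZ : D (T.Z K) ∈ pullO (WRing k) (ι : K →+* F)) :
    RegularOn (pullO (WRing k) (ι : K →+* F) : Set K) D := by
  set O := pullO (WRing k) (ι : K →+* F) with hO
  have hB : ∀ b ∈ T.B K, b ∈ O ∧ D b ∈ O := by
    intro b hb
    refine ⟨T.B_rep ι hι hb, ?_⟩
    induction hb using Algebra.adjoin_induction with
    | mem b hb =>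
      simp only [Set.mem_insert_iff, Set.mem_singleton_iff] at hb
      rcases hb with rfl | rfl
      · exact dY
      · exact dZ
    | algebraMap r =>
      obtain ⟨p, q, s, h⟩ := der_phiR T hφ K r
      rw [h D]
      exact O.add_mem _ _ (O.add_mem _ _ (O.mul_mem _ _ (R_mem_pull ι hι p) dx)
        (O.mul_mem _ _ (R_mem_pull ι hι q) dy)) (O.mul_mem _ _ (R_mem_pull ι hι s) dz)
    | add a b ha hb iha ihb =>
      rw [map_add]
      exact O.add_mem _ _ iha ihb
    | mul a b ha hb iha ihb =>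
      rw [D.leibniz, smul_eq_mul, smul_eq_mul]
      exact O.add_mem _ _ (O.mul_mem _ _ (T.B_rep ι hι ha) ihb)
        (O.mul_mem _ _ (T.B_rep ι hι hb) iha)
  intro f hf
  have hf' : f ∈ O := hf
  obtain ⟨S, hS1, hS2⟩ := (exceptional_pull T hφ ι hι).finite_type
  by_cases hf0 : f = 0
  · rw [hf0, map_zero]; exact O.zero_mem
  obtain ⟨N, a, d, ha, hd, va, vd, he⟩ := frac_factor_mem T hφ ι hι hf0 hf
  have hd0 : d ≠ 0 := by
    rintro rfl
    rw [map_zero] at vd
    exact zero_ne_one vd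
  have hb : T.xK K ^ N * a ∈ T.B K := (T.B K).mul_mem ((T.B K).pow_mem (T.x_mem K) N) ha
  rw [← he] at hb
  have h1 := (hB _ hb).2
  rw [D.leibniz, smul_eq_mul, smul_eq_mul] at h1
  have h2 : d * D f ∈ O := by
    have h3 : f * D d ∈ O := O.mul_mem _ _ hf' (hB d hd).2
    have h4 : d * D f = (f * D d + d * D f) + -(f * D d) := by ring
    rw [h4]
    exact O.add_mem _ _ h1 (O.neg_mem _ h3)
  have h5 : d⁻¹ ∈ O := by
    rw [← ValuationSubring.valuation_le_one_iff, map_inv₀, vd, inv_one]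
  have h6 : D f = d⁻¹ * (d * D f) := by field_simp
  change D f ∈ O
  rw [h6]
  exact O.mul_mem _ _ h5 h2

include T hφ hι in
/-- The vector fields `∂/∂Z` and `∂/∂Y`. -/
theorem exists_fields_YZ : ∃ DY DZ : Derivation k K K,
    RegularOn (pullO (WRing k) (ι : K →+* F) : Set K) DY ∧
    RegularOn (pullO (WRing k) (ι : K →+* F) : Set K) DZ ∧
    wedge (T.xK K) (T.yK K) DY DZ = -(T.xK K ^ 2 * T.yK K) := by
  have h2 := charTwo_frac k K
  obtain ⟨E1, E2, -, -, -, -, ⟨x1, y1⟩, ⟨x2, y2⟩, -⟩ := T.fields K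
  have hx0 := T.xK_ne K
  have hy0 := T.yK_ne K
  set O := pullO (WRing k) (ι : K →+* F) with hO
  have mx : T.xK K ∈ O := T.B_rep ι hι (T.x_mem K)
  have mY : T.Y K ∈ O := T.B_rep ι hι (T.Y_mem K)
  have mZ : T.Z K ∈ O := T.B_rep ι hι (T.Z_mem K)
  have my : T.yK K ∈ O := by rw [T.yK_eq K]; exact O.mul_mem _ _ (O.toSubring.pow_mem mx 2) mY
  have hY0 : T.Y K ≠ 0 := by
    intro h
    apply hy0
    rw [T.yK_eq K, h, mul_zero]
  -- generic formulas for the values on `Y`, `Z`
  have hDY : ∀ D : Derivation k K K, D (T.yK K) = T.xK K ^ 2 * D (T.Y K) := by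
    intro D
    have := congrArg D (T.yK_eq K)
    rw [D.leibniz, D.leibniz_pow] at this
    simp only [smul_eq_mul, nsmul_eq_mul] at this
    push_cast at this
    linear_combination this + (T.Y K * T.xK K * D (T.xK K)) * h2
  have hDZ : ∀ D : Derivation k K K, D (T.zK K) = T.xK K ^ 3 * D (T.Z K) +
      T.Z K * T.xK K ^ 2 * D (T.xK K) := by
    intro D
    have := congrArg D (T.zK_eq K)
    rw [D.leibniz, D.leibniz_pow] at this
    simp only [smul_eq_mul, nsmul_eq_mul] at this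
    push_cast at this
    linear_combination this + (T.Z K * T.xK K ^ 2 * D (T.xK K)) * h2
  let DZ : Derivation k K K := (T.xK K ^ 3)⁻¹ • E1
  let DY : Derivation k K K := ((T.xK K ^ 2 * T.Z K + T.Y K ^ 2) / (T.xK K ^ 3 * T.yK K)) • E1 +
    (T.xK K ^ 2 / (T.xK K ^ 3 * T.yK K)) • E2
  have DZx : DZ (T.xK K) = T.yK K := by
    change (T.xK K ^ 3)⁻¹ * E1 (T.xK K) = _
    rw [x1]; field_simp
  have DZy : DZ (T.yK K) = 0 := by
    change (T.xK K ^ 3)⁻¹ * E1 (T.yK K) = _
    rw [y1, mul_zero]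
  have DYx : DY (T.xK K) = T.xK K ^ 2 * T.Z K + T.Y K ^ 2 := by
    change (T.xK K ^ 2 * T.Z K + T.Y K ^ 2) / (T.xK K ^ 3 * T.yK K) * E1 (T.xK K) +
      T.xK K ^ 2 / (T.xK K ^ 3 * T.yK K) * E2 (T.xK K) = _
    rw [x1, x2]; field_simp; ring
  have DYy : DY (T.yK K) = T.xK K ^ 2 := by
    change (T.xK K ^ 2 * T.Z K + T.Y K ^ 2) / (T.xK K ^ 3 * T.yK K) * E1 (T.yK K) +
      T.xK K ^ 2 / (T.xK K ^ 3 * T.yK K) * E2 (T.yK K) = _
    rw [y1, y2]; field_simp; ring
  have DZz : DZ (T.zK K) = -(T.xK K ^ 4 * T.Y K * T.Z K + T.xK K ^ 3) := by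
    have h := T.derK K DZ
    rw [DZx, DZy] at h
    have h3 : T.xK K ^ 3 * T.yK K ≠ 0 := mul_ne_zero (pow_ne_zero 3 hx0) hy0
    apply mul_left_cancel₀ h3
    have ey := T.yK_eq K
    have ez := T.zK_eq K
    rw [ez] at h ⊢
    rw [ey] at h ⊢
    linear_combination h
  have DYz : DY (T.zK K) = -(T.xK K ^ 2 * T.Z K * (T.xK K ^ 2 * T.Z K + T.Y K ^ 2)) := by
    have h := T.derK K DY
    rw [DYx, DYy] at h
    have h3 : T.xK K ^ 3 * T.yK K ≠ 0 := mul_ne_zero (pow_ne_zero 3 hx0) hy0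
    apply mul_left_cancel₀ h3
    have ey := T.yK_eq K
    have ez := T.zK_eq K
    rw [ez] at h ⊢
    rw [ey] at h ⊢
    linear_combination h - (T.xK K ^ 6 * (T.xK K ^ 2 * T.Z K + T.Y K ^ 2)) * h2
  have DZY : DZ (T.Y K) = 0 := by
    have h := hDY DZ
    rw [DZy] at h
    rcases mul_eq_zero.mp h.symm with h | h
    · exact absurd h (pow_ne_zero 2 hx0)
    · exact h
  have DYY : DY (T.Y K) = 1 := by
    have h := hDY DY
    rw [DYy] at h
    apply mul_left_cancel₀ (pow_ne_zero 2 hx0)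
    rw [← h, mul_one]
  have DZZ : DZ (T.Z K) = 1 := by
    have h := hDZ DZ
    rw [DZz, DZx, T.yK_eq K] at h
    apply mul_left_cancel₀ (pow_ne_zero 3 hx0)
    linear_combination -h - (T.xK K ^ 4 * T.Y K * T.Z K + T.xK K ^ 3) * h2
  have DYZ : DY (T.Z K) = 0 := by
    have h := hDZ DY
    rw [DYz, DYx] at h
    have h4 : T.xK K ^ 3 * DY (T.Z K) = 0 := by
      linear_combination -h - (T.Z K * T.xK K ^ 2 * (T.xK K ^ 2 * T.Z K + T.Y K ^ 2)) * h2
    rcases mul_eq_zero.mp h4 with h | h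
    · exact absurd h (pow_ne_zero 3 hx0)
    · exact h
  have px : ∀ n : ℕ, T.xK K ^ n ∈ O := fun n => O.toSubring.pow_mem mx n
  refine ⟨DY, DZ, ?_, ?_, ?_⟩
  · apply regular_pull T hφ ι hι
    · rw [DYx]
      exact O.add_mem _ _ (O.mul_mem _ _ (px 2) mZ) (O.toSubring.pow_mem mY 2)
    · rw [DYy]; exact px 2
    · rw [DYz]
      exact O.neg_mem _ (O.mul_mem _ _ (O.mul_mem _ _ (px 2) mZ)
        (O.add_mem _ _ (O.mul_mem _ _ (px 2) mZ) (O.toSubring.pow_mem mY 2)))
    · rw [DYY]; exact O.one_mem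
    · rw [DYZ]; exact O.zero_mem
  · apply regular_pull T hφ ι hι
    · rw [DZx]; exact my
    · rw [DZy]; exact O.zero_mem
    · rw [DZz]
      exact O.neg_mem _ (O.add_mem _ _ (O.mul_mem _ _ (O.mul_mem _ _ (px 4) mY) mZ) (px 3))
    · rw [DZY]; exact O.zero_mem
    · rw [DZZ]; exact O.one_mem
  · rw [wedge, DYx, DYy, DZx, DZy]
    ring

include T hφ in
variable (K) in
/-- The second quotient is not log terminal. -/
theorem two_not_logTerminal : ¬ IsLogTerminalWith k (invariants σ) K := by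
  -- the embedding of the function field
  let F := FractionRing (WRing k)
  let j : invariants σ →ₐ[k] F :=
    (IsScalarTower.toAlgHom k (WRing k) F).comp ((iota k).comp (invariants σ).val)
  have hj : Function.Injective j := by
    intro a b hab
    apply Subtype.ext
    apply iota_injective
    exact IsFractionRing.injective (WRing k) F hab
  let ι : K →ₐ[k] F := IsFractionRing.liftAlgHom (g := j) hj
  have hι : ∀ r : invariants σ, ι (algebraMap (invariants σ) K r) =
      algebraMap (WRing k) F (iota k (r : Plane k)) := by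
    intro r
    exact IsFractionRing.lift_algebraMap (K := K) (g := (j : invariants σ →+* F)) hj r
  rintro ⟨x', y', m, g', gen', H⟩
  have hm := gen'.pos
  have gen := T.generator K m hm
  have hinj := injK (σ := σ) K
  have hx0 := T.xK_ne K
  have hy0 := T.yK_ne K
  obtain ⟨c, hc⟩ := wedge_change T hφ K x' y'
  -- comparison of the two generators
  have key : ∀ f : K, (∃ r : invariants σ, f = algebraMap (invariants σ) K r * g') ↔
      ∃ r : invariants σ, f * c ^ m = algebraMap (invariants σ) K r *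
        ((T.xK K ^ 3 * T.yK K) ^ m)⁻¹ := by
    intro f
    rw [← gen'.regular_iff, ← gen.regular_iff]
    constructor
    · intro h D₁ D₂ r₁ r₂
      have := h D₁ D₂ r₁ r₂
      rw [hc, mul_pow] at this
      rwa [mul_assoc]
    · intro h D₁ D₂ r₁ r₂
      have := h D₁ D₂ r₁ r₂
      rw [hc, mul_pow]
      rwa [mul_assoc] at this
  have hc0 : c ≠ 0 := by
    rintro rfl
    obtain ⟨r, hr⟩ := (key (g' / T.xK K)).mpr ⟨0, by
      rw [zero_pow hm.ne', map_zero]; ring⟩
    have hg0 := gen'.ne_zero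
    have h1 : algebraMap (invariants σ) K (T.xR * r) = algebraMap (invariants σ) K 1 := by
      rw [map_mul, map_one]
      change T.xK K * _ = 1
      have h3 : g' = (T.xK K * algebraMap (invariants σ) K r) * g' := by
        rw [div_eq_iff hx0] at hr
        linear_combination hr
      have h4 : (T.xK K * algebraMap (invariants σ) K r - 1) * g' = 0 := by
        linear_combination -h3
      rcases mul_eq_zero.mp h4 with h5 | h5
      · exact sub_eq_zero.mp h5
      · exact absurd h5 hg0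
    exact xR_not_unit T (IsUnit.of_mul_eq_one r (hinj h1))
  have hE0 : (T.xK K ^ 3 * T.yK K) ^ m ≠ 0 :=
    pow_ne_zero m (mul_ne_zero (pow_ne_zero 3 hx0) hy0)
  have hcm : c ^ m ≠ 0 := pow_ne_zero m hc0
  obtain ⟨r1, hr1⟩ := (key g').mp ⟨1, by rw [map_one, one_mul]⟩
  obtain ⟨r2, hr2⟩ := (key (((T.xK K ^ 3 * T.yK K) ^ m)⁻¹ / c ^ m)).mpr ⟨1, by
    rw [map_one, one_mul]; field_simp⟩
  have hr12 : r1 * r2 = 1 := by
    apply hinj
    rw [map_mul, map_one]
    have h1 : ((T.xK K ^ 3 * T.yK K) ^ m)⁻¹ = algebraMap (invariants σ) K r2 * (g' * c ^ m) := by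
      rw [div_eq_iff hcm] at hr2
      rw [hr2]; ring
    rw [hr1] at h1
    have h2 : ((T.xK K ^ 3 * T.yK K) ^ m)⁻¹ * (algebraMap (invariants σ) K r1 *
        algebraMap (invariants σ) K r2 - 1) = 0 := by
      linear_combination -h1
    rcases mul_eq_zero.mp h2 with h3 | h3
    · exact absurd h3 (inv_ne_zero hE0)
    · exact sub_eq_zero.mp h3
  have hr1u : IsUnit r1 := IsUnit.of_mul_eq_one r2 hr12
  obtain ⟨DY, DZ, rY, rZ, hw⟩ := exists_fields_YZ T hφ ι hι
  have hfin := H (pullO (WRing k) (ι : K →+* F)) (exceptional_pull T hφ ι hι) DY DZ rY rZ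
    (T.xK K) (val_xK T ι hι)
  rw [hc, hw] at hfin
  have heq : T.xK K ^ m * (g' * (c * -(T.xK K ^ 2 * T.yK K)) ^ m) =
      (-1) ^ m * algebraMap (invariants σ) K r1 := by
    have h1 : g' * c ^ m * (T.xK K ^ 3 * T.yK K) ^ m = algebraMap (invariants σ) K r1 := by
      rw [hr1]; field_simp
    rw [← h1]
    have h2 : c * -(T.xK K ^ 2 * T.yK K) = (-1) * (c * (T.xK K ^ 2 * T.yK K)) := by ring
    have h3 : T.xK K ^ 3 * T.yK K = T.xK K * (T.xK K ^ 2 * T.yK K) := by ring
    rw [h2, h3, mul_pow, mul_pow, mul_pow]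
    ring
  rw [heq, map_mul, map_pow, Valuation.map_neg, map_one, one_pow, one_mul] at hfin
  have hv1 : (pullO (WRing k) (ι : K →+* F)).valuation (algebraMap (invariants σ) K r1) = 1 := by
    apply val_eq_one (ι := (ι : K →+* F)) (hι r1)
    exact (hr1u.map (invariants σ).val).map (iota k)
  rw [hv1] at hfin
  exact lt_irrefl _ hfin

end NotLt

end Pool.Agent.WildPlane
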