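import Pool.Agent.helper23.HB.Stmts

/-!
# Hyperbolic branching Brownian motion : module DET (deterministic lower bound of the dimension)
-/

open MeasureTheory ProbabilityTheory Set Filter Topology
open scoped ENNReal NNReal

namespace Pool.Agent.helper19.HB
open Pool.Agent.helper23.HB

theorem mDET (hECOV : St_ECOV) (hDIM : St_DIM) : St_DET := by
  classical
  intro A s κ L G a near x S hs hκ ha hG hND hE hcharge
  by_contra hcon
  push Not at hcon
  set L' : ℝ := max L 0 + 1 with hL'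
  have hL'pos : 0 < L' := by have := le_max_right L 0; linarith
  set ε : ℝ≥0∞ := ENNReal.ofReal ((κ / 4) ^ 2 / L') with hε
  have hεpos : 0 < ε := by
    rw [hε, ENNReal.ofReal_pos]; positivity
  obtain ⟨U, hUo, hUA, hUε⟩ := hDIM.1 A s hs hcon ε hεpos
  obtain ⟨k, hk⟩ := hcharge U hUo hUA
  -- the near diagonal part is small
  have h1 : Tendsto (fun n => (k : ℝ≥0∞) * (ENNReal.ofReal (a n ^ 2) * (((G n).card : ℝ≥0∞) +
        ∑' z : Quad, ind (qu z ∈ G n ∧ qv z ∈ G n ∧ near n z.1)))) atTop (𝓝 0) := by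
    have := ENNReal.Tendsto.const_mul (a := (k : ℝ≥0∞)) hND (Or.inr (ENNReal.natCast_ne_top k))
    rwa [mul_zero] at this
  have h2 : ∀ᶠ n in atTop, (k : ℝ≥0∞) * (ENNReal.ofReal (a n ^ 2) * (((G n).card : ℝ≥0∞) +
        ∑' z : Quad, ind (qu z ∈ G n ∧ qv z ∈ G n ∧ near n z.1))) ≤
          ENNReal.ofReal ((κ / 4) ^ 2) := by
    refine (h1.eventually_lt_const ?_).mono fun n hn => hn.le
    rw [ENNReal.ofReal_pos]; positivity
  obtain ⟨n, ⟨hnS, hnκ⟩, hn2⟩ := (hk.and_eventually h2).exists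
  set G' : Finset Lab := (G n).filter fun p => ∃ i < k, x n p ∈ U i with hG'
  have hsub : ∀ p, p ∈ G' → p ∈ G n := fun p hp => (Finset.mem_filter.mp hp).1
  have hcard : ({p | p ∈ G n ∧ ∃ i < k, x n p ∈ U i} : Set Lab).ncard = G'.card := by
    rw [← Set.ncard_coe_finset]
    congr 1
    ext p; simp [hG']
  have hEle : (∑' z : Quad, ind (qu z ∈ G' ∧ qv z ∈ G' ∧ ¬near n z.1) *
          ‖x n (qu z) - x n (qv z)‖ₑ ^ (-s)) ≤
      ∑' z : Quad, ind (qu z ∈ G n ∧ qv z ∈ G n ∧ ¬near n z.1) *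
          ‖x n (qu z) - x n (qv z)‖ₑ ^ (-s) :=
    ENNReal.tsum_le_tsum fun z => mul_le_mul_left
      (ind_mono fun h => ⟨hsub _ h.1, hsub _ h.2.1, h.2.2⟩) _
  have ha2 : ENNReal.ofReal (a n ^ 2) ≠ 0 := by
    rw [Ne, ENNReal.ofReal_eq_zero, not_le]
    exact pow_pos (ha n) 2
  have hfin : (∑' z : Quad, ind (qu z ∈ G' ∧ qv z ∈ G' ∧ ¬near n z.1) *
          ‖x n (qu z) - x n (qv z)‖ₑ ^ (-s)) ≠ ∞ := by
    intro h
    rw [h, top_le_iff] at hEle
    have := hE n hnS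
    rw [hEle, ENNReal.mul_top ha2, top_le_iff] at this
    exact ENNReal.ofReal_ne_top this
  have h3 := hECOV G' (x n) (a n) s (near n) k U (ha n) hs
    (fun p hp q hq => hG n p (hsub p hp) q (hsub q hq))
    (fun p hp => (Finset.mem_filter.mp hp).2) hfin
  have h4 : ((k : ℝ≥0∞) * (ENNReal.ofReal (a n ^ 2) * ((G'.card : ℝ≥0∞) +
        ∑' z : Quad, ind (qu z ∈ G' ∧ qv z ∈ G' ∧ near n z.1)))) ^ (1 / 2 : ℝ) ≤
          ENNReal.ofReal (κ / 4) := by
    have e : ENNReal.ofReal (κ / 4) = (ENNReal.ofReal ((κ / 4) ^ 2)) ^ (1 / 2 : ℝ) := by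
      rw [ENNReal.ofReal_pow (by positivity), ← ENNReal.rpow_natCast, ← ENNReal.rpow_mul]
      norm_num
    rw [e]
    refine ENNReal.rpow_le_rpow (le_trans ?_ hn2) (by norm_num)
    refine mul_le_mul_right (mul_le_mul_right (add_le_add ?_ ?_) _) _
    · exact_mod_cast Finset.card_le_card (Finset.filter_subset _ _)
    · exact ENNReal.tsum_le_tsum fun z => ind_mono fun h => ⟨hsub _ h.1, hsub _ h.2.1, h.2.2⟩
  have h5 : ((ENNReal.ofReal (a n ^ 2) * ∑' z : Quad, ind (qu z ∈ G' ∧ qv z ∈ G' ∧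
        ¬near n z.1) * ‖x n (qu z) - x n (qv z)‖ₑ ^ (-s)) *
        ∑ i ∈ Finset.range k, Metric.ediam (U i) ^ s) ^ (1 / 2 : ℝ) ≤ ENNReal.ofReal (κ / 4) := by
    have e : ENNReal.ofReal (κ / 4) = (ENNReal.ofReal ((κ / 4) ^ 2)) ^ (1 / 2 : ℝ) := by
      rw [ENNReal.ofReal_pow (by positivity), ← ENNReal.rpow_natCast, ← ENNReal.rpow_mul]
      norm_num
    rw [e]
    refine ENNReal.rpow_le_rpow ?_ (by norm_num)
    calc _ ≤ ENNReal.ofReal L * ε := by
          refine mul_le_mul' ((mul_le_mul_right hEle _).trans (hE n hnS)) ?_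
          exact (ENNReal.sum_le_tsum _).trans hUε
      _ ≤ ENNReal.ofReal L' * ε := by
          refine mul_le_mul_left (ENNReal.ofReal_le_ofReal ?_) _
          have := le_max_left L 0; linarith
      _ = ENNReal.ofReal ((κ / 4) ^ 2) := by
          rw [hε, ← ENNReal.ofReal_mul hL'pos.le]
          congr 1
          field_simp
  have h6 : ENNReal.ofReal κ ≤ ENNReal.ofReal (κ / 4) + ENNReal.ofReal (κ / 4) := by
    calc ENNReal.ofReal κ ≤ ENNReal.ofReal (a n * (G'.card : ℝ)) := by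
          rw [← hcard]; exact ENNReal.ofReal_le_ofReal hnκ
      _ = ENNReal.ofReal (a n) * (G'.card : ℝ≥0∞) := by
          rw [ENNReal.ofReal_mul (ha n).le, ENNReal.ofReal_natCast]
      _ ≤ _ := h3
      _ ≤ _ := add_le_add h4 h5
  rw [← ENNReal.ofReal_add (by positivity) (by positivity),
    ENNReal.ofReal_le_ofReal_iff (by positivity)] at h6
  linarith

end Pool.Agent.helper19.HB
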