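import Pool.Agent.helper23.HB.Stmts

/-!
# Hyperbolic branching Brownian motion : module DIM (Hausdorff dimension and covers)
-/

open MeasureTheory ProbabilityTheory Set Filter Topology
open scoped ENNReal NNReal

namespace Pool.Agent.helper19.HB
open Pool.Agent.helper23.HB

/-- a set can be enlarged to an open set without increasing `ediam ^ s` by much -/
theorem dim_open (t : Set ℂ) (s : ℝ) (hs : 0 < s) (ht : Metric.ediam t ≤ 1) (e : ℝ≥0∞)
    (he : 0 < e) : ∃ V : Set ℂ, IsOpen V ∧ t ⊆ V ∧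
      Metric.ediam V ^ s ≤ (⨆ _ : t.Nonempty, Metric.ediam t ^ s) + e := by
  rcases t.eq_empty_or_nonempty with rfl | hne
  · refine ⟨∅, isOpen_empty, subset_rfl, ?_⟩
    rw [Metric.ediam_empty, ENNReal.zero_rpow_of_pos hs]
    exact zero_le
  · have hc : Tendsto (fun δ : ℝ≥0 => (Metric.ediam t + 2 * (δ : ℝ≥0∞)) ^ s) (𝓝[>] 0)
        (𝓝 (Metric.ediam t ^ s)) := by
      have h1 : Continuous (fun δ : ℝ≥0 => Metric.ediam t + 2 * (δ : ℝ≥0∞)) := by
        refine continuous_const.add ?_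
        exact (ENNReal.continuous_const_mul (by norm_num)).comp ENNReal.continuous_coe
      have h2 : Continuous (fun δ : ℝ≥0 => (Metric.ediam t + 2 * (δ : ℝ≥0∞)) ^ s) :=
        ENNReal.continuous_rpow_const.comp h1
      have h3 := h2.tendsto 0
      simp only [ENNReal.coe_zero, mul_zero, add_zero] at h3
      exact h3.mono_left nhdsWithin_le_nhds
    have htop : Metric.ediam t ^ s ≠ ∞ :=
      ENNReal.rpow_ne_top_of_nonneg hs.le (ht.trans_lt ENNReal.one_lt_top).ne
    have hlt : Metric.ediam t ^ s < Metric.ediam t ^ s + e := ENNReal.lt_add_right htop he.ne'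
    have h4 := (hc.eventually_lt_const hlt).and self_mem_nhdsWithin
    obtain ⟨δ, hδ1, hδ2⟩ := h4.exists
    refine ⟨Metric.thickening δ t, Metric.isOpen_thickening, ?_, ?_⟩
    · exact Metric.self_subset_thickening (by exact_mod_cast hδ2) t
    · rw [ciSup_pos hne]
      refine le_trans ?_ hδ1.le
      exact ENNReal.rpow_le_rpow (Metric.ediam_thickening_le δ) hs.le

theorem mDIM : St_DIM := by
  refine ⟨?_, ?_, ?_⟩
  · intro A s hs hA ε hε
    have h0 : μH[((⟨s, hs.le⟩ : ℝ≥0) : ℝ)] A = 0 := by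
      apply hausdorffMeasure_of_dimH_lt
      rw [ENNReal.ofReal, Real.toNNReal_of_nonneg hs.le] at hA
      exact hA
    have h0' : μH[s] A = 0 := h0
    rw [Measure.hausdorffMeasure_apply] at h0'
    have h1 : (⨅ (t : ℕ → Set ℂ) (_ : A ⊆ ⋃ n, t n) (_ : ∀ n, Metric.ediam (t n) ≤ 1),
        ∑' n, ⨆ _ : (t n).Nonempty, Metric.ediam (t n) ^ s) < ε / 2 := by
      have : (⨅ (t : ℕ → Set ℂ) (_ : A ⊆ ⋃ n, t n) (_ : ∀ n, Metric.ediam (t n) ≤ 1),
        ∑' n, ⨆ _ : (t n).Nonempty, Metric.ediam (t n) ^ s) ≤ 0 := by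
        rw [← h0']
        exact le_iSup₂_of_le (1 : ℝ≥0∞) zero_lt_one le_rfl
      exact this.trans_lt (ENNReal.half_pos hε.ne')
    simp only [iInf_lt_iff] at h1
    obtain ⟨t, ht1, ht2, ht3⟩ := h1
    obtain ⟨e, he1, he2⟩ := ENNReal.exists_pos_sum_of_countable' (ENNReal.half_pos hε.ne').ne' ℕ
    choose V hV1 hV2 hV3 using fun n => dim_open (t n) s hs (ht2 n) (e n) (he1 n)
    refine ⟨V, hV1, ht1.trans (iUnion_mono hV2), ?_⟩
    calc ∑' i, Metric.ediam (V i) ^ s
        ≤ ∑' i, ((⨆ _ : (t i).Nonempty, Metric.ediam (t i) ^ s) + e i) :=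
          ENNReal.tsum_le_tsum hV3
      _ = (∑' i, ⨆ _ : (t i).Nonempty, Metric.ediam (t i) ^ s) + ∑' i, e i := ENNReal.tsum_add
      _ ≤ ε / 2 + ε / 2 := add_le_add ht3.le he2.le
      _ = ε := ENNReal.add_halves ε
  · intro A s hs hcov
    have hpos : ∀ n : ℕ, (0 : ℝ≥0∞) < ((n : ℝ≥0∞) + 1)⁻¹ := by
      intro n
      rw [ENNReal.inv_pos]
      exact ENNReal.add_ne_top.mpr ⟨ENNReal.natCast_ne_top n, ENNReal.one_ne_top⟩
    choose ι hι U hU1 hU2 using fun n : ℕ => hcov _ (hpos n)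
    have hlim : Tendsto (fun n : ℕ => ((n : ℝ≥0∞) + 1)⁻¹) atTop (𝓝 0) := by
      have := ENNReal.tendsto_inv_nat_nhds_zero
      have h2 := this.comp (tendsto_add_atTop_nat 1)
      refine h2.congr fun n => ?_
      simp
    have hr : Tendsto (fun n : ℕ => (((n : ℝ≥0∞) + 1)⁻¹) ^ (1 / s)) atTop (𝓝 0) := by
      have h2 := (ENNReal.continuous_rpow_const (y := 1 / s)).tendsto 0
      rw [ENNReal.zero_rpow_of_pos (by positivity)] at h2
      exact h2.comp hlim
    have h1 : μH[s] A ≤ liminf (fun n => ∑' i, Metric.ediam (U n i) ^ s) atTop := by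
      refine Measure.hausdorffMeasure_le_liminf_tsum s A _ hr U ?_ ?_
      · refine Eventually.of_forall fun n i => ?_
        have h3 : Metric.ediam (U n i) ^ s ≤ ((n : ℝ≥0∞) + 1)⁻¹ :=
          (ENNReal.le_tsum i).trans (hU2 n)
        have h4 := ENNReal.rpow_le_rpow h3 (z := 1 / s) (by positivity)
        rwa [← ENNReal.rpow_mul, mul_one_div_cancel hs.ne', ENNReal.rpow_one] at h4
      · exact Eventually.of_forall hU1
    have h2 : liminf (fun n => ∑' i, Metric.ediam (U n i) ^ s) atTop ≤ 0 := by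
      rw [← hlim.liminf_eq]
      exact liminf_le_liminf (Eventually.of_forall hU2)
    have h3 : μH[s] A = 0 := le_antisymm (h1.trans h2) zero_le
    have h4 : μH[((⟨s, hs.le⟩ : ℝ≥0) : ℝ)] A ≠ ∞ := by
      change μH[s] A ≠ ∞
      rw [h3]; exact ENNReal.zero_ne_top
    have h5 := dimH_le_of_hausdorffMeasure_ne_top h4
    rw [ENNReal.ofReal, Real.toNNReal_of_nonneg hs.le]
    exact h5
  · have h1 : (circ : Set ℂ) ⊆ range (fun t : ℝ => Complex.exp (t * Complex.I)) := by
      intro z hz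
      rw [mem_sphere_zero_iff_norm] at hz
      refine ⟨z.arg, ?_⟩
      have := Complex.norm_mul_exp_arg_mul_I z
      rw [hz] at this
      simpa using this
    refine (dimH_mono h1).trans ?_
    have h2 : ContDiff ℝ 1 (fun t : ℝ => Complex.exp (t * Complex.I)) :=
      (Complex.ofRealCLM.contDiff.mul contDiff_const).cexp
    have h3 := h2.dimH_range_le
    simpa using h3

end Pool.Agent.helper19.HB
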