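import Pool.Agent.helper23.HB.Stmts

/-!
# Hyperbolic branching Brownian motion : module E3D
(deterministic upper bound for the dimension of the limit measure)
-/

open MeasureTheory ProbabilityTheory Set Filter Topology
open scoped ENNReal NNReal

namespace Pool.Agent.helper19.HB
open Pool.Agent.helper23.HB

theorem e3d_tsum_ind {S : Set Lab} (hS : S.Finite) :
    ∑' v : Lab, ind (v ∈ S) = (S.ncard : ℝ≥0∞) := by
  simp_rw [ind_mem]
  rw [← tsum_subtype S (fun _ => (1 : ℝ≥0∞)), ENNReal.tsum_set_one, ← hS.cast_ncard_eq]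
  simp

/-- a closed set which contains all but a small fraction of the particles -/
theorem e3d_close {β w : ℝ} {τ : Lab → ℝ} {D : Lab → ℝ → ℂ} {μ : Measure ℂ} (hNE : NE τ)
    (hw : 0 < w)
    (hlim : Tendsto (fun t : ℝ => Real.exp (-β * t) * ((Alive τ t).ncard : ℝ)) atTop (𝓝 w))
    (hμ : IsLim τ D μ) {F : Set ℂ} (hF : IsClosed F) {Q : ℝ} (T0 : ℝ)
    (hb : ∀ t : ℝ, T0 ≤ t → Real.exp (-β * t) * (({v | v ∈ Alive τ t ∧ D v t ∉ F} : Set Lab).ncard : ℝ)
      ≤ Q) : 1 - Q / w ≤ μ.real F := by
  classical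
  have := hμ.1
  set δs : ℕ → ℝ := fun n => 1 / ((n : ℝ) + 1) with hδs
  have hpos : ∀ n, 0 < δs n := fun n => by rw [hδs]; positivity
  have hlim0 : Tendsto δs atTop (𝓝 0) := tendsto_one_div_add_atTop_nhds_zero_nat
  refine ge_of_tendsto' (tendsto_integral_thickenedIndicator_of_isClosed μ hF hpos hlim0) ?_
  intro n
  set f : BoundedContinuousFunction ℂ ℝ := BoundedContinuousFunction.ofNormedAddCommGroup
    (fun x => (thickenedIndicator (hpos n) F x : ℝ)) (by fun_prop) 1 (fun x => by
      simpa using thickenedIndicator_le_one (hpos n) F x) with hf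
  have hfx : ∀ x, f x = (thickenedIndicator (hpos n) F x : ℝ) := fun x => rfl
  have h1 := hμ.2.2 f
  have h2 : Tendsto (fun t : ℝ => 1 - Q / (Real.exp (-β * t) * ((Alive τ t).ncard : ℝ))) atTop
      (𝓝 (1 - Q / w)) := tendsto_const_nhds.sub (tendsto_const_nhds.div hlim hw.ne')
  refine le_of_tendsto_of_tendsto h2 h1 ?_
  have h3 := hlim.eventually_const_lt hw
  filter_upwards [h3, eventually_ge_atTop T0] with t ht htT
  have hfin := hNE.finite_Alive t
  have hN : 0 < ((Alive τ t).ncard : ℝ) := by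
    by_contra h
    push Not at h
    have h4 := mul_nonpos_of_nonneg_of_nonpos (Real.exp_pos (-β * t)).le h
    linarith
  rw [avg, finsum_mem_eq_finite_toFinset_sum _ hfin]
  set A := hfin.toFinset with hA
  have hcard : ((Alive τ t).ncard : ℝ) = (A.card : ℝ) := by
    rw [hA, Set.ncard_eq_toFinset_card _ hfin]
  have hbad : (({v | v ∈ Alive τ t ∧ D v t ∉ F} : Set Lab).ncard : ℝ) =
      ((A.filter fun v => D v t ∉ F).card : ℝ) := by
    rw [← Set.ncard_coe_finset]
    congr 2
    ext v; simp [hA]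
  have h4 : (A.card : ℝ) - ((A.filter fun v => D v t ∉ F).card : ℝ) ≤
      ∑ v ∈ A, f (D v t) := by
    have h5 : (A.card : ℝ) - ((A.filter fun v => D v t ∉ F).card : ℝ) =
        ((A.filter fun v => ¬ D v t ∉ F).card : ℝ) := by
      have := Finset.card_filter_add_card_filter_not (s := A) (fun v => D v t ∉ F)
      rw [← this]; push_cast; ring
    rw [h5, Finset.card_eq_sum_ones, Nat.cast_sum, Finset.sum_filter]
    refine Finset.sum_le_sum fun v _ => ?_
    rw [hfx]
    by_cases h6 : D v t ∈ F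
    · rw [if_pos (not_not.mpr h6), thickenedIndicator_one (hpos n) F h6]; simp
    · rw [if_neg (not_not.mpr h6)]
      exact NNReal.coe_nonneg _
  have h6 := hb t htT
  rw [hbad] at h6
  rw [hcard] at hN ht ⊢
  have he := Real.exp_pos (-β * t)
  calc 1 - Q / (Real.exp (-β * t) * (A.card : ℝ))
      ≤ 1 - (Real.exp (-β * t) * ((A.filter fun v => D v t ∉ F).card : ℝ)) /
        (Real.exp (-β * t) * (A.card : ℝ)) := by
        have := div_le_div_of_nonneg_right h6 ht.le
        linarith
    _ = (A.card : ℝ)⁻¹ * ((A.card : ℝ) - ((A.filter fun v => D v t ∉ F).card : ℝ)) := by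
        field_simp
    _ ≤ _ := mul_le_mul_of_nonneg_left h4 (inv_nonneg.mpr hN.le)

theorem mE3D (hDIM : St_DIM) : St_E3D := by
  classical
  intro β c s w τ D μ q hβ hs hβs hNE hw hlim hμ hq hfar
  have := hμ.1
  set F : ℕ → Set ℂ := fun n => ⋃ u ∈ Alive τ n, Metric.closedBall (D u n) (Real.exp (-c * n))
    with hF
  have hFcl : ∀ n, IsClosed (F n) := fun n =>
    (hNE.finite_Alive n).isClosed_biUnion fun u _ => Metric.isClosed_closedBall
  -- the closed sets have almost full measure
  have hmeas : ∀ n, q n ≠ ∞ → μ (F n)ᶜ ≤ ENNReal.ofReal ((q n).toReal / w) := by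
    intro n hn
    have h1 : 1 - (q n).toReal / w ≤ μ.real (F n) := by
      refine e3d_close hNE hw hlim hμ (hFcl n) n ?_
      intro t ht
      have hfin : ({v | v ∈ Alive τ t ∧ D v t ∉ F n} : Set Lab).Finite :=
        (hNE.finite_Alive t).subset fun v hv => hv.1
      have h2 : ENNReal.ofReal (Real.exp (-β * t)) *
          (({v | v ∈ Alive τ t ∧ D v t ∉ F n} : Set Lab).ncard : ℝ≥0∞) ≤ q n := by
        rw [← e3d_tsum_ind hfin]
        refine le_trans ?_ (hfar n t ht)
        refine mul_le_mul_right (ENNReal.tsum_le_tsum fun v => ?_) _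
        rw [← ind_and]
        refine ind_mono ?_
        rintro ⟨hv1, hv2⟩
        refine ⟨hv1, ?_⟩
        by_contra h3
        push Not at h3
        apply hv2
        rw [hF]
        simp only [mem_iUnion]
        refine ⟨anc τ n v, anc_mem (Nat.cast_nonneg n) (lt_of_le_of_lt ht hv1.2), ?_⟩
        rw [Metric.mem_closedBall, dist_eq_norm]
        exact h3
      have h3 := ENNReal.toReal_mono hn h2
      rwa [ENNReal.toReal_mul, ENNReal.toReal_ofReal (Real.exp_pos _).le,
        ENNReal.toReal_natCast] at h3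
    have h4 : μ.real (F n)ᶜ ≤ (q n).toReal / w := by
      rw [probReal_compl_eq_one_sub (hFcl n).measurableSet]; linarith
    rw [← ofReal_measureReal (measure_ne_top μ _)]
    exact ENNReal.ofReal_le_ofReal h4
  set A : Set ℂ := circ ∩ ⋂ N : ℕ, ⋃ n : ℕ, ⋃ (_ : N ≤ n), F n with hA
  have hAm : MeasurableSet A :=
    Metric.isClosed_sphere.measurableSet.inter (MeasurableSet.iInter fun N =>
      MeasurableSet.iUnion fun n => MeasurableSet.iUnion fun _ => (hFcl n).measurableSet)
  have hnull : μ (circ \ A) = 0 := by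
    have h1 : circ \ A ⊆ ⋃ N : ℕ, ⋂ n : ℕ, ⋂ (_ : N ≤ n), (F n)ᶜ := by
      intro z hz
      rw [hA] at hz
      have h2 : z ∉ ⋂ N : ℕ, ⋃ n : ℕ, ⋃ (_ : N ≤ n), F n := fun h => hz.2 ⟨hz.1, h⟩
      simp only [mem_iInter, mem_iUnion, not_forall, not_exists] at h2
      obtain ⟨N, hN⟩ := h2
      simp only [mem_iUnion, mem_iInter]
      exact ⟨N, fun n hn => hN n hn⟩
    refine measure_mono_null h1 (measure_iUnion_null fun N => ?_)
    have h2 : Tendsto (fun n => ENNReal.ofReal ((q n).toReal / w)) atTop (𝓝 0) := by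
      have h3 : Tendsto (fun n => (q n).toReal) atTop (𝓝 0) := by
        have := (ENNReal.tendsto_toReal ENNReal.zero_ne_top).comp hq
        rw [ENNReal.toReal_zero] at this
        exact this
      have h4 : Tendsto (fun n => (q n).toReal / w) atTop (𝓝 0) := by
        have := h3.div_const w
        simpa using this
      have := (ENNReal.continuous_ofReal.tendsto 0).comp h4
      rw [ENNReal.ofReal_zero] at this
      exact this
    refine le_antisymm (ge_of_tendsto h2 ?_) zero_le
    filter_upwards [eventually_ge_atTop N, hq.eventually_lt_const (zero_lt_one' ℝ≥0∞)] with n hn hn2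
    refine le_trans (measure_mono ?_) (hmeas n (hn2.trans ENNReal.one_lt_top).ne)
    exact iInter₂_subset n hn
  have h1 : dimM μ ≤ dimH A :=
    iInf_le_of_le A (iInf_le_of_le hAm (iInf_le_of_le inter_subset_left
      (iInf_le_of_le hnull le_rfl)))
  refine h1.trans (hDIM.2.1 A s hs ?_)
  intro ε hε
  -- boundedness of the normalised population
  obtain ⟨C, hC⟩ : ∃ C : ℝ, ∀ n : ℕ, Real.exp (-β * n) * ((Alive τ n).ncard : ℝ) ≤ C := by
    have h2 := (hlim.comp tendsto_natCast_atTop_atTop).bddAbove_range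
    obtain ⟨C, hC⟩ := h2
    exact ⟨C, fun n => hC ⟨n, rfl⟩⟩
  set g : ℕ → ℝ≥0∞ := fun n => ((Alive τ n).ncard : ℝ≥0∞) *
    ENNReal.ofReal (2 * Real.exp (-c * n)) ^ s with hg
  have hgsum : ∑' n, g n ≠ ∞ := by
    have h3 : ∀ n, g n ≤ ENNReal.ofReal (C * 2 ^ s * (Real.exp (β - s * c)) ^ n) := by
      intro n
      rw [hg]
      simp only
      rw [ENNReal.ofReal_rpow_of_pos (by positivity), ← ENNReal.ofReal_natCast,
        ← ENNReal.ofReal_mul (Nat.cast_nonneg _)]
      refine ENNReal.ofReal_le_ofReal ?_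
      rw [Real.mul_rpow (by norm_num) (Real.exp_pos _).le, ← Real.exp_mul, ← Real.exp_nat_mul]
      have h4 : Real.exp (-c * n * s) = Real.exp (-β * n) * Real.exp (n * (β - s * c)) := by
        rw [← Real.exp_add]; congr 1; ring
      rw [h4]
      have h5 := hC n
      have h6 : (0 : ℝ) < 2 ^ s := by positivity
      have h7 := Real.exp_pos (n * (β - s * c))
      calc ((Alive τ n).ncard : ℝ) * (2 ^ s * (Real.exp (-β * n) * Real.exp (n * (β - s * c))))
          = (Real.exp (-β * n) * ((Alive τ n).ncard : ℝ)) * (2 ^ s *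
            Real.exp (n * (β - s * c))) := by ring
        _ ≤ C * (2 ^ s * Real.exp (n * (β - s * c))) :=
            mul_le_mul_of_nonneg_right h5 (by positivity)
        _ = _ := by ring
    refine ne_top_of_le_ne_top ?_ (ENNReal.tsum_le_tsum h3)
    apply Summable.tsum_ofReal_ne_top
    apply Summable.mul_left
    apply summable_geometric_of_lt_one (Real.exp_pos _).le
    rw [Real.exp_lt_one_iff]; linarith
  have h8 := ENNReal.tendsto_sum_nat_add g hgsum
  obtain ⟨N, hN⟩ := (h8.eventually_lt_const hε).exists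
  refine ⟨ℕ × Lab, inferInstance, fun p => if p.2 ∈ Alive τ ((p.1 + N : ℕ) : ℝ) then
    Metric.closedBall (D p.2 ((p.1 + N : ℕ) : ℝ)) (Real.exp (-c * ((p.1 + N : ℕ) : ℝ))) else ∅,
    ?_, ?_⟩
  · intro z hz
    have h9 := hz.2
    simp only [mem_iInter, mem_iUnion] at h9
    obtain ⟨n, hn, h10⟩ := h9 N
    rw [hF] at h10
    simp only [mem_iUnion] at h10
    obtain ⟨u, hu, h11⟩ := h10
    rw [mem_iUnion]
    refine ⟨(n - N, u), ?_⟩
    simp only
    rw [Nat.sub_add_cancel hn, if_pos hu]
    exact h11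
  · rw [ENNReal.tsum_prod']
    refine le_trans (ENNReal.tsum_le_tsum fun k => ?_) hN.le
    rw [hg]
    simp only
    rw [← e3d_tsum_ind (hNE.finite_Alive _), ← ENNReal.tsum_mul_right]
    refine ENNReal.tsum_le_tsum fun u => ?_
    split_ifs with h9
    · rw [ind_true h9, one_mul]
      refine ENNReal.rpow_le_rpow ?_ hs.le
      rw [← Metric.closedEBall_ofReal (Real.exp_pos _).le, ENNReal.ofReal_mul (by norm_num)]
      refine Metric.ediam_closedEBall_le.trans ?_
      simp
    · rw [ind_false h9, zero_mul, Metric.ediam_empty, ENNReal.zero_rpow_of_pos hs]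

end Pool.Agent.helper19.HB
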