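import Pool.Agent.helper23.HB.Stmts

/-!
# Hyperbolic branching Brownian motion : module ECOV (energy / covering inequality)
-/

open MeasureTheory ProbabilityTheory Set Filter Topology
open scoped ENNReal NNReal

namespace Pool.Agent.helper19.HB
open Pool.Agent.helper23.HB

/-- ordered pairs of different elements of an antichain are quadruples -/
theorem ecov_pairs (G : Finset Lab) (hG : ∀ p ∈ G, ∀ q ∈ G, p <:+ q → p = q) :
    (G.card : ℝ≥0∞) ^ 2 ≤ (G.card : ℝ≥0∞) + ∑' z : Quad, ind (qu z ∈ G ∧ qv z ∈ G) := by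
  classical
  have hex : ∀ pq : Lab × Lab, pq ∈ G.offDiag → ∃ z : Quad, qu z = pq.1 ∧ qv z = pq.2 := by
    intro pq hpq
    rw [Finset.mem_offDiag] at hpq
    rcases suffix_or pq.1 pq.2 with h | h | h
    · exact absurd (hG _ hpq.1 _ hpq.2.1 h) hpq.2.2
    · exact absurd (hG _ hpq.2.1 _ hpq.1 h).symm hpq.2.2
    · exact h
  choose! f hf using hex
  have hinj : Set.InjOn f (G.offDiag : Set (Lab × Lab)) := by
    intro a ha b hb hab
    have h1 := hf a (by simpa using ha)
    have h2 := hf b (by simpa using hb)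
    rw [hab] at h1
    exact Prod.ext (h1.1.symm.trans h2.1) (h1.2.symm.trans h2.2)
  have h1 : ((G.offDiag.image f).card : ℝ≥0∞) ≤ ∑' z : Quad, ind (qu z ∈ G ∧ qv z ∈ G) := by
    refine le_trans ?_ (ENNReal.sum_le_tsum (G.offDiag.image f))
    have : ∀ z ∈ G.offDiag.image f, ind (qu z ∈ G ∧ qv z ∈ G) = 1 := by
      intro z hz
      rw [Finset.mem_image] at hz
      obtain ⟨pq, hpq, rfl⟩ := hz
      have h2 := hf pq hpq
      rw [Finset.mem_offDiag] at hpq
      exact ind_true ⟨by rw [h2.1]; exact hpq.1, by rw [h2.2]; exact hpq.2.1⟩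
    rw [Finset.sum_congr rfl this]
    simp
  rw [Finset.card_image_of_injOn hinj, Finset.offDiag_card] at h1
  refine le_trans ?_ (add_le_add_right h1 _)
  have h3 : G.card ≤ G.card * G.card := Nat.le_mul_self _
  have h4 : G.card ^ 2 = G.card + (G.card * G.card - G.card) := by
    rw [sq]; omega
  exact_mod_cast h4.le

theorem ecov_sqrt (a b : ℝ≥0∞) : (a * b) ^ (1 / 2 : ℝ) = a ^ (1 / 2 : ℝ) * b ^ (1 / 2 : ℝ) :=
  ENNReal.mul_rpow_of_nonneg _ _ (by norm_num)

theorem ecov_cs (k : ℕ) (f g : ℕ → ℝ≥0∞) :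
    ∑ i ∈ Finset.range k, (f i * g i) ^ (1 / 2 : ℝ) ≤
      ((∑ i ∈ Finset.range k, f i) * ∑ i ∈ Finset.range k, g i) ^ (1 / 2 : ℝ) := by
  have h := ENNReal.inner_le_Lp_mul_Lq (Finset.range k) (fun i => f i ^ (1 / 2 : ℝ))
    (fun i => g i ^ (1 / 2 : ℝ)) (p := 2) (q := 2) Real.HolderConjugate.two_two
  rw [ecov_sqrt]
  simp only [← ENNReal.rpow_mul] at h
  norm_num at h
  simp only [ecov_sqrt]
  norm_num
  exact h

theorem mECOV : St_ECOV := by
  classical
  intro G x a s near k U ha hs hG hcov hE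
  -- index of the first set
  have hex : ∀ p : Lab, p ∈ G → ∃ i : ℕ, i < k ∧ x p ∈ U i := by
    intro p hp; exact hcov p hp
  choose! idx hidx using hex
  set Gi : ℕ → Finset Lab := fun i => G.filter fun p => idx p = i with hGi
  have hcard : G.card = ∑ i ∈ Finset.range k, (Gi i).card :=
    Finset.card_eq_sum_card_fiberwise (f := idx) (t := Finset.range k)
      (fun p hp => by simpa using (hidx p (by simpa using hp)).1)
  set N : ℕ → ℝ≥0∞ := fun i => ∑' z : Quad, ind (qu z ∈ Gi i ∧ qv z ∈ Gi i ∧ near z.1) with hN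
  set E : ℕ → ℝ≥0∞ := fun i => ∑' z : Quad, ind (qu z ∈ Gi i ∧ qv z ∈ Gi i ∧ ¬near z.1) *
    ‖x (qu z) - x (qv z)‖ₑ ^ (-s) with hEdef
  -- sums over i
  have hsub : ∀ (i : ℕ) p, p ∈ Gi i → p ∈ G ∧ idx p = i := by
    intro i p hp; simpa [hGi] using hp
  have hsum1 : ∀ (Q : Quad → Prop) (z : Quad),
      ∑ i ∈ Finset.range k, ind (qu z ∈ Gi i ∧ qv z ∈ Gi i ∧ Q z) ≤
        ind (qu z ∈ G ∧ qv z ∈ G ∧ Q z) := by
    intro Q z
    by_cases h : ∃ i ∈ Finset.range k, qu z ∈ Gi i ∧ qv z ∈ Gi i ∧ Q z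
    · obtain ⟨i, hi, h1, h2, h3⟩ := h
      rw [Finset.sum_eq_single i]
      · exact ind_mono fun h => ⟨(hsub i _ h.1).1, (hsub i _ h.2.1).1, h.2.2⟩
      · intro j _ hj
        apply ind_false
        rintro ⟨h4, -, -⟩
        exact hj ((hsub j _ h4).2.symm.trans (hsub i _ h1).2)
      · intro h; exact absurd hi h
    · push Not at h
      rw [Finset.sum_eq_zero]
      · exact zero_le
      · intro i hi
        apply ind_false
        rintro ⟨h1, h2, h3⟩
        exact h i hi h1 h2 h3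
  have hNsum : ∑ i ∈ Finset.range k, N i ≤
      ∑' z : Quad, ind (qu z ∈ G ∧ qv z ∈ G ∧ near z.1) := by
    rw [← Summable.tsum_finsetSum (fun _ _ => ENNReal.summable)]
    exact ENNReal.tsum_le_tsum fun z => hsum1 (fun z => near z.1) z
  have hEsum : ∑ i ∈ Finset.range k, E i ≤
      ∑' z : Quad, ind (qu z ∈ G ∧ qv z ∈ G ∧ ¬near z.1) *
        ‖x (qu z) - x (qv z)‖ₑ ^ (-s) := by
    rw [← Summable.tsum_finsetSum (fun _ _ => ENNReal.summable)]
    refine ENNReal.tsum_le_tsum fun z => ?_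
    rw [← Finset.sum_mul]
    exact mul_le_mul_left (hsum1 (fun z => ¬near z.1) z) _
  -- the energy is finite so that far points are different
  have hne : ∀ z : Quad, qu z ∈ G → qv z ∈ G → ¬near z.1 → ‖x (qu z) - x (qv z)‖ₑ ≠ 0 := by
    intro z h1 h2 h3 h0
    apply hE
    rw [← top_le_iff]
    refine le_trans ?_ (ENNReal.le_tsum z)
    rw [ind_true ⟨h1, h2, h3⟩, h0, ENNReal.zero_rpow_of_neg (by linarith), one_mul]
  have key : ∀ i, ((Gi i).card : ℝ≥0∞) ^ 2 ≤ ((Gi i).card : ℝ≥0∞) + N i +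
      E i * Metric.ediam (U i) ^ s := by
    intro i
    have h1 := ecov_pairs (Gi i) (fun p hp q hq => hG p (hsub i p hp).1 q (hsub i q hq).1)
    refine h1.trans ?_
    rw [add_assoc]
    refine add_le_add_right ?_ _
    rw [hN, hEdef]
    simp only
    rw [← ENNReal.tsum_mul_right, ← ENNReal.tsum_add]
    refine ENNReal.tsum_le_tsum fun z => ?_
    by_cases h : qu z ∈ Gi i ∧ qv z ∈ Gi i
    · by_cases hn : near z.1
      · rw [ind_true h, ind_true ⟨h.1, h.2, hn⟩]
        exact le_self_add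
      · rw [ind_true h, ind_false (by tauto), ind_true ⟨h.1, h.2, hn⟩, zero_add, one_mul]
        have hu := hsub i _ h.1
        have hv := hsub i _ h.2
        have h0 := hne z hu.1 hv.1 hn
        have hle : ‖x (qu z) - x (qv z)‖ₑ ≤ Metric.ediam (U i) := by
          rw [← edist_eq_enorm_sub]
          apply Metric.edist_le_ediam_of_mem
          · have := (hidx _ hu.1).2; rwa [hu.2] at this
          · have := (hidx _ hv.1).2; rwa [hv.2] at this
        calc (1 : ℝ≥0∞) = ‖x (qu z) - x (qv z)‖ₑ ^ (-s) * ‖x (qu z) - x (qv z)‖ₑ ^ s := by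
              rw [← ENNReal.rpow_add _ _ h0 enorm_ne_top]; simp
          _ ≤ _ := mul_le_mul_right (ENNReal.rpow_le_rpow hle hs.le) _
    · rw [ind_false h]; exact zero_le
  have key2 : ∀ i, ENNReal.ofReal a * ((Gi i).card : ℝ≥0∞) ≤
      (1 * (ENNReal.ofReal (a ^ 2) * (((Gi i).card : ℝ≥0∞) + N i))) ^ (1 / 2 : ℝ) +
      ((ENNReal.ofReal (a ^ 2) * E i) * Metric.ediam (U i) ^ s) ^ (1 / 2 : ℝ) := by
    intro i
    have h1 : ENNReal.ofReal a * ((Gi i).card : ℝ≥0∞) =
        (ENNReal.ofReal (a ^ 2) * ((Gi i).card : ℝ≥0∞) ^ 2) ^ (1 / 2 : ℝ) := by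
      rw [ENNReal.ofReal_pow ha.le, ← mul_pow, ← ENNReal.rpow_natCast, ← ENNReal.rpow_mul]
      norm_num
    rw [h1]
    refine le_trans (ENNReal.rpow_le_rpow (mul_le_mul_right (key i) _) (by norm_num)) ?_
    rw [mul_add, one_mul, mul_assoc]
    exact ENNReal.rpow_add_le_add_rpow _ _ (by norm_num) (by norm_num)
  calc ENNReal.ofReal a * (G.card : ℝ≥0∞)
      = ∑ i ∈ Finset.range k, ENNReal.ofReal a * ((Gi i).card : ℝ≥0∞) := by
        rw [← Finset.mul_sum, hcard]; push_cast; rfl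
    _ ≤ ∑ i ∈ Finset.range k, ((1 * (ENNReal.ofReal (a ^ 2) * (((Gi i).card : ℝ≥0∞) + N i))) ^
          (1 / 2 : ℝ) +
          ((ENNReal.ofReal (a ^ 2) * E i) * Metric.ediam (U i) ^ s) ^ (1 / 2 : ℝ)) :=
        Finset.sum_le_sum fun i _ => key2 i
    _ = _ := Finset.sum_add_distrib
    _ ≤ _ := add_le_add (ecov_cs k _ _) (ecov_cs k _ _)
    _ ≤ _ := by
        refine add_le_add (ENNReal.rpow_le_rpow ?_ (by norm_num))
          (ENNReal.rpow_le_rpow ?_ (by norm_num))
        · refine mul_le_mul' (by simp) ?_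
          rw [← Finset.mul_sum, Finset.sum_add_distrib, hcard]
          push_cast
          exact mul_le_mul_right (add_le_add_right hNsum _) _
        · refine mul_le_mul_left ?_ _
          rw [← Finset.mul_sum]
          exact mul_le_mul_right hEsum _

end Pool.Agent.helper19.HB
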