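import Pool.Agent.helper23.HB.Stmts

/-!
# Hyperbolic branching Brownian motion : module SYS (pathwise facts for systems)
-/

open MeasureTheory ProbabilityTheory Set Filter Topology
open scoped ENNReal NNReal

namespace Pool.Agent.helper19.HB
open Pool.Agent.helper23.HB

theorem sys_norm_cis (x : ℝ) : ‖cis x‖ = 1 := Complex.norm_exp_ofReal_mul_I x

theorem sys_cis_sub (x y : ℝ) : ‖cis x - cis y‖ ≤ |x - y| := by
  have h : cis x - cis y = cis y * (Complex.exp (Complex.I * ((x - y : ℝ) : ℂ)) - 1) := by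
    rw [cis, cis, mul_sub, mul_one, ← Complex.exp_add]
    congr 2
    push_cast; ring
  rw [h, norm_mul, sys_norm_cis, one_mul]
  exact Real.norm_exp_I_mul_ofReal_sub_one_le

theorem sys_tanh {r : ℝ} (hr : 0 < r) : 0 < Real.tanh (r / 2) ∧ Real.tanh (r / 2) < 1 ∧
    1 - Real.tanh (r / 2) ≤ 2 * Real.exp (-r) := by
  have e1 : 0 < Real.exp (r / 2) := Real.exp_pos _
  have e2 : 0 < Real.exp (-(r / 2)) := Real.exp_pos _
  have e3 : Real.exp (-(r / 2)) < Real.exp (r / 2) := Real.exp_lt_exp.mpr (by linarith)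
  have ht : Real.tanh (r / 2) = (Real.exp (r / 2) - Real.exp (-(r / 2))) /
      (Real.exp (r / 2) + Real.exp (-(r / 2))) := by
    rw [Real.tanh_eq_sinh_div_cosh, Real.sinh_eq, Real.cosh_eq]
    field_simp
  rw [ht]
  refine ⟨div_pos (by linarith) (by linarith), ?_, ?_⟩
  · rw [div_lt_one (by linarith)]; linarith
  · have h1 : 1 - (Real.exp (r / 2) - Real.exp (-(r / 2))) /
        (Real.exp (r / 2) + Real.exp (-(r / 2))) =
        2 * Real.exp (-(r / 2)) / (Real.exp (r / 2) + Real.exp (-(r / 2))) := by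
      field_simp; ring
    rw [h1, div_le_iff₀ (by linarith)]
    have h2 : Real.exp (-r) * Real.exp (r / 2) = Real.exp (-(r / 2)) := by
      rw [← Real.exp_add]; congr 1; ring
    have h3 : 0 < Real.exp (-r) * Real.exp (-(r / 2)) := by positivity
    nlinarith

theorem mSYS (hCLK : St_CLK) : St_SYS := by
  intro Ω _ P _ β lam S
  have hR : ∀ ω, RadOK lam (S.T ω) (S.B ω) (S.R ω) := fun ω =>
    ⟨S.life.pos ω, S.rad ω, S.old ω⟩
  have hTh : ∀ ω x u t, 0 ≤ t → t ≤ death (S.T ω) u → S.Th ω (x :: u) t = S.Th ω u t :=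
    fun ω x u t h0 ht => (hCLK lam (S.T ω) (S.B ω) (S.R ω) (hR ω)).2.2.2.2.1 (S.θ0 ω) (S.W ω)
      x u t h0 ht
  have hcont : ∀ ω u, ContinuousOn (S.Th ω u) (Ici 0) := fun ω u =>
    (hCLK lam (S.T ω) (S.B ω) (S.R ω) (hR ω)).2.2.2.2.2 (S.θ0 ω) (S.W ω) u
  have hD : ∀ ω x u t, 0 ≤ t → t ≤ death (S.T ω) u → S.D ω (x :: u) t = S.D ω u t := by
    intro ω x u t h0 ht
    rw [Sys.D, Sys.D, hTh ω x u t h0 ht]
  have hDn : ∀ ω u t, ‖S.D ω u t‖ = 1 := fun ω u t => sys_norm_cis _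
  refine ⟨hR, hTh, hD, ?_, hcont, hDn, ?_, ?_, ?_⟩
  · intro ω x u t h0 ht
    rw [Sys.Z, Sys.Z, hD ω x u t h0 ht, S.old ω x u t h0 ht]
  · intro ω u t ht
    have hpos := (S.rad ω u).pos t ht
    obtain ⟨h1, h2, h3⟩ := sys_tanh hpos
    have hZ : ‖S.Z ω u t‖ = Real.tanh (S.R ω u t / 2) := by
      rw [Sys.Z, norm_mul, hDn, mul_one, Complex.norm_real, Real.norm_eq_abs, abs_of_pos h1]
    have hZD : ‖S.Z ω u t - S.D ω u t‖ = 1 - Real.tanh (S.R ω u t / 2) := by
      have : S.Z ω u t - S.D ω u t =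
          -(((1 - Real.tanh (S.R ω u t / 2) : ℝ) : ℂ) * S.D ω u t) := by
        rw [Sys.Z]; push_cast; ring
      rw [this, norm_neg, norm_mul, hDn, mul_one, Complex.norm_real, Real.norm_eq_abs,
        abs_of_pos (by linarith)]
    refine ⟨by rw [hZ]; exact h2.le, by rw [hZD, hZ], by rw [hZD]; exact h3⟩
  · intro ω u m r h0 h1
    have h2 : ‖S.D ω u (m + r) - S.D ω u m‖ ≤ 2 := by
      refine (norm_sub_le _ _).trans ?_
      rw [hDn, hDn]; norm_num
    refine le_min h2 ?_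
    refine (sys_cis_sub _ _).trans ?_
    have hc : Continuous fun r : Icc (0 : ℝ) 1 => |S.Th ω u (m + r) - S.Th ω u m| := by
      have h3 : Continuous fun r : Icc (0 : ℝ) 1 => S.Th ω u (m + r) := by
        refine (hcont ω u).comp_continuous (by fun_prop) ?_
        intro r
        have := r.2.1
        have : (0 : ℝ) ≤ m := Nat.cast_nonneg m
        simp only [mem_Ici]; linarith
      exact (h3.sub continuous_const).abs
    exact le_ciSup (isCompact_range hc).bddAbove (⟨r, h0, h1⟩ : Icc (0 : ℝ) 1)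
  · intro ω u m
    exact ⟨le_min (by norm_num) (Real.iSup_nonneg fun _ => abs_nonneg _), min_le_left _ _⟩

end Pool.Agent.helper19.HB
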