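import Pool.Agent.helper19.WildParity

namespace Pool.Agent.WildPlane

open IsLocalRing MvPowerSeries

section Basis

variable {k : Type*} [Field k]

theorem hasSubst_pair {x y : Plane k} (hx : OrdGe 1 x) (hy : OrdGe 1 y) :
    HasSubst ![x, y] := by
  apply hasSubst_of_constantCoeff_zero
  intro i
  fin_cases i
  · exact ordGe_one_iff.mp hx
  · exact ordGe_one_iff.mp hy

/-- Substitution `X ↦ x, Y ↦ y`. -/
noncomputable def sub {x y : Plane k} (hx : OrdGe 1 x) (hy : OrdGe 1 y) :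
    Plane k →ₐ[k] Plane k := substAlgHom (hasSubst_pair hx hy)

theorem sub_X0 {x y : Plane k} (hx : OrdGe 1 x) (hy : OrdGe 1 y) :
    sub hx hy (X 0) = x := by
  rw [sub, substAlgHom_X]; rfl

theorem sub_X1 {x y : Plane k} (hx : OrdGe 1 x) (hy : OrdGe 1 y) :
    sub hx hy (X 1) = y := by
  rw [sub, substAlgHom_X]; rfl

theorem ordGe_pow_sub_pow {m n : ℕ} {a a' : Plane k} (h : OrdGe (m + 1) (a - a'))
    (ha : OrdGe m a) (ha' : OrdGe m a') :
    OrdGe (n * m + 1) (a ^ n - a' ^ n) ∧ OrdGe (n * m) (a ^ n) ∧ OrdGe (n * m) (a' ^ n) := by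
  induction n with
  | zero =>
    refine ⟨?_, ?_, ?_⟩
    · simpa using OrdGe.zero 1
    · simpa using OrdGe.zero' _
    · simpa using OrdGe.zero' _
  | succ n ih =>
    obtain ⟨h1, h2, h3⟩ := ih
    refine ⟨?_, ?_, ?_⟩
    · have e : a ^ (n + 1) - a' ^ (n + 1) = (a ^ n - a' ^ n) * a + a' ^ n * (a - a') := by ring
      rw [e]
      refine OrdGe.add ?_ ?_
      · exact (h1.mul ha).mono (by ring_nf; omega)
      · exact (h3.mul h).mono (by ring_nf; omega)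
    · rw [pow_succ]
      exact (h2.mul ha).mono (by ring_nf; omega)
    · rw [pow_succ]
      exact (h3.mul ha').mono (by ring_nf; omega)

theorem ordGe_monomials {x y : Plane k} (hx : OrdGe 3 (x - X 0 ^ 2))
    (hy : OrdGe 3 (y - X 1 ^ 2)) (i j : ℕ) :
    OrdGe (2 * (i + j) + 1) (x ^ i * y ^ j - (X 0 ^ 2) ^ i * (X 1 ^ 2) ^ j) := by
  have hX : ∀ i : Fin 2, OrdGe 2 ((X i : Plane k) ^ 2) := by
    intro i
    rw [pow_two]
    exact (ordGe_X i).mul (ordGe_X i)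
  have hx2 : OrdGe 2 x := by
    have : x = (x - X 0 ^ 2) + X 0 ^ 2 := by ring
    rw [this]
    exact (hx.mono (by norm_num)).add (hX 0)
  have hy2 : OrdGe 2 y := by
    have : y = (y - X 1 ^ 2) + X 1 ^ 2 := by ring
    rw [this]
    exact (hy.mono (by norm_num)).add (hX 1)
  obtain ⟨a1, a2, a3⟩ := ordGe_pow_sub_pow (n := i) (m := 2) hx hx2 (hX 0)
  obtain ⟨b1, b2, b3⟩ := ordGe_pow_sub_pow (n := j) (m := 2) hy hy2 (hX 1)
  have e : x ^ i * y ^ j - (X 0 ^ 2) ^ i * (X 1 ^ 2) ^ j =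
      (x ^ i - (X 0 ^ 2) ^ i) * y ^ j + (X 0 ^ 2) ^ i * (y ^ j - (X 1 ^ 2) ^ j) := by ring
  rw [e]
  exact ((a1.mul b2).mono (by omega)).add ((a3.mul b1).mono (by omega))

theorem sub_sub_ex {x y : Plane k} (hx1 : OrdGe 1 x) (hy1 : OrdGe 1 y)
    (hx : OrdGe 3 (x - X 0 ^ 2)) (hy : OrdGe 3 (y - X 1 ^ 2)) (g : Plane k) (M : ℕ)
    (hg : ∀ d : Fin 2 →₀ ℕ, 2 * d.degree < M → coeff d g = 0) :
    OrdGe (M + 1) (sub hx1 hy1 g - ex g) := by
  intro e he
  rw [map_sub, sub_eq_zero, sub, substAlgHom_apply, ex, expand, substAlgHom_apply,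
    coeff_subst (hasSubst_pair hx1 hy1), coeff_subst (HasSubst.X_pow two_ne_zero)]
  apply finsum_congr
  intro d
  by_cases hd : coeff d g = 0
  · rw [hd, zero_smul, zero_smul]
  · have hM : M ≤ 2 * d.degree := by
      by_contra hcon
      exact hd (hg d (not_le.mp hcon))
    congr 1
    have h1 := ordGe_monomials hx hy (d 0) (d 1) e (by rw [← degree_eq]; omega)
    rw [map_sub, sub_eq_zero] at h1
    rw [Finsupp.prod_fintype _ _ (fun _ => pow_zero _),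
      Finsupp.prod_fintype _ _ (fun _ => pow_zero _), Fin.prod_univ_two, Fin.prod_univ_two]
    exact h1

/-- The comparison map. -/
noncomputable def Phi {x y : Plane k} (hx : OrdGe 1 x) (hy : OrdGe 1 y) :
    Plane k →+ Plane k where
  toFun f := sub hx hy (comp 0 0 f) + X 0 * sub hx hy (comp 1 0 f) +
    X 1 * sub hx hy (comp 0 1 f) + X 0 * X 1 * sub hx hy (comp 1 1 f)
  map_zero' := by simp
  map_add' f g := by simp only [map_add]; ring

theorem Phi_apply {x y : Plane k} (hx : OrdGe 1 x) (hy : OrdGe 1 y) (f : Plane k) :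
    Phi hx hy f = sub hx hy (comp 0 0 f) + X 0 * sub hx hy (comp 1 0 f) +
    X 1 * sub hx hy (comp 0 1 f) + X 0 * X 1 * sub hx hy (comp 1 1 f) := rfl

theorem comp_coeff_zero {N : ℕ} {f : Plane k} (hf : OrdGe N f) (i j : ℕ)
    (d : Fin 2 →₀ ℕ) (hd : 2 * d.degree < N - (i + j)) : coeff d (comp i j f) = 0 := by
  rw [coeff_comp]
  apply hf
  rw [map_add, degree_par, map_nsmul, smul_eq_mul]
  omega

theorem Phi_bijective {x y : Plane k} (hx1 : OrdGe 1 x) (hy1 : OrdGe 1 y)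
    (hx : OrdGe 3 (x - X 0 ^ 2)) (hy : OrdGe 3 (y - X 1 ^ 2)) :
    Function.Bijective (Phi hx1 hy1) := by
  apply bijective_of_leading_id
  intro N f hf
  have e : Phi hx1 hy1 f - f =
      (sub hx1 hy1 (comp 0 0 f) - ex (comp 0 0 f)) +
      X 0 * (sub hx1 hy1 (comp 1 0 f) - ex (comp 1 0 f)) +
      X 1 * (sub hx1 hy1 (comp 0 1 f) - ex (comp 0 1 f)) +
      X 0 * X 1 * (sub hx1 hy1 (comp 1 1 f) - ex (comp 1 1 f)) := by
    conv_lhs => rw [Phi_apply]; rhs; rw [parity_decomp f]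
    ring
  rw [e]
  have h00 := sub_sub_ex hx1 hy1 hx hy (comp 0 0 f) (N - (0 + 0)) (comp_coeff_zero hf 0 0)
  have h10 := sub_sub_ex hx1 hy1 hx hy (comp 1 0 f) (N - (1 + 0)) (comp_coeff_zero hf 1 0)
  have h01 := sub_sub_ex hx1 hy1 hx hy (comp 0 1 f) (N - (0 + 1)) (comp_coeff_zero hf 0 1)
  have h11 := sub_sub_ex hx1 hy1 hx hy (comp 1 1 f) (N - (1 + 1)) (comp_coeff_zero hf 1 1)
  refine OrdGe.add (OrdGe.add (OrdGe.add ?_ ?_) ?_) ?_
  · exact h00.mono (by omega)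
  · exact ((ordGe_X 0).mul h10).mono (by omega)
  · exact ((ordGe_X 1).mul h01).mono (by omega)
  · exact (((ordGe_X 0).mul (ordGe_X 1)).mul h11).mono (by omega)

theorem exists_basis_repr {x y : Plane k} (hx1 : OrdGe 1 x) (hy1 : OrdGe 1 y)
    (hx : OrdGe 3 (x - X 0 ^ 2)) (hy : OrdGe 3 (y - X 1 ^ 2)) (f : Plane k) :
    ∃ a b c d : Plane k, f = sub hx1 hy1 a + X 0 * sub hx1 hy1 b + X 1 * sub hx1 hy1 c +
      X 0 * X 1 * sub hx1 hy1 d := by
  obtain ⟨g, hg⟩ := (Phi_bijective hx1 hy1 hx hy).2 f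
  exact ⟨comp 0 0 g, comp 1 0 g, comp 0 1 g, comp 1 1 g, hg.symm⟩

theorem basis_repr_unique {x y : Plane k} (hx1 : OrdGe 1 x) (hy1 : OrdGe 1 y)
    (hx : OrdGe 3 (x - X 0 ^ 2)) (hy : OrdGe 3 (y - X 1 ^ 2)) {a b c d : Plane k}
    (h : sub hx1 hy1 a + X 0 * sub hx1 hy1 b + X 1 * sub hx1 hy1 c +
      X 0 * X 1 * sub hx1 hy1 d = 0) : a = 0 ∧ b = 0 ∧ c = 0 ∧ d = 0 := by
  obtain ⟨ha, hb, hc, hd⟩ := comp_eq a b c d
  have hf : Phi hx1 hy1 (ex a + X 0 * ex b + X 1 * ex c + X 0 * X 1 * ex d) = 0 := by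
    rw [Phi_apply, ha, hb, hc, hd, h]
  have h0 := (Phi_bijective hx1 hy1 hx hy).1 (hf.trans (map_zero _).symm)
  rw [h0] at ha hb hc hd
  rw [map_zero] at ha hb hc hd
  exact ⟨ha.symm, hb.symm, hc.symm, hd.symm⟩

end Basis

end Pool.Agent.WildPlane
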