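import Mathlib

/-!
# Wild cyclic actions on the formal plane and log terminality

Definitions used in the hand-in on `MP_f6ab55_ag`.
-/

namespace Pool.Agent.WildPlane

open IsLocalRing

/-- The coordinate ring `k⟦x, y⟧` of the formal plane. -/
abbrev Plane (k : Type*) [Field k] : Type _ := MvPowerSeries (Fin 2) k

section Actions

variable {k : Type*} [Field k]

instance isDomain_plane : IsDomain (Plane k) := NoZeroDivisors.to_isDomain (Plane k)

/-- The ring of invariants of the group generated by `σ`. -/
def invariants (σ : Plane k ≃ₐ[k] Plane k) : Subalgebra k (Plane k) where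
  carrier := {f | σ f = f}
  mul_mem' := by
    intro a b (ha : σ a = a) (hb : σ b = b)
    change σ (a * b) = a * b
    rw [map_mul, ha, hb]
  add_mem' := by
    intro a b (ha : σ a = a) (hb : σ b = b)
    change σ (a + b) = a + b
    rw [map_add, ha, hb]
  algebraMap_mem' := fun r => σ.commutes r

theorem mem_invariants {σ : Plane k ≃ₐ[k] Plane k} {f : Plane k} :
    f ∈ invariants σ ↔ σ f = f := Iff.rfl

/-- `σ` generates a faithful action of `ℤ/p` on `Spec k⟦x, y⟧` whose only fixed point is the
closed point. A point `q` of the spectrum is fixed (with trivial action on its residue field)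
exactly when `σ f - f ∈ q` for all `f`. -/
structure IsWildAction (p : ℕ) (σ : Plane k ≃ₐ[k] Plane k) : Prop where
  orderOf_eq : orderOf σ = p
  fixed_point : ∀ q : Ideal (Plane k), q.IsPrime → (∀ f, σ f - f ∈ q) →
    q = maximalIdeal (Plane k)

theorem map_maximalIdeal_le (σ : Plane k ≃ₐ[k] Plane k) :
    maximalIdeal (Plane k) ≤
      Ideal.comap (σ : Plane k →ₐ[k] Plane k) (maximalIdeal (Plane k)) := by
  intro f hf
  rw [Ideal.mem_comap, mem_maximalIdeal, mem_nonunits_iff]
  rw [mem_maximalIdeal, mem_nonunits_iff] at hf
  intro h
  apply hf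
  have h2 := h.map (σ.symm : Plane k →ₐ[k] Plane k)
  simpa using h2

/-- The linear map induced by `σ` on the cotangent space `𝔪/𝔪²`. -/
noncomputable def cotangentMap (σ : Plane k ≃ₐ[k] Plane k) :
    (maximalIdeal (Plane k)).Cotangent →ₗ[k] (maximalIdeal (Plane k)).Cotangent :=
  Ideal.mapCotangent (maximalIdeal (Plane k)) (maximalIdeal (Plane k))
    (σ : Plane k →ₐ[k] Plane k) (map_maximalIdeal_le σ)

/-- The invariant `r`: the number of Jordan blocks of the (unipotent) map induced by `σ` on the
cotangent space, that is the dimension of its space of fixed vectors. -/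
noncomputable def jordanBlocks (σ : Plane k ≃ₐ[k] Plane k) : ℕ :=
  Module.finrank k (LinearMap.ker (cotangentMap σ - LinearMap.id))

/-- For a suitable choice of regular parameters `x, y`, the action of `σ` is linear
modulo `𝔪 ^ N`. -/
def IsLinearModulo (σ : Plane k ≃ₐ[k] Plane k) (N : ℕ) : Prop :=
  ∃ x y : Plane k, Ideal.span {x, y} = maximalIdeal (Plane k) ∧
    ∃ a b c d : k,
      σ x - (a • x + b • y) ∈ maximalIdeal (Plane k) ^ N ∧
      σ y - (c • x + d • y) ∈ maximalIdeal (Plane k) ^ N

/-- The invariant `n`: the largest integer such that, for a suitable choice of regular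
parameters, the action is linear modulo `𝔪 ^ (n + 2)`. -/
def IsNonlinearityIndex (σ : Plane k ≃ₐ[k] Plane k) (n : ℕ) : Prop :=
  IsGreatest {j : ℕ | IsLinearModulo σ (j + 2)} n

instance isDomain_invariants (σ : Plane k ≃ₐ[k] Plane k) : IsDomain (invariants σ) :=
  inferInstance

/-- The invariant ring is local: its non-units are the invariants lying in the maximal ideal
of `k⟦x, y⟧`. -/
instance isLocalRing_invariants (σ : Plane k ≃ₐ[k] Plane k) :
    IsLocalRing (invariants σ) := by
  have hloc : IsLocalHom ((invariants σ).val : invariants σ →+* Plane k) := by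
    constructor
    intro a ha
    obtain ⟨u, hu⟩ := ha
    have ha' : (u : Plane k) = (a : Plane k) := hu
    have hfix : σ (a : Plane k) = a := a.2
    have hinv : σ ((u⁻¹ : (Plane k)ˣ) : Plane k) = ((u⁻¹ : (Plane k)ˣ) : Plane k) := by
      have h1 : (a : Plane k) * ((u⁻¹ : (Plane k)ˣ) : Plane k) = 1 := by
        rw [← ha']; exact u.mul_inv
      have h2 : (a : Plane k) * σ ((u⁻¹ : (Plane k)ˣ) : Plane k) = 1 := by
        have := congrArg σ h1
        rw [map_mul, hfix, map_one] at this
        exact this
      have hne : (a : Plane k) ≠ 0 := by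
        rw [← ha']; exact u.ne_zero
      exact mul_left_cancel₀ hne (h2.trans h1.symm)
    refine isUnit_iff_exists_inv.mpr ⟨⟨((u⁻¹ : (Plane k)ˣ) : Plane k), hinv⟩, ?_⟩
    apply Subtype.ext
    change (a : Plane k) * ((u⁻¹ : (Plane k)ˣ) : Plane k) = 1
    rw [← ha']; exact u.mul_inv
  exact RingHom.domain_isLocalRing ((invariants σ).val : invariants σ →+* Plane k)

end Actions

section LogTerminal

section Forms

variable {k K : Type*} [Field k] [Field K] [Algebra k K]

/-- A rational vector field `D` (a `k`-derivation of the function field `K`) is regular on a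
subring `S` of `K` if it maps `S` to itself. -/
def RegularOn (S : Set K) (D : Derivation k K K) : Prop := ∀ f ∈ S, D f ∈ S

/-- The value of the rational 2-form `dx ∧ dy` on the pair of vector fields `(D₁, D₂)`. -/
def wedge (x y : K) (D₁ D₂ : Derivation k K K) : K := D₁ x * D₂ y - D₁ y * D₂ x

end Forms

variable (k : Type*) [Field k] (R : Type*) [CommRing R] [Algebra k R]
variable {K : Type*} [Field K] [Algebra k K] [Algebra R K]

/-- Let `X = Spec R` with function field `K`. The rational form `η = g (dx ∧ dy)^{⊗ m}`
generates the `m`-canonical module `ω_X^{[m]}`: a rational form `f (dx ∧ dy)^{⊗ m}` is regular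
(takes values in `R` on the vector fields that are regular on `R`) exactly when `f` is an
`R`-multiple of `g`. In particular `m K_X ∼ 0`. -/
structure IsCanonicalGenerator (x y : K) (m : ℕ) (g : K) : Prop where
  pos : 0 < m
  ne_zero : g ≠ 0
  regular_iff : ∀ f : K,
    (∀ D₁ D₂ : Derivation k K K,
      RegularOn (Set.range (algebraMap R K)) D₁ → RegularOn (Set.range (algebraMap R K)) D₂ →
        f * wedge x y D₁ D₂ ^ m ∈ Set.range (algebraMap R K)) ↔
    ∃ r : R, f = algebraMap R K r * g

/-- `O` is (the local ring of) a prime divisor `E` over `X = Spec R` with centre the closed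
point: a discrete valuation ring of the function field `K` that dominates `R` and is a
localisation of a finitely generated `R`-algebra, i.e. the local ring of a codimension one
point of a normal scheme that is birational and of finite type over `X`. -/
structure IsExceptionalDivisor [IsLocalRing R] (O : ValuationSubring K) : Prop where
  dvr : IsDiscreteValuationRing O
  contains : ∀ r : R, algebraMap R K r ∈ O
  center : ∀ r ∈ maximalIdeal R, O.valuation (algebraMap R K r) < 1
  finite_type : ∃ S : Finset K,
    (∀ b ∈ Algebra.adjoin R (S : Set K), b ∈ O) ∧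
    ∀ f ∈ O, ∃ b ∈ Algebra.adjoin R (S : Set K), ∃ c ∈ Algebra.adjoin R (S : Set K),
      O.valuation c = 1 ∧ f * c = b

variable (K)

/-- `K_X` is `ℚ`-Cartier, `X = Spec R` with function field `K`. -/
def IsQGorensteinWith : Prop :=
  ∃ (x y : K) (m : ℕ) (g : K), IsCanonicalGenerator k R x y m g

/-- `X = Spec R` (with function field `K`) is log terminal. If `η = g (dx ∧ dy)^{⊗ m}`
generates `ω_X^{[m]}`, the discrepancy `a(E, X)` of a prime divisor `E` over `X` is
`ord_E(η) / m`, where the order of `η` along `E` is the least order of its values on vector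
fields regular at the generic point of `E`. The condition `a(E, X) > -1` means that `t ^ m • η`
vanishes along `E` whenever `t` does. -/
def IsLogTerminalWith [IsLocalRing R] : Prop :=
  ∃ (x y : K) (m : ℕ) (g : K), IsCanonicalGenerator k R x y m g ∧
    ∀ O : ValuationSubring K, IsExceptionalDivisor R O →
      ∀ D₁ D₂ : Derivation k K K, RegularOn (O : Set K) D₁ → RegularOn (O : Set K) D₂ →
        ∀ t : K, O.valuation t < 1 →
          O.valuation (t ^ m * (g * wedge x y D₁ D₂ ^ m)) < 1

variable [IsDomain R]

/-- `K_X` is `ℚ`-Cartier, `X = Spec R`. -/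
def IsQGorenstein : Prop := IsQGorensteinWith k R (FractionRing R)

/-- `X = Spec R` is log terminal. -/
def IsLogTerminal [IsLocalRing R] : Prop := IsLogTerminalWith k R (FractionRing R)

end LogTerminal

end Pool.Agent.WildPlane
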