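import Pool.Agent.helper19.WildInvolution

namespace Pool.Agent.WildPlane

open IsLocalRing MvPowerSeries

section Extend

variable {k : Type*} [Field k] {R : Type*} [CommRing R] [Algebra k R]
variable (K : Type*) [Field K] [Algebra k K] [Algebra R K] [IsScalarTower k R K]
  [IsFractionRing R K]

/-- Extend a derivation of a domain to its fraction field. -/
theorem exists_extend (D : Derivation k R R) :
    ∃ D' : Derivation k K K, ∀ r : R, D' (algebraMap R K r) = algebraMap R K (D r) := by
  have : Algebra.FormallyEtale R K :=
    Algebra.FormallyEtale.of_isLocalization (nonZeroDivisors R)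
  have hbc := KaehlerDifferential.isBaseChange_of_formallyEtale k R K
  let l : Ω[R⁄k] →ₗ[R] K :=
    (Algebra.linearMap R K).comp D.liftKaehlerDifferential
  let L := hbc.lift l
  refine ⟨L.compDer (KaehlerDifferential.D k K), ?_⟩
  intro r
  have h1 : KaehlerDifferential.D k K (algebraMap R K r) =
      KaehlerDifferential.map k k R K (KaehlerDifferential.D k R r) := by
    rw [KaehlerDifferential.map_D]
  change L (KaehlerDifferential.D k K (algebraMap R K r)) = _
  rw [h1]
  have h2 := hbc.lift_eq l (KaehlerDifferential.D k R r)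
  rw [h2]
  simp [l]

end Extend

section Sigma

variable {k : Type*} [Field k]

/-- The derivation `p ∂_u + q ∂_v` of `k⟦u, v⟧`. -/
noncomputable def vf (p q : Plane k) : Derivation k (Plane k) (Plane k) :=
  p • pderiv k 0 + q • pderiv k 1

theorem vf_X0 (p q : Plane k) : vf p q (X 0) = p := by
  simp [vf]

theorem vf_X1 (p q : Plane k) : vf p q (X 1) = q := by
  simp [vf]

variable [CharP k 2] [PerfectRing k 2] {σ : Plane k ≃ₐ[k] Plane k}

/-- A vector field commutes with `σ` if it does so on the variables. -/
theorem vf_comm {D : Derivation k (Plane k) (Plane k)} (h0 : D (σ (X 0)) = σ (D (X 0)))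
    (h1 : D (σ (X 1)) = σ (D (X 1))) (f : Plane k) : D (σ f) = σ (D f) := by
  have h2 := two_eq_zero k
  let δ : Plane k →+ Plane k :=
    ((D : Plane k →+ Plane k).comp (σ : Plane k →+ Plane k)) -
      ((σ : Plane k →+ Plane k).comp (D : Plane k →+ Plane k))
  have hδ : ∀ f, δ f = D (σ f) - σ (D f) := fun f => rfl
  have hmul : ∀ f g, δ (f * g) = σ f * δ g + σ g * δ f := by
    intro f g
    rw [hδ, hδ, hδ, map_mul, D.leibniz, D.leibniz, map_add, smul_eq_mul, smul_eq_mul,
      smul_eq_mul, smul_eq_mul, map_mul, map_mul]
    ring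
  have h := eq_zero_of_sq_linear (k := k) δ (by
    intro f hf g
    have : δ (f * g ^ 2) = σ f * (σ g * δ g + σ g * δ g) + σ g * σ g * δ f := by
      rw [pow_two, hmul, hmul, map_mul]
    rw [this, hf, ← two_mul, h2]
    ring) (by rw [hδ, map_one, D.map_one_eq_zero, map_zero, sub_zero]) (by rw [hδ, h0, sub_self]) (by rw [hδ, h1, sub_self])
    (by rw [hmul, hδ, hδ, h0, h1]; simp) f
  rw [hδ, sub_eq_zero] at h
  exact h

/-- Restriction of an invariant vector field to the ring of invariants. -/
noncomputable def restrictDer (D : Derivation k (Plane k) (Plane k))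
    (h : ∀ f, D (σ f) = σ (D f)) : Derivation k (invariants σ) (invariants σ) where
  toFun f := ⟨D f, by
    rw [mem_invariants, ← h, mem_invariants.mp f.2]⟩
  map_add' f g := by
    apply Subtype.ext
    exact map_add D (f : Plane k) (g : Plane k)
  map_smul' c f := by
    apply Subtype.ext
    exact D.map_smul c (f : Plane k)
  map_one_eq_zero' := by
    apply Subtype.ext
    exact D.map_one_eq_zero
  leibniz' f g := by
    apply Subtype.ext
    exact D.leibniz (f : Plane k) (g : Plane k)

variable (K : Type*) [Field K] [Algebra k K] [Algebra (invariants σ) K]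
  [IsScalarTower k (invariants σ) K] [IsFractionRing (invariants σ) K]

/-- Invariant vector fields of the plane induce vector fields on the quotient. -/
theorem exists_field {p q : Plane k}
    (h0 : vf p q (σ (X 0)) = σ p) (h1 : vf p q (σ (X 1)) = σ q) :
    ∃ D : Derivation k K K,
      RegularOn (Set.range (algebraMap (invariants σ) K)) D ∧
      ∀ (r s : invariants σ), vf p q (r : Plane k) = s →
        D (algebraMap (invariants σ) K r) = algebraMap (invariants σ) K s := by
  have hcomm : ∀ f, vf p q (σ f) = σ (vf p q f) := vf_comm (by rw [h0, vf_X0])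
    (by rw [h1, vf_X1])
  obtain ⟨D, hD⟩ := exists_extend K (restrictDer (vf p q) hcomm)
  refine ⟨D, ?_, ?_⟩
  · rintro f ⟨r, rfl⟩
    exact ⟨restrictDer (vf p q) hcomm r, (hD r).symm⟩
  · intro r s hrs
    rw [hD]
    congr 1
    apply Subtype.ext
    exact hrs

end Sigma

end Pool.Agent.WildPlane
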