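import Pool.Agent.helper19.WildDer

namespace Pool.Agent.WildPlane

section Dlog

variable {k K : Type*} [Field k] [Field K] [Algebra k K]

/-- Logarithmic derivative. -/
noncomputable def dlog (D : Derivation k K K) (f : K) : K := D f / f

theorem dlog_mul (D : Derivation k K K) {f g : K} (hf : f ≠ 0) (hg : g ≠ 0) :
    dlog D (f * g) = dlog D f + dlog D g := by
  unfold dlog
  rw [D.leibniz, smul_eq_mul, smul_eq_mul]
  field_simp
  ring

theorem dlog_one (D : Derivation k K K) : dlog D (1 : K) = 0 := by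
  unfold dlog
  rw [D.map_one_eq_zero, zero_div]

theorem dlog_inv (D : Derivation k K K) {f : K} (hf : f ≠ 0) :
    dlog D f⁻¹ = - dlog D f := by
  have h := dlog_mul D hf (inv_ne_zero hf)
  rw [mul_inv_cancel₀ hf, dlog_one] at h
  linear_combination -h

theorem dlog_pow (D : Derivation k K K) {f : K} (hf : f ≠ 0) (n : ℕ) :
    dlog D (f ^ n) = n * dlog D f := by
  induction n with
  | zero => simp [dlog_one]
  | succ n ih =>
    rw [pow_succ, dlog_mul D (pow_ne_zero n hf) hf, ih]
    push_cast; ring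

theorem wedge_eq_dlog (D₁ D₂ : Derivation k K K) {x y : K} (hx : x ≠ 0) (hy : y ≠ 0) :
    wedge x y D₁ D₂ / (x * y) = dlog D₁ x * dlog D₂ y - dlog D₁ y * dlog D₂ x := by
  unfold wedge dlog
  field_simp

variable {O : ValuationSubring K}

theorem mem_of_lt_one {f : K} (h : O.valuation f < 1) : f ∈ O :=
  (O.valuation_le_one_iff f).mp h.le

theorem dlog_mem_of_unit {D : Derivation k K K} (hD : RegularOn (O : Set K) D) {ε : K}
    (hε : O.valuation ε = 1) : dlog D ε ∈ O := by
  unfold dlog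
  have h1 : ε ∈ O := (O.valuation_le_one_iff ε).mp hε.le
  have h2 : ε⁻¹ ∈ O := by
    rw [← O.valuation_le_one_iff, map_inv₀, hε, inv_one]
  rw [div_eq_mul_inv]
  exact O.mul_mem _ _ (hD ε h1) h2

/-- `df/f ∧ dμ` is regular along `E` as soon as `μ` vanishes along `E`. -/
theorem dlog_wedge_mem (hdvr : IsDiscreteValuationRing O) {D₁ D₂ : Derivation k K K}
    (h₁ : RegularOn (O : Set K) D₁) (h₂ : RegularOn (O : Set K) D₂) {f μ : K} (hf : f ≠ 0)
    (hμ : O.valuation μ < 1) : dlog D₁ f * D₂ μ - dlog D₂ f * D₁ μ ∈ O := by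
  obtain ⟨ϖ, hϖ⟩ := IsDiscreteValuationRing.exists_irreducible O
  have hϖ0 : (ϖ : K) ≠ 0 := by
    intro h
    exact hϖ.ne_zero (Subtype.ext h)
  -- reduction to integral `f`
  have main : ∀ g : K, g ≠ 0 → g ∈ O → dlog D₁ g * D₂ μ - dlog D₂ g * D₁ μ ∈ O := by
    intro g hg hgO
    have hg' : (⟨g, hgO⟩ : O) ≠ 0 := fun h => hg (congrArg Subtype.val h)
    obtain ⟨n, u, hu⟩ := IsDiscreteValuationRing.eq_unit_mul_pow_irreducible hg' hϖ
    have hgu : g = (u : O) * (ϖ : K) ^ n := by
      have := congrArg Subtype.val hu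
      simpa using this
    have hu0 : ((u : O) : K) ≠ 0 := by
      intro h
      exact u.ne_zero (Subtype.ext h)
    have hvu : O.valuation ((u : O) : K) = 1 := by
      have := O.valuation_eq_one_iff (u : O)
      exact this.mp u.isUnit
    -- `μ = ϖ μ'`
    have hμO : μ ∈ O := mem_of_lt_one hμ
    have hμm : (⟨μ, hμO⟩ : O) ∈ IsLocalRing.maximalIdeal O :=
      (O.valuation_lt_one_iff ⟨μ, hμO⟩).mpr hμ
    rw [hϖ.maximalIdeal_eq, Ideal.mem_span_singleton] at hμm
    obtain ⟨μ', hμ'⟩ := hμm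
    have hμeq : μ = (ϖ : K) * (μ' : K) := by
      have := congrArg Subtype.val hμ'
      simpa using this
    have hD : ∀ D : Derivation k K K, dlog D g = dlog D ((u : O) : K) + n * dlog D (ϖ : K) := by
      intro D
      rw [hgu, dlog_mul D hu0 (pow_ne_zero n hϖ0), dlog_pow D hϖ0]
    have hDμ : ∀ D : Derivation k K K, D μ = (ϖ : K) * D μ' + (μ' : K) * D ϖ := by
      intro D
      rw [hμeq, D.leibniz, smul_eq_mul, smul_eq_mul]
    have e : dlog D₁ g * D₂ μ - dlog D₂ g * D₁ μ =
        (dlog D₁ ((u : O) : K) * D₂ μ - dlog D₂ ((u : O) : K) * D₁ μ) +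
        (n : K) * (D₁ ϖ * D₂ μ' - D₂ ϖ * D₁ μ') := by
      rw [hD D₁, hD D₂, hDμ D₁, hDμ D₂]
      unfold dlog
      field_simp
      ring
    rw [e]
    have hreg : ∀ (D : Derivation k K K), RegularOn (O : Set K) D → ∀ z : O, D (z : K) ∈ O :=
      fun D hD z => hD z z.2
    refine O.add_mem _ _ (sub_mem (O.mul_mem _ _ (dlog_mem_of_unit h₁ hvu) (h₂ μ hμO))
      (O.mul_mem _ _ (dlog_mem_of_unit h₂ hvu) (h₁ μ hμO))) ?_
    refine O.mul_mem _ _ (natCast_mem O n) ?_
    exact sub_mem (O.mul_mem _ _ (hreg D₁ h₁ ϖ) (hreg D₂ h₂ μ'))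
      (O.mul_mem _ _ (hreg D₂ h₂ ϖ) (hreg D₁ h₁ μ'))
  rcases O.mem_or_inv_mem f with hfO | hfO
  · exact main f hf hfO
  · have h := main f⁻¹ (inv_ne_zero hf) hfO
    rw [dlog_inv D₁ hf, dlog_inv D₂ hf] at h
    have e : dlog D₁ f * D₂ μ - dlog D₂ f * D₁ μ = -(-dlog D₁ f * D₂ μ - -dlog D₂ f * D₁ μ) := by
      ring
    rw [e]
    exact O.neg_mem _ h

theorem one_add_valuation {μ : K} (hμ : O.valuation μ < 1) : O.valuation (1 + μ) = 1 := by
  have : O.valuation (1 + μ) = O.valuation (1 : K) := by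
    apply Valuation.map_add_eq_of_lt_left
    rwa [map_one]
  rw [this, map_one]

/-- Two valuations' comparison for the 2-form `dx/x ∧ dy/y` on the singularity of type
`D₄¹`. -/
theorem wedge_div_mem (h2 : (2 : K) = 0) (hdvr : IsDiscreteValuationRing O)
    {D₁ D₂ : Derivation k K K}
    (h₁ : RegularOn (O : Set K) D₁) (h₂ : RegularOn (O : Set K) D₂) {x y ζ : K}
    (hx0 : x ≠ 0) (hy0 : y ≠ 0) (hx : O.valuation x < 1) (hy : O.valuation y < 1)
    (hζ : ζ ^ 2 + ζ = 1 / x + 1 / y) : wedge x y D₁ D₂ / (x * y) ∈ O := by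
  -- the three basic cases
  have caseA : ∀ {a b g μ : K}, a ≠ 0 → g ≠ 0 → O.valuation μ < 1 → b = g ^ 2 * (1 + μ) →
      dlog D₁ a * dlog D₂ b - dlog D₁ b * dlog D₂ a ∈ O := by
    intro a b g μ ha hg hμ hb
    have hμ1 := one_add_valuation hμ
    have hμ0 : 1 + μ ≠ 0 := by
      intro h; rw [h, map_zero] at hμ1; exact zero_ne_one hμ1
    have hDb : ∀ D : Derivation k K K, dlog D b = D μ / (1 + μ) := by
      intro D
      rw [hb, dlog_mul D (pow_ne_zero 2 hg) hμ0, dlog_pow D hg]
      unfold dlog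
      rw [map_add, D.map_one_eq_zero, zero_add]
      push_cast
      rw [h2, zero_mul, zero_add]
    rw [hDb, hDb]
    have e : dlog D₁ a * (D₂ μ / (1 + μ)) - D₁ μ / (1 + μ) * dlog D₂ a =
        (dlog D₁ a * D₂ μ - dlog D₂ a * D₁ μ) * (1 + μ)⁻¹ := by
      field_simp
    rw [e]
    refine O.mul_mem _ _ (dlog_wedge_mem hdvr h₁ h₂ ha hμ) ?_
    rw [← O.valuation_le_one_iff, map_inv₀, hμ1, inv_one]
  have hvx0 : O.valuation x ≠ 0 := (O.valuation.ne_zero_iff).mpr hx0
  have hvy0 : O.valuation y ≠ 0 := (O.valuation.ne_zero_iff).mpr hy0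
  have hneg : ∀ a : K, -a = a := by
    intro a
    have : a + a = 0 := by rw [← two_mul, h2, zero_mul]
    exact neg_eq_of_add_eq_zero_left this
  -- analysis of the Artin-Schreier equation when one valuation is smaller
  have key : ∀ {a b : K}, a ≠ 0 → b ≠ 0 → O.valuation b < 1 → O.valuation b < O.valuation a →
      ζ ^ 2 + ζ = 1 / a + 1 / b → ∃ g μ : K, g ≠ 0 ∧ O.valuation μ < 1 ∧
        b = g ^ 2 * (1 + μ) := by
    intro a b ha hb hvb hab hz
    have hva0 : O.valuation a ≠ 0 := (O.valuation.ne_zero_iff).mpr ha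
    have hvb0 : O.valuation b ≠ 0 := (O.valuation.ne_zero_iff).mpr hb
    have hba : O.valuation (b / a) < 1 := by
      rw [map_div₀]
      exact (div_lt_one₀ (zero_lt_iff.mpr hva0)).mpr hab
    have hz' : b * ζ ^ 2 + b * ζ = 1 + b / a := by
      have : b * (ζ ^ 2 + ζ) = b * (1 / a + 1 / b) := by rw [hz]
      field_simp at this ⊢
      linear_combination this
    have hone := one_add_valuation hba
    have hbζ : O.valuation (b * ζ) < 1 := by
      by_contra hcon
      rw [not_lt] at hcon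
      have hζ1 : 1 < O.valuation ζ := by
        by_contra hc
        rw [not_lt] at hc
        have : O.valuation (b * ζ) < 1 := by
          rw [map_mul]
          exact mul_lt_one_of_lt_of_le hvb hc
        exact absurd hcon (not_le.mpr this)
      have hbz0 : 0 < O.valuation (b * ζ) := lt_of_lt_of_le zero_lt_one hcon
      have hlt : O.valuation (b * ζ) < O.valuation (b * ζ ^ 2) := by
        have : b * ζ ^ 2 = (b * ζ) * ζ := by ring
        rw [this, map_mul (O.valuation) (b * ζ) ζ]
        exact lt_mul_of_one_lt_right hbz0 hζ1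
      have hs := Valuation.map_add_eq_of_lt_left O.valuation hlt
      rw [hz', hone] at hs
      rw [← hs] at hlt
      exact absurd hcon (not_le.mpr hlt)
    have hζ0 : ζ ≠ 0 := by
      intro h
      rw [h] at hz'
      simp only [ne_eq, OfNat.ofNat_ne_zero, not_false_eq_true, zero_pow, mul_zero,
        add_zero] at hz'
      rw [← hz', map_zero] at hone
      exact zero_ne_one hone
    refine ⟨ζ⁻¹, b * ζ ^ 2 - 1, inv_ne_zero hζ0, ?_, ?_⟩
    · have e : b * ζ ^ 2 - 1 = b / a - b * ζ := by linear_combination hz'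
      rw [e]
      exact Valuation.map_sub_lt _ hba hbζ
    · field_simp
      ring
  rw [wedge_eq_dlog D₁ D₂ hx0 hy0]
  rcases lt_trichotomy (O.valuation y) (O.valuation x) with h | h | h
  · obtain ⟨g, μ, hg, hμ, hb⟩ := key hx0 hy0 hy h hζ
    exact caseA hx0 hg hμ hb
  · -- equal valuations
    have hxy : O.valuation (x + y) ≤ O.valuation x := by
      refine (Valuation.map_add _ _ _).trans ?_
      rw [h, max_self]
    rcases lt_or_eq_of_le hxy with hlt | heq
    · -- `y = x (1 + μ)`
      have hμ : O.valuation ((x + y) / x) < 1 := by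
        rw [map_div₀]
        exact (div_lt_one₀ (zero_lt_iff.mpr hvx0)).mpr hlt
      have hμ1 := one_add_valuation hμ
      have hμ0 : 1 + (x + y) / x ≠ 0 := by
        intro h; rw [h, map_zero] at hμ1; exact zero_ne_one hμ1
      have hy' : y = x * (1 + (x + y) / x) := by
        field_simp
        linear_combination (-x) * h2
      have hDy : ∀ D : Derivation k K K, dlog D y = dlog D x + dlog D (1 + (x + y) / x) := by
        intro D
        conv_lhs => rw [hy']
        exact dlog_mul D hx0 hμ0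
      have := caseA (a := x) (b := 1 + (x + y) / x) (g := 1) hx0 one_ne_zero hμ (by ring)
      rw [hDy D₁, hDy D₂]
      have e : dlog D₁ x * (dlog D₂ x + dlog D₂ (1 + (x + y) / x)) -
          (dlog D₁ x + dlog D₁ (1 + (x + y) / x)) * dlog D₂ x =
          dlog D₁ x * dlog D₂ (1 + (x + y) / x) - dlog D₁ (1 + (x + y) / x) * dlog D₂ x := by
        ring
      rw [e]
      exact this
    · -- `x` and `y` are unit multiples of squares
      have hz' : ζ ^ 2 + ζ = (x + y) / (x * y) := by
        rw [hζ]; field_simp; ring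
      have hval : O.valuation (ζ ^ 2 + ζ) = (O.valuation x)⁻¹ := by
        rw [hz', map_div₀, map_mul, heq, h]
        field_simp
      have hbig : 1 < O.valuation (ζ ^ 2 + ζ) := by
        rw [hval]
        exact (one_lt_inv₀ (zero_lt_iff.mpr hvx0)).mpr hx
      have hζ1 : 1 < O.valuation ζ := by
        by_contra hc
        rw [not_lt] at hc
        have : O.valuation (ζ ^ 2 + ζ) ≤ 1 := by
          refine (Valuation.map_add_le _ ?_ hc)
          rw [map_pow]
          exact pow_le_one₀ zero_le hc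
        exact absurd hbig (not_lt.mpr this)
      have hlt : O.valuation ζ < O.valuation (ζ ^ 2) := by
        rw [pow_two, map_mul]
        exact lt_mul_of_one_lt_right (lt_trans zero_lt_one hζ1) hζ1
      have hs := Valuation.map_add_eq_of_lt_left O.valuation hlt
      rw [hval] at hs
      have hζ0 : ζ ≠ 0 := by
        intro h0; rw [h0, map_zero] at hζ1
        exact absurd hζ1 (not_lt.mpr zero_le_one)
      have hux : O.valuation (x * ζ ^ 2) = 1 := by
        rw [map_mul, ← hs, mul_inv_cancel₀ hvx0]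
      have huy : O.valuation (y * ζ ^ 2) = 1 := by
        rw [map_mul, ← hs, h, mul_inv_cancel₀ hvx0]
      have hdl : ∀ (D : Derivation k K K) {a : K}, a ≠ 0 →
          dlog D (a * ζ ^ 2) = dlog D a := by
        intro D a ha
        rw [dlog_mul D ha (pow_ne_zero 2 hζ0), dlog_pow D hζ0]
        push_cast
        rw [h2, zero_mul, add_zero]
      rw [← hdl D₁ hx0, ← hdl D₂ hx0, ← hdl D₁ hy0, ← hdl D₂ hy0]
      exact sub_mem (O.mul_mem _ _ (dlog_mem_of_unit h₁ hux) (dlog_mem_of_unit h₂ huy))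
        (O.mul_mem _ _ (dlog_mem_of_unit h₁ huy) (dlog_mem_of_unit h₂ hux))
  · have hζ' : ζ ^ 2 + ζ = 1 / y + 1 / x := by rw [hζ, add_comm]
    obtain ⟨g, μ, hg, hμ, hb⟩ := key hy0 hx0 hx h hζ'
    have := caseA (a := y) (b := x) hy0 hg hμ hb
    have e : dlog D₁ x * dlog D₂ y - dlog D₁ y * dlog D₂ x =
        -(dlog D₁ y * dlog D₂ x - dlog D₁ x * dlog D₂ y) := by ring
    rw [e]
    exact O.neg_mem _ this

end Dlog

end Pool.Agent.WildPlane
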