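import Pool.Agent.helper19.WildBasis

namespace Pool.Agent.WildPlane

open IsLocalRing MvPowerSeries

section Powers

variable {k : Type*} [Field k]

theorem coeff_X_mul_add (i : Fin 2) (g : Plane k) (d : Fin 2 →₀ ℕ) :
    coeff (d + Finsupp.single i 1) (X i * g) = coeff d g := by
  rw [X_def, coeff_monomial_mul, if_pos (self_le_add_left _ _), one_mul, add_tsub_cancel_right]

theorem coeff_X_mul_zero (i : Fin 2) (g : Plane k) (d : Fin 2 →₀ ℕ) (h : d i = 0) :
    coeff d (X i * g) = 0 := by
  rw [X_def, coeff_monomial_mul, if_neg]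
  intro hle
  have := hle i
  rw [h, Finsupp.single_eq_same] at this
  omega

/-- A series of positive order is a combination of the variables, with control of the orders. -/
theorem exists_decomp_of_ordGe {N : ℕ} {f : Plane k} (hf : OrdGe (N + 1) f) :
    ∃ f0 f1 : Plane k, OrdGe N f0 ∧ OrdGe N f1 ∧ f = X 0 * f0 + X 1 * f1 := by
  let f1 : Plane k := fun d => coeff (d + Finsupp.single 1 1) f
  have hf1 : ∀ d, coeff d f1 = coeff (d + Finsupp.single 1 1) f := fun d => rfl
  have hrest : ∀ d : Fin 2 →₀ ℕ, 1 ≤ d 1 → coeff d (f - X 1 * f1) = 0 := by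
    intro d hd
    have hd' : d = (d - Finsupp.single 1 1) + Finsupp.single 1 1 := by
      rw [tsub_add_cancel_of_le]
      rw [Finsupp.single_le_iff]; exact hd
    rw [map_sub, hd', coeff_X_mul_add, hf1, sub_self]
  have hrest2 : ∀ d : Fin 2 →₀ ℕ, d 1 = 0 → coeff d (f - X 1 * f1) = coeff d f := by
    intro d hd
    rw [map_sub, coeff_X_mul_zero 1 f1 d hd, sub_zero]
  have hdvd : X 0 ∣ f - X 1 * f1 := by
    rw [MvPowerSeries.X_dvd_iff]
    intro d hd
    by_cases h1 : d 1 = 0
    · rw [hrest2 d h1]
      apply hf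
      rw [degree_eq, hd, h1]
      omega
    · exact hrest d (Nat.one_le_iff_ne_zero.mpr h1)
  obtain ⟨f0, hf0⟩ := hdvd
  refine ⟨f0, f1, ?_, ?_, ?_⟩
  · intro d hd
    rw [← coeff_X_mul_add 0 f0 d, ← hf0]
    by_cases h1 : d 1 = 0
    · rw [hrest2]
      · apply hf
        rw [map_add, Finsupp.degree_single]
        omega
      · simp [h1]
    · apply hrest
      simpa using Nat.one_le_iff_ne_zero.mpr h1
  · intro d hd
    rw [hf1]
    apply hf
    rw [map_add, Finsupp.degree_single]
    omega
  · rw [← hf0]; ring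

theorem X_mem (i : Fin 2) : (X i : Plane k) ∈ maximalIdeal (Plane k) := by
  rw [mem_maximalIdeal_iff]; simp

theorem mem_pow_iff {N : ℕ} {f : Plane k} :
    f ∈ maximalIdeal (Plane k) ^ N ↔ OrdGe N f := by
  refine ⟨ordGe_pow_of_mem, ?_⟩
  induction N generalizing f with
  | zero => intro _; simp
  | succ n ih =>
    intro h
    obtain ⟨f0, f1, h0, h1, rfl⟩ := exists_decomp_of_ordGe h
    rw [pow_succ']
    exact Ideal.add_mem _ (Ideal.mul_mem_mul (X_mem 0) (ih h0))
      (Ideal.mul_mem_mul (X_mem 1) (ih h1))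

theorem mem_maximalIdeal_iff_ordGe {f : Plane k} :
    f ∈ maximalIdeal (Plane k) ↔ OrdGe 1 f := by
  rw [mem_maximalIdeal_iff, ordGe_one_iff]

theorem span_X : Ideal.span {(X 0 : Plane k), X 1} = maximalIdeal (Plane k) := by
  apply le_antisymm
  · rw [Ideal.span_le]
    rintro f (rfl | rfl)
    · exact X_mem 0
    · exact X_mem 1
  · intro f hf
    obtain ⟨f0, f1, -, -, rfl⟩ := exists_decomp_of_ordGe (N := 0)
      (mem_maximalIdeal_iff_ordGe.mp hf)
    rw [Ideal.mem_span_pair]
    exact ⟨f0, f1, by ring⟩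

theorem exists_const_add (f : Plane k) : ∃ (c : k) (g : Plane k), OrdGe 1 g ∧ f = C c + g := by
  refine ⟨constantCoeff f, f - C (constantCoeff f), ?_, by ring⟩
  rw [ordGe_one_iff]; simp

/-- Linear coefficients. -/
noncomputable def lin (i : Fin 2) (f : Plane k) : k := coeff (Finsupp.single i 1) f

theorem lin_add (i : Fin 2) (f g : Plane k) : lin i (f + g) = lin i f + lin i g := map_add _ _ _
theorem lin_sub (i : Fin 2) (f g : Plane k) : lin i (f - g) = lin i f - lin i g := map_sub _ _ _
theorem lin_smul (i : Fin 2) (c : k) (f : Plane k) : lin i (c • f) = c * lin i f := by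
  simp [lin]

theorem lin_of_ordGe {f : Plane k} (h : OrdGe 2 f) (i : Fin 2) : lin i f = 0 :=
  h _ (by rw [Finsupp.degree_single]; norm_num)

theorem lin_mul (i : Fin 2) (f : Plane k) {g : Plane k} (hg : OrdGe 1 g) :
    lin i (f * g) = constantCoeff f * lin i g := by
  obtain ⟨c, h, hh, rfl⟩ := exists_const_add f
  have h0 : constantCoeff h = 0 := ordGe_one_iff.mp hh
  rw [add_mul, lin_add, lin_of_ordGe (hh.mul hg), add_zero, map_add, h0, add_zero,
    constantCoeff_C, ← smul_eq_C_mul, lin_smul]

theorem lin_X (i j : Fin 2) : lin i (X j : Plane k) = if i = j then 1 else 0 := by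
  rw [lin, coeff_X]
  simp [Finsupp.single_left_inj, eq_comm]

theorem ordGe_two_of_lin {f : Plane k} (h : OrdGe 1 f) (h0 : lin 0 f = 0) (h1 : lin 1 f = 0) :
    OrdGe 2 f := by
  intro d hd
  rw [degree_eq] at hd
  have hd2 : d.degree = 0 ∨ d = Finsupp.single 0 1 ∨ d = Finsupp.single 1 1 := by
    rw [degree_eq]
    by_cases a : d 0 = 0
    · by_cases b : d 1 = 0
      · left; omega
      · right; right; ext i; fin_cases i
        · simp [a]
        · simp; omega
    · right; left; ext i; fin_cases i
      · simp; omega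
      · simp; omega
  rcases hd2 with hd2 | rfl | rfl
  · exact h d (by omega)
  · exact h0
  · exact h1

end Powers

section Aut

variable {k : Type*} [Field k]

theorem sub_sub_self {x y x' y' : Plane k} (hx : OrdGe 1 x) (hy : OrdGe 1 y)
    (hx' : OrdGe 1 x') (hy' : OrdGe 1 y') (h0 : sub hx hy x' = X 0) (h1 : sub hx hy y' = X 1)
    (f : Plane k) : sub hx hy (sub hx' hy' f) = f := by
  have e : (fun s => substAlgHom (R := k) (hasSubst_pair hx hy) (![x', y'] s)) =
      (MvPowerSeries.X : Fin 2 → Plane k) := by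
    funext s
    fin_cases s
    · exact h0
    · exact h1
  have e' : (fun s => subst (R := k) ![x, y] (![x', y'] s)) =
      (MvPowerSeries.X : Fin 2 → Plane k) := by
    rw [← e]; funext s; rw [substAlgHom_apply]
  rw [sub, sub, substAlgHom_apply, substAlgHom_apply,
    subst_comp_subst_apply (hasSubst_pair hx' hy') (hasSubst_pair hx hy), e', subst_self]
  rfl

/-- In characteristic 2 a substitution `u ↦ u + a, v ↦ v + b` with `a, b` invariant is an
involution. -/
theorem exists_involution [CharP k 2] {a b : Plane k} (ha : OrdGe 1 (X 0 + a))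
    (hb : OrdGe 1 (X 1 + b)) (hσa : sub ha hb a = a) (hσb : sub ha hb b = b) :
    ∃ σ : Plane k ≃ₐ[k] Plane k, σ (X 0) = X 0 + a ∧ σ (X 1) = X 1 + b ∧
      (∀ f, σ f = sub ha hb f) ∧ (∀ f, σ (σ f) = f) := by
  have h2 : ∀ f : Plane k, f + f = 0 := fun f => by
    rw [← two_mul]
    have : (2 : Plane k) = C (2 : k) := (map_ofNat (C : k →+* Plane k) 2).symm
    rw [this]
    have : (2 : k) = 0 := by exact_mod_cast CharP.cast_eq_zero k 2
    rw [this]; simp
  have hinv : ∀ f, sub ha hb (sub ha hb f) = f := by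
    intro f
    apply sub_sub_self
    · rw [map_add, sub_X0, hσa, add_assoc, h2, add_zero]
    · rw [map_add, sub_X1, hσb, add_assoc, h2, add_zero]
  let σ : Plane k ≃ₐ[k] Plane k := AlgEquiv.ofAlgHom (sub ha hb) (sub ha hb)
    (AlgHom.ext hinv) (AlgHom.ext hinv)
  refine ⟨σ, ?_, ?_, fun f => rfl, hinv⟩
  · exact sub_X0 ha hb
  · exact sub_X1 ha hb

theorem two_eq_zero (k : Type*) [Field k] [CharP k 2] : (2 : Plane k) = 0 := by
  have h : (2 : Plane k) = C (2 : k) := (map_ofNat (C : k →+* Plane k) 2).symm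
  have h' : (2 : k) = 0 := by exact_mod_cast CharP.cast_eq_zero k 2
  rw [h, h']; simp

variable {σ : Plane k ≃ₐ[k] Plane k}

theorem sigma_ordGe_one {f : Plane k} (hf : OrdGe 1 f) : OrdGe 1 (σ f) :=
  mem_maximalIdeal_iff_ordGe.mp (map_maximalIdeal_le σ (mem_maximalIdeal_iff_ordGe.mpr hf))

/-- If `σ` moves the variables by elements of order `≥ 2`, it moves everything so. -/
theorem sigma_sub_ordGe_two (h0 : OrdGe 2 (σ (X 0) - X 0)) (h1 : OrdGe 2 (σ (X 1) - X 1))
    (f : Plane k) : OrdGe 2 (σ f - f) := by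
  have key : ∀ f : Plane k, OrdGe 1 (σ f - f) := by
    intro f
    obtain ⟨c, g, hg, rfl⟩ := exists_const_add f
    have : σ (C c + g) - (C c + g) = σ g - g := by
      have hc : σ (C c) = C c := σ.commutes c
      rw [map_add, hc]; ring
    rw [this]
    exact (sigma_ordGe_one hg).sub hg
  obtain ⟨c, g, hg, rfl⟩ := exists_const_add f
  have : σ (C c + g) - (C c + g) = σ g - g := by
    have hc : σ (C c) = C c := σ.commutes c
    rw [map_add, hc]; ring
  rw [this]
  obtain ⟨g0, g1, -, -, rfl⟩ := exists_decomp_of_ordGe (N := 0) hg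
  have e : σ (X 0 * g0 + X 1 * g1) - (X 0 * g0 + X 1 * g1) =
      (σ (X 0) - X 0) * σ g0 + X 0 * (σ g0 - g0) + ((σ (X 1) - X 1) * σ g1 +
        X 1 * (σ g1 - g1)) := by
    rw [map_add, map_mul, map_mul]; ring
  rw [e]
  exact ((h0.mul_right _).add ((ordGe_X 0).mul (key g0))).add
    ((h1.mul_right _).add ((ordGe_X 1).mul (key g1)))

/-- The nonlinearity index is zero as soon as the action is trivial modulo `𝔪²` but not
modulo `𝔪³`. -/
theorem nonlinearityIndex_zero (h0 : OrdGe 2 (σ (X 0) - X 0)) (h1 : OrdGe 2 (σ (X 1) - X 1))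
    (hne : ¬ (OrdGe 3 (σ (X 0) - X 0) ∧ OrdGe 3 (σ (X 1) - X 1))) :
    IsNonlinearityIndex σ 0 := by
  constructor
  · refine ⟨X 0, X 1, span_X, 1, 0, 0, 1, ?_, ?_⟩
    · rw [zero_add, mem_pow_iff]
      simpa using h0
    · rw [zero_add, mem_pow_iff]
      simpa using h1
  · rintro j ⟨x, y, hspan, a, b, c, d, hx, hy⟩
    rw [mem_pow_iff] at hx hy
    by_contra hj
    have hj1 : 1 ≤ j := by omega
    have hx3 : OrdGe 3 (σ x - (a • x + b • y)) := hx.mono (by omega)
    have hy3 : OrdGe 3 (σ y - (c • x + d • y)) := hy.mono (by omega)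
    have hxm : OrdGe 1 x := by
      rw [← mem_maximalIdeal_iff_ordGe, ← hspan]
      exact Ideal.subset_span (by simp)
    have hym : OrdGe 1 y := by
      rw [← mem_maximalIdeal_iff_ordGe, ← hspan]
      exact Ideal.subset_span (by simp)
    have hX0 : (X 0 : Plane k) ∈ Ideal.span {x, y} := by rw [hspan]; exact X_mem 0
    have hX1 : (X 1 : Plane k) ∈ Ideal.span {x, y} := by rw [hspan]; exact X_mem 1
    rw [Ideal.mem_span_pair] at hX0 hX1
    obtain ⟨α, β, hαβ⟩ := hX0
    obtain ⟨γ, δ, hγδ⟩ := hX1
    have e1 : constantCoeff α * lin 0 x + constantCoeff β * lin 0 y = 1 := by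
      have := congrArg (lin 0) hαβ
      rw [lin_add, lin_mul 0 α hxm, lin_mul 0 β hym, lin_X] at this
      simpa using this
    have e2 : constantCoeff α * lin 1 x + constantCoeff β * lin 1 y = 0 := by
      have := congrArg (lin 1) hαβ
      rw [lin_add, lin_mul 1 α hxm, lin_mul 1 β hym, lin_X] at this
      simpa using this
    have e3 : constantCoeff γ * lin 0 x + constantCoeff δ * lin 0 y = 0 := by
      have := congrArg (lin 0) hγδ
      rw [lin_add, lin_mul 0 γ hxm, lin_mul 0 δ hym, lin_X] at this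
      simpa using this
    have e4 : constantCoeff γ * lin 1 x + constantCoeff δ * lin 1 y = 1 := by
      have := congrArg (lin 1) hγδ
      rw [lin_add, lin_mul 1 γ hxm, lin_mul 1 δ hym, lin_X] at this
      simpa using this
    have hdet : (lin 0 x * lin 1 y - lin 1 x * lin 0 y) *
        (constantCoeff α * constantCoeff δ - constantCoeff β * constantCoeff γ) = 1 := by
      linear_combination (constantCoeff γ * lin 1 x + constantCoeff δ * lin 1 y) * e1 + e4 -
        (constantCoeff γ * lin 0 x + constantCoeff δ * lin 0 y) * e2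
    have hdet0 : lin 0 x * lin 1 y - lin 1 x * lin 0 y ≠ 0 := by
      intro h; rw [h, zero_mul] at hdet; exact zero_ne_one hdet
    have hσ := sigma_sub_ordGe_two h0 h1
    have key : ∀ (z : Plane k) (p q : k), OrdGe 3 (σ z - (p • x + q • y)) →
        ∀ i, lin i z = p * lin i x + q * lin i y := by
      intro z p q hz i
      have h3 : OrdGe 2 (z - (p • x + q • y)) := by
        have : z - (p • x + q • y) = (σ z - (p • x + q • y)) - (σ z - z) := by ring
        rw [this]
        exact (hz.mono (by norm_num)).sub (hσ z)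
      have := lin_of_ordGe h3 i
      rw [lin_sub, lin_add, lin_smul, lin_smul, sub_eq_zero] at this
      exact this
    have ka := key x a b hx3
    have kc := key y c d hy3
    have ha : a = 1 := by
      have : (a - 1) * (lin 0 x * lin 1 y - lin 1 x * lin 0 y) = 0 := by
        linear_combination (-(lin 1 y)) * ka 0 + (lin 0 y) * ka 1
      rcases mul_eq_zero.mp this with h | h
      · exact sub_eq_zero.mp h
      · exact absurd h hdet0
    have hb : b = 0 := by
      have : b * (lin 0 x * lin 1 y - lin 1 x * lin 0 y) = 0 := by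
        linear_combination (lin 1 x) * ka 0 - (lin 0 x) * ka 1
      rcases mul_eq_zero.mp this with h | h
      · exact h
      · exact absurd h hdet0
    have hc : c = 0 := by
      have : c * (lin 0 x * lin 1 y - lin 1 x * lin 0 y) = 0 := by
        linear_combination (-(lin 1 y)) * kc 0 + (lin 0 y) * kc 1
      rcases mul_eq_zero.mp this with h | h
      · exact h
      · exact absurd h hdet0
    have hd : d = 1 := by
      have : (d - 1) * (lin 0 x * lin 1 y - lin 1 x * lin 0 y) = 0 := by
        linear_combination (lin 1 x) * kc 0 - (lin 0 x) * kc 1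
      rcases mul_eq_zero.mp this with h | h
      · exact sub_eq_zero.mp h
      · exact absurd h hdet0
    subst ha hb hc hd
    rw [one_smul, zero_smul, add_zero] at hx3
    rw [zero_smul, one_smul, zero_add] at hy3
    have fin : ∀ α β : Plane k, OrdGe 3 (σ (α * x + β * y) - (α * x + β * y)) := by
      intro α β
      have e : σ (α * x + β * y) - (α * x + β * y) =
          (σ α - α) * σ x + α * (σ x - x) + ((σ β - β) * σ y + β * (σ y - y)) := by
        rw [map_add, map_mul, map_mul]; ring
      rw [e]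
      exact (((hσ α).mul (sigma_ordGe_one hxm)).add (hx3.mul_left α)).add
        (((hσ β).mul (sigma_ordGe_one hym)).add (hy3.mul_left β))
    apply hne
    constructor
    · rw [← hαβ]; exact fin α β
    · rw [← hγδ]; exact fin γ δ

theorem smul_toCotangent_X (c : k) (i : Fin 2) :
    c • (maximalIdeal (Plane k)).toCotangent ⟨X i, X_mem i⟩ =
      (maximalIdeal (Plane k)).toCotangent
        ⟨c • X i, by rw [mem_maximalIdeal_iff, smul_eq_C_mul]; simp⟩ := by
  have : (⟨c • X i, by rw [mem_maximalIdeal_iff, smul_eq_C_mul]; simp⟩ :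
      maximalIdeal (Plane k)) =
      (C c : Plane k) • (⟨X i, X_mem i⟩ : maximalIdeal (Plane k)) := by
    apply Subtype.ext
    change c • (X i : Plane k) = C c * X i
    rw [smul_eq_C_mul]
  rw [this, map_smul]
  change _ = (algebraMap k (Plane k) c) • _
  rw [algebraMap_smul]

theorem finrank_cotangent :
    Module.finrank k (maximalIdeal (Plane k)).Cotangent = 2 := by
  let m := maximalIdeal (Plane k)
  let b : Fin 2 → m.Cotangent := fun i => m.toCotangent ⟨X i, X_mem i⟩
  have hcomb : ∀ c0 c1 : k, c0 • b 0 + c1 • b 1 = m.toCotangent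
      ⟨c0 • X 0 + c1 • X 1, by rw [mem_maximalIdeal_iff, smul_eq_C_mul, smul_eq_C_mul]; simp⟩ := by
    intro c0 c1
    change c0 • m.toCotangent ⟨X 0, X_mem 0⟩ + c1 • m.toCotangent ⟨X 1, X_mem 1⟩ = _
    rw [smul_toCotangent_X, smul_toCotangent_X, ← map_add]
    rfl
  have hspan : ⊤ ≤ Submodule.span k (Set.range b) := by
    intro z _
    obtain ⟨f, rfl⟩ := m.toCotangent_surjective z
    have hf1 : OrdGe 1 (f : Plane k) := mem_maximalIdeal_iff_ordGe.mp f.2
    have e : m.toCotangent f = lin 0 (f : Plane k) • b 0 + lin 1 (f : Plane k) • b 1 := by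
      rw [hcomb, Ideal.toCotangent_eq]
      change (f : Plane k) - (lin 0 (f : Plane k) • X 0 + lin 1 (f : Plane k) • X 1) ∈
        maximalIdeal (Plane k) ^ 2
      rw [mem_pow_iff]
      apply ordGe_two_of_lin
      · apply hf1.sub
        rw [ordGe_one_iff, smul_eq_C_mul, smul_eq_C_mul]; simp
      · rw [lin_sub, lin_add, lin_smul, lin_smul, lin_X, lin_X]; simp
      · rw [lin_sub, lin_add, lin_smul, lin_smul, lin_X, lin_X]; simp
    rw [e]
    exact Submodule.add_mem _
      (Submodule.smul_mem _ _ (Submodule.subset_span ⟨0, rfl⟩))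
      (Submodule.smul_mem _ _ (Submodule.subset_span ⟨1, rfl⟩))
  have hli : LinearIndependent k b := by
    rw [Fintype.linearIndependent_iff]
    intro g hg
    rw [Fin.sum_univ_two, hcomb, ← map_zero m.toCotangent, Ideal.toCotangent_eq] at hg
    change g 0 • (X 0 : Plane k) + g 1 • X 1 - 0 ∈ maximalIdeal (Plane k) ^ 2 at hg
    rw [sub_zero, mem_pow_iff] at hg
    intro i
    have h0 := lin_of_ordGe hg 0
    have h1 := lin_of_ordGe hg 1
    rw [lin_add, lin_smul, lin_smul, lin_X, lin_X] at h0 h1
    fin_cases i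
    · simpa using h0
    · simpa using h1
  have hb : Module.Basis (Fin 2) k m.Cotangent := Module.Basis.mk hli hspan
  change Module.finrank k m.Cotangent = 2
  rw [Module.finrank_eq_card_basis hb, Fintype.card_fin]

theorem jordanBlocks_eq_two (h0 : OrdGe 2 (σ (X 0) - X 0)) (h1 : OrdGe 2 (σ (X 1) - X 1)) :
    jordanBlocks σ = 2 := by
  have hid : cotangentMap σ = LinearMap.id := by
    apply LinearMap.ext
    intro z
    obtain ⟨f, rfl⟩ := (maximalIdeal (Plane k)).toCotangent_surjective z
    rw [cotangentMap, Ideal.mapCotangent_toCotangent, LinearMap.id_apply, Ideal.toCotangent_eq,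
      mem_pow_iff]
    exact sigma_sub_ordGe_two h0 h1 _
  rw [jordanBlocks, hid, sub_self, LinearMap.ker_zero, finrank_top, finrank_cotangent]

/-- Criterion for a wild action of order two. -/
theorem isWildAction_two {a b : Plane k} (h0 : σ (X 0) = X 0 + a) (h1 : σ (X 1) = X 1 + b)
    (hinv : ∀ f, σ (σ f) = f) (hne : a ≠ 0)
    (hrad : ∀ q : Ideal (Plane k), q.IsPrime → a ∈ q → b ∈ q →
      (X 0 : Plane k) ∈ q ∧ (X 1 : Plane k) ∈ q) :
    IsWildAction 2 σ := by
  constructor
  · apply orderOf_eq_prime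
    · apply AlgEquiv.ext
      intro f
      exact hinv f
    · intro h
      apply hne
      have := congrArg (fun τ : Plane k ≃ₐ[k] Plane k => τ (X 0)) h
      simp only [AlgEquiv.one_apply] at this
      rw [h0] at this
      exact add_eq_left.mp this
  · intro q hq hfix
    have ha : a ∈ q := by
      have := hfix (X 0)
      rwa [h0, add_sub_cancel_left] at this
    have hb : b ∈ q := by
      have := hfix (X 1)
      rwa [h1, add_sub_cancel_left] at this
    obtain ⟨hX0, hX1⟩ := hrad q hq ha hb
    have hle : maximalIdeal (Plane k) ≤ q := by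
      rw [← span_X, Ideal.span_le]
      rintro f (rfl | rfl)
      · exact hX0
      · exact hX1
    exact ((maximalIdeal.isMaximal (Plane k)).eq_of_le hq.ne_top hle).symm

end Aut

end Pool.Agent.WildPlane
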