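import Pool.Agent.helper19.WildTwoD

namespace Pool.Agent.WildPlane

open IsLocalRing MvPowerSeries

section Iota

variable {k : Type*} [Field k]

/-- Target of the monomial valuation with weights `(1, 2)`. -/
abbrev WRing (k : Type*) [Field k] : Type _ := PowerSeries (RatFunc k)

/-- The images of the variables: `T` and `s T²`. -/
noncomputable def aT (k : Type*) [Field k] : Fin 2 → MvPowerSeries Unit (RatFunc k) :=
  ![(PowerSeries.X : PowerSeries (RatFunc k)),
    (PowerSeries.C (RatFunc.X : RatFunc k) * PowerSeries.X ^ 2 : PowerSeries (RatFunc k))]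

theorem hasSubst_aT : HasSubst (aT k) := by
  apply hasSubst_of_constantCoeff_zero
  intro i
  fin_cases i
  · change PowerSeries.constantCoeff (PowerSeries.X : PowerSeries (RatFunc k)) = 0
    simp
  · change PowerSeries.constantCoeff (PowerSeries.C (RatFunc.X : RatFunc k) * PowerSeries.X ^ 2 :
      PowerSeries (RatFunc k)) = 0
    simp

/-- The embedding `u ↦ T, v ↦ s T²`. -/
noncomputable def iota (k : Type*) [Field k] : Plane k →ₐ[k] WRing k := substAlgHom hasSubst_aT

theorem iota_X0 : iota k (X 0) = PowerSeries.X := by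
  rw [iota, substAlgHom_X]; rfl

theorem iota_X1 : iota k (X 1) = PowerSeries.C (RatFunc.X : RatFunc k) * PowerSeries.X ^ 2 := by
  rw [iota, substAlgHom_X]; rfl

theorem coeff_iota (f : Plane k) (N : ℕ) :
    PowerSeries.coeff N (iota k f) =
      ∑ j ∈ Finset.range (N / 2 + 1),
        algebraMap k (RatFunc k) (coeff (par (N - 2 * j) j) f) * RatFunc.X ^ j := by
  classical
  have hterm : ∀ d : Fin 2 →₀ ℕ, MvPowerSeries.coeff (Finsupp.single () N)
      (d.prod fun s e => (aT k s) ^ e) = if N = d 0 + 2 * d 1 then (RatFunc.X : RatFunc k) ^ (d 1)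
        else 0 := by
    intro d
    rw [Finsupp.prod_fintype _ _ (fun _ => pow_zero _), Fin.prod_univ_two]
    change PowerSeries.coeff N ((PowerSeries.X : PowerSeries (RatFunc k)) ^ d 0 *
      (PowerSeries.C (RatFunc.X : RatFunc k) * PowerSeries.X ^ 2) ^ d 1) = _
    have e : (PowerSeries.X : PowerSeries (RatFunc k)) ^ d 0 *
      (PowerSeries.C (RatFunc.X : RatFunc k) * PowerSeries.X ^ 2) ^ d 1 =
      PowerSeries.C ((RatFunc.X : RatFunc k) ^ d 1) * PowerSeries.X ^ (d 0 + 2 * d 1) := by
      rw [mul_pow, ← map_pow, ← pow_mul, pow_add]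
      ring
    rw [e, PowerSeries.coeff_C_mul, PowerSeries.coeff_X_pow]
    split_ifs <;> simp
  have h1 : PowerSeries.coeff N (iota k f) =
      ∑ᶠ d : Fin 2 →₀ ℕ, coeff d f • (if N = d 0 + 2 * d 1 then (RatFunc.X : RatFunc k) ^ (d 1)
        else 0) := by
    change MvPowerSeries.coeff (Finsupp.single () N) (iota k f) = _
    rw [iota, substAlgHom_apply, coeff_subst hasSubst_aT]
    exact finsum_congr (fun d => by rw [hterm])
  rw [h1, finsum_eq_sum_of_support_subset
    (s := (Finset.range (N / 2 + 1)).image (fun j => par (N - 2 * j) j))]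
  · rw [Finset.sum_image]
    · apply Finset.sum_congr rfl
      intro j hj
      rw [Finset.mem_range] at hj
      rw [par_zero, par_one, if_pos (by omega), Algebra.smul_def]
    · intro a _ b _ hab
      have := congrArg (fun d : Fin 2 →₀ ℕ => d 1) hab
      simpa using this
  · intro d hd
    rw [Function.mem_support] at hd
    have hN : N = d 0 + 2 * d 1 := by
      by_contra hcon
      rw [if_neg hcon, smul_zero] at hd
      exact hd rfl
    simp only [Finset.coe_image, Set.mem_image, Finset.mem_coe, Finset.mem_range]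
    refine ⟨d 1, by omega, ?_⟩
    conv_rhs => rw [eq_par d]
    congr 1
    omega

theorem iota_injective : Function.Injective (iota k) := by
  rw [injective_iff_map_eq_zero]
  intro f hf
  ext d
  rw [map_zero]
  have h := coeff_iota f (d 0 + 2 * d 1)
  rw [hf, map_zero] at h
  let p : Polynomial k := ∑ j ∈ Finset.range ((d 0 + 2 * d 1) / 2 + 1),
    Polynomial.C (coeff (par (d 0 + 2 * d 1 - 2 * j) j) f) * Polynomial.X ^ j
  have hp : algebraMap (Polynomial k) (RatFunc k) p = 0 := by
    rw [map_sum, h]
    apply Finset.sum_congr rfl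
    intro j _
    rw [map_mul, map_pow, RatFunc.algebraMap_X, RatFunc.algebraMap_C]
    rfl
  have hp0 : p = 0 := by
    have := IsFractionRing.injective (Polynomial k) (RatFunc k)
    exact this (hp.trans (map_zero _).symm)
  have h2 : p.coeff (d 1) = coeff d f := by
    rw [Polynomial.finsetSum_coeff, Finset.sum_eq_single (d 1)]
    · have e : d 0 + 2 * d 1 - 2 * d 1 = d 0 := by omega
      rw [Polynomial.coeff_C_mul, Polynomial.coeff_X_pow, if_pos rfl, mul_one, e, ← eq_par]
    · intro j _ hj
      rw [Polynomial.coeff_C_mul, Polynomial.coeff_X_pow, if_neg (Ne.symm hj), mul_zero]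
    · intro hd
      exfalso
      apply hd
      rw [Finset.mem_range]
      omega
  rw [← h2, hp0, Polynomial.coeff_zero]

end Iota

end Pool.Agent.WildPlane
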