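import Pool.Agent.helper19.WildPrime

namespace Pool.Agent.WildPlane

open IsLocalRing MvPowerSeries

section One

variable {k : Type*} [Field k]

/-- The power series `x` with `x = v² + v x`. -/
theorem exists_artin_one (i : Fin 2) : ∃ x : Plane k, x = X i ^ 2 + X i * x := by
  obtain ⟨x, hx⟩ := exists_fixed_point (fun f : Plane k => X i ^ 2 + X i * f) (by
    intro N f g h
    have : (X i ^ 2 + X i * f) - (X i ^ 2 + X i * g) = X i * (f - g) := by ring
    change OrdGe (N + 1) ((X i ^ 2 + X i * f) - (X i ^ 2 + X i * g))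
    rw [this, add_comm N 1]
    exact (ordGe_X i).mul h)
  exact ⟨x, hx.symm⟩

theorem artin_one_ord {i : Fin 2} {x : Plane k} (hx : x = X i ^ 2 + X i * x) :
    OrdGe 3 (x - X i ^ 2) ∧ OrdGe 2 x ∧ ¬ OrdGe 3 x ∧ coeff (Finsupp.single i 2) x = 1 := by
  have hX2 : OrdGe 2 ((X i : Plane k) ^ 2) := by
    rw [pow_two]; exact (ordGe_X i).mul (ordGe_X i)
  have h1 : OrdGe 1 x := by
    rw [hx]
    exact (hX2.mono (by norm_num)).add ((ordGe_X i).mul_right x)
  have h2 : OrdGe 2 x := by
    rw [hx]
    exact hX2.add ((ordGe_X i).mul h1)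
  have h3 : OrdGe 3 (x - X i ^ 2) := by
    have : x - X i ^ 2 = X i * x := by linear_combination hx
    rw [this]
    exact ((ordGe_X i).mul h2)
  have h4 : coeff (Finsupp.single i 2) x = 1 := by
    have := h3 (Finsupp.single i 2) (by rw [Finsupp.degree_single]; norm_num)
    rw [map_sub, coeff_single_X_pow, sub_eq_zero] at this
    exact this
  refine ⟨h3, h2, ?_, h4⟩
  intro h
  have := h (Finsupp.single i 2) (by rw [Finsupp.degree_single]; norm_num)
  rw [h4] at this
  exact one_ne_zero this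

variable [CharP k 2]

/-- The first involution: `u ↦ u + x`, `v ↦ v + y` with `x = u² + u x`, `y = v² + v y`. -/
theorem exists_sigma_one : ∃ (σ : Plane k ≃ₐ[k] Plane k) (x y : Plane k),
    x = X 0 ^ 2 + X 0 * x ∧ y = X 1 ^ 2 + X 1 * y ∧ σ (X 0) = X 0 + x ∧ σ (X 1) = X 1 + y ∧
      σ x = x ∧ σ y = y ∧ (∀ f, σ (σ f) = f) := by
  obtain ⟨x, hx⟩ := exists_artin_one (k := k) 0
  obtain ⟨y, hy⟩ := exists_artin_one (k := k) 1
  obtain ⟨-, hx2, -, -⟩ := artin_one_ord hx
  obtain ⟨-, hy2, -, -⟩ := artin_one_ord hy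
  have h2 := two_eq_zero k
  have ha : OrdGe 1 (X 0 + x) := (ordGe_X 0).add (hx2.mono (by norm_num))
  have hb : OrdGe 1 (X 1 + y) := (ordGe_X 1).add (hy2.mono (by norm_num))
  have hcontr : ∀ w : Plane k, OrdGe 1 w → ∀ (N : ℕ) (f g : Plane k), OrdGe N (f - g) →
      OrdGe (N + 1) ((fun f => w ^ 2 + w * f) f - (fun f => w ^ 2 + w * f) g) := by
    intro w hw N f g h
    have : (w ^ 2 + w * f) - (w ^ 2 + w * g) = w * (f - g) := by ring
    change OrdGe (N + 1) ((w ^ 2 + w * f) - (w ^ 2 + w * g))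
    rw [this, add_comm N 1]
    exact hw.mul h
  have hσx : sub ha hb x = x := by
    apply fixed_point_unique _ (hcontr _ ha)
    · have := congrArg (sub ha hb) hx
      rw [map_add, map_mul, map_pow, sub_X0] at this
      exact this.symm
    · linear_combination (-1 : Plane k) * hx + (X 0 * x + x ^ 2) * h2
  have hσy : sub ha hb y = y := by
    apply fixed_point_unique _ (hcontr _ hb)
    · have := congrArg (sub ha hb) hy
      rw [map_add, map_mul, map_pow, sub_X1] at this
      exact this.symm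
    · linear_combination (-1 : Plane k) * hy + (X 1 * y + y ^ 2) * h2
  obtain ⟨σ, h0, h1, hσ, hinv⟩ := exists_involution ha hb hσx hσy
  exact ⟨σ, x, y, hx, hy, h0, h1, by rw [hσ, hσx], by rw [hσ, hσy], hinv⟩

variable {σ : Plane k ≃ₐ[k] Plane k} {x y : Plane k}

omit [CharP k 2] in
theorem one_invariants (hx : x = X 0 ^ 2 + X 0 * x) (hy : y = X 1 ^ 2 + X 1 * y)
    (h0 : σ (X 0) = X 0 + x) (h1 : σ (X 1) = X 1 + y) (hinv : ∀ f, σ (σ f) = f) :
    IsWildAction 2 σ ∧ jordanBlocks σ = 2 ∧ IsNonlinearityIndex σ 0 := by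
  obtain ⟨-, hx2, hx3, -⟩ := artin_one_ord hx
  obtain ⟨-, hy2, -, -⟩ := artin_one_ord hy
  have e0 : OrdGe 2 (σ (X 0) - X 0) := by rw [h0, add_sub_cancel_left]; exact hx2
  have e1 : OrdGe 2 (σ (X 1) - X 1) := by rw [h1, add_sub_cancel_left]; exact hy2
  refine ⟨isWildAction_two h0 h1 hinv ?_ ?_, jordanBlocks_eq_two e0 e1,
    nonlinearityIndex_zero e0 e1 ?_⟩
  · intro h
    rw [h] at hx3
    exact hx3 (OrdGe.zero 3)
  · intro q hq hxq hyq
    constructor
    · have : (X 0 : Plane k) ^ 2 ∈ q := by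
        have e : (X 0 : Plane k) ^ 2 = x - X 0 * x := by linear_combination -hx
        rw [e]
        exact q.sub_mem hxq (q.mul_mem_left _ hxq)
      exact hq.mem_of_pow_mem 2 this
    · have : (X 1 : Plane k) ^ 2 ∈ q := by
        have e : (X 1 : Plane k) ^ 2 = y - X 1 * y := by linear_combination -hy
        rw [e]
        exact q.sub_mem hyq (q.mul_mem_left _ hyq)
      exact hq.mem_of_pow_mem 2 this
  · rintro ⟨h3, -⟩
    rw [h0, add_sub_cancel_left] at h3
    exact hx3 h3

omit [CharP k 2] in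
/-- Core divisibility: `x ∣ y (z + y) d` forces `x ∣ d`. -/
theorem one_dvd {i j : Fin 2} (hij : i ≠ j) {x y w d t : Plane k}
    (hx : x = X i ^ 2 + X i * x) (hy : y = X j ^ 2 + X j * y)
    (h : y * (x * w + y * X i + y) * d = x * t) : ∃ d', d = x * d' := by
  obtain ⟨-, -, -, hyc⟩ := artin_one_ord hy
  have hp := prime_X (k := k) i
  have hny : ¬ X i ∣ y := by
    apply not_X_dvd_of_coeff (Finsupp.single j 2)
    · rw [Finsupp.single_apply, if_neg (Ne.symm hij)]
    · rw [hyc]; exact one_ne_zero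
  have hxi : X i ∣ x := ⟨X i + x, by linear_combination hx⟩
  have hnz : ¬ X i ∣ (x * w + y * X i + y) := by
    intro hd
    apply hny
    have h1 : X i ∣ x * w + y * X i := dvd_add (hxi.mul_right w) (Dvd.intro_left y rfl)
    exact (dvd_add_right h1).mp hd
  have hn1 : ¬ X i ∣ (1 - X i : Plane k) := by
    intro hd
    apply hp.not_dvd_one
    have : (1 : Plane k) = (1 - X i) + X i := by ring
    rw [this]
    exact dvd_add hd dvd_rfl
  have hXx : (X i : Plane k) ^ 2 = x * (1 - X i) := by linear_combination -hx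
  have hdvd : (X i : Plane k) ^ 2 ∣ ((y * (x * w + y * X i + y)) * (1 - X i)) * d := by
    refine ⟨t, ?_⟩
    rw [hXx]
    linear_combination (1 - X i) * h
  have hn : ¬ X i ∣ (y * (x * w + y * X i + y)) * (1 - X i : Plane k) := by
    intro hd
    rcases hp.dvd_or_dvd hd with hd | hd
    · rcases hp.dvd_or_dvd hd with hd | hd
      · exact hny hd
      · exact hnz hd
    · exact hn1 hd
  have := hp.pow_dvd_of_dvd_mul_left 2 hn hdvd
  obtain ⟨s, hs⟩ := this
  exact ⟨(1 - X i) * s, by rw [hs, hXx]; ring⟩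

end One

section Alg

variable {L : Type*} [Field L]

theorem alg_one_a {f a b w : L} (ha : a ≠ 0) (hb : b ≠ 0)
    (h : w = f * (a * b - 0 * 0) ^ 1) : f = w * (1 / (a * b)) := by
  rw [h]; field_simp; ring

theorem alg_one_b {a b r a1 a2 b1 b2 : L} (ha : a ≠ 0) (hb : b ≠ 0) :
    r * (1 / (a * b)) * (a * a1 * (b * b2) - b * b1 * (a * a2)) ^ 1 =
      r * (a1 * b2 - b1 * a2) := by
  field_simp

theorem alg_one_c {a b c : L} (ha : a ≠ 0) (hb : b ≠ 0) (h2 : (2 : L) = 0)
    (h : c ^ 2 + a * b * c + a ^ 2 * b + a * b ^ 2 = 0) :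
    (c / (a * b)) ^ 2 + c / (a * b) = 1 / a + 1 / b := by
  field_simp
  linear_combination h - (a * b * (a + b)) * h2

theorem alg_one_d {t a b w : L} :
    t ^ 1 * (1 / (a * b) * w ^ 1) = t * (w / (a * b)) := by
  ring

end Alg

section OneLT

variable {k : Type*} [Field k] [CharP k 2] [PerfectRing k 2]
variable {σ : Plane k ≃ₐ[k] Plane k} {x y : Plane k}

theorem charTwo_frac (k : Type*) [Field k] [CharP k 2] (L : Type*) [Field L] [Algebra k L] :
    (2 : L) = 0 := by
  have h : (2 : L) = algebraMap k L 2 := (map_ofNat (algebraMap k L) 2).symm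
  have h' : (2 : k) = 0 := by exact_mod_cast CharP.cast_eq_zero k 2
  rw [h, h', map_zero]

variable (K : Type*) [Field K] [Algebra k K] [Algebra (invariants σ) K]
  [IsScalarTower k (invariants σ) K] [IsFractionRing (invariants σ) K]

/-- The quotient of the plane by the first involution is log terminal. -/
theorem one_logTerminal (hx : x = X 0 ^ 2 + X 0 * x) (hy : y = X 1 ^ 2 + X 1 * y)
    (h0 : σ (X 0) = X 0 + x) (h1 : σ (X 1) = X 1 + y) (hσx : σ x = x) (hσy : σ y = y) :
    IsLogTerminalWith k (invariants σ) K := by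
  have h2A := two_eq_zero k
  have h2K := charTwo_frac k K
  obtain ⟨-, hx2, hx3, hxc⟩ := artin_one_ord hx
  obtain ⟨-, hy2, hy3, hyc⟩ := artin_one_ord hy
  have hx0 : x ≠ 0 := by rintro rfl; exact hx3 (OrdGe.zero 3)
  have hy0 : y ≠ 0 := by rintro rfl; exact hy3 (OrdGe.zero 3)
  let z : Plane k := x * X 1 + y * X 0
  have hσz : σ z = z := by
    change σ (x * X 1 + y * X 0) = x * X 1 + y * X 0
    rw [map_add, map_mul, map_mul, hσx, hσy, h0, h1]
    linear_combination (x * y) * h2A
  let xR : invariants σ := ⟨x, hσx⟩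
  let yR : invariants σ := ⟨y, hσy⟩
  let zR : invariants σ := ⟨z, hσz⟩
  have hrelA : z ^ 2 + x * y * z + x ^ 2 * y + x * y ^ 2 = 0 := by
    change (x * X 1 + y * X 0) ^ 2 + x * y * (x * X 1 + y * X 0) + x ^ 2 * y + x * y ^ 2 = 0
    linear_combination (-(y ^ 2)) * hx - (x ^ 2) * hy + (x * y ^ 2 + x ^ 2 * y + x * y * X 0 * X 1) * h2A
  have hrelR : zR ^ 2 + xR * yR * zR + xR ^ 2 * yR + xR * yR ^ 2 = 0 := Subtype.ext hrelA
  have hinj : Function.Injective (algebraMap (invariants σ) K) := IsFractionRing.injective _ _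
  let xK := algebraMap (invariants σ) K xR
  let yK := algebraMap (invariants σ) K yR
  let zK := algebraMap (invariants σ) K zR
  have hxR0 : xR ≠ 0 := fun h => hx0 (congrArg Subtype.val h)
  have hyR0 : yR ≠ 0 := fun h => hy0 (congrArg Subtype.val h)
  have hxK0 : xK ≠ 0 := fun h => hxR0 (hinj (h.trans (map_zero _).symm))
  have hyK0 : yK ≠ 0 := fun h => hyR0 (hinj (h.trans (map_zero _).symm))
  have hrelK : zK ^ 2 + xK * yK * zK + xK ^ 2 * yK + xK * yK ^ 2 = 0 := by
    have := congrArg (algebraMap (invariants σ) K) hrelR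
    simpa only [map_add, map_mul, map_pow, map_zero] using this
  -- derivation of the relation
  have hder : ∀ D : Derivation k K K,
      (yK * zK + yK ^ 2) * D xK + (xK * zK + xK ^ 2) * D yK + xK * yK * D zK = 0 := by
    intro D
    have := congrArg D hrelK
    simp only [map_add, map_zero, D.leibniz, D.leibniz_pow, smul_eq_mul, nsmul_eq_mul] at this
    push_cast at this
    linear_combination this - (zK * D zK + yK * xK * D xK + xK * yK * D yK) * h2K
  -- regular vector fields are logarithmic along x = 0 and y = 0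
  have hlog : ∀ D : Derivation k K K,
      RegularOn (Set.range (algebraMap (invariants σ) K)) D →
      ∃ a b : invariants σ, D xK = xK * algebraMap (invariants σ) K a ∧ D yK = yK * algebraMap (invariants σ) K b := by
    intro D hD
    obtain ⟨d1, hd1⟩ := hD xK ⟨xR, rfl⟩
    obtain ⟨d2, hd2⟩ := hD yK ⟨yR, rfl⟩
    obtain ⟨d3, hd3⟩ := hD zK ⟨zR, rfl⟩
    have h := hder D
    rw [← hd1, ← hd2, ← hd3] at h
    have hR : (yR * zR + yR ^ 2) * d1 + (xR * zR + xR ^ 2) * d2 + xR * yR * d3 = 0 := by
      apply hinj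
      simp only [map_add, map_mul, map_pow, map_zero]
      exact h
    have hA : (y * z + y ^ 2) * (d1 : Plane k) + (x * z + x ^ 2) * (d2 : Plane k) +
        x * y * (d3 : Plane k) = 0 := congrArg Subtype.val hR
    have hA' : (y * (x * X 1 + y * X 0) + y ^ 2) * (d1 : Plane k) +
        (x * (x * X 1 + y * X 0) + x ^ 2) * (d2 : Plane k) + x * y * (d3 : Plane k) = 0 := hA
    obtain ⟨a, ha⟩ := one_dvd (i := 0) (j := 1) (by decide) hx hy (w := X 1)
      (d := (d1 : Plane k))
      (t := -((x * X 1 + y * X 0 + x) * (d2 : Plane k)) - y * (d3 : Plane k)) (by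
        linear_combination hA')
    obtain ⟨b, hb⟩ := one_dvd (i := 1) (j := 0) (by decide) hy hx (w := X 0)
      (d := (d2 : Plane k))
      (t := -((x * X 1 + y * X 0 + y) * (d1 : Plane k)) - x * (d3 : Plane k)) (by
        linear_combination hA')
    have hσa : σ a = a := invariant_of_mul hx0 d1.2 hσx ha
    have hσb : σ b = b := invariant_of_mul hy0 d2.2 hσy hb
    refine ⟨⟨a, hσa⟩, ⟨b, hσb⟩, ?_, ?_⟩
    · rw [← hd1]
      change algebraMap (invariants σ) K d1 = algebraMap (invariants σ) K xR * algebraMap (invariants σ) K ⟨a, hσa⟩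
      rw [← map_mul]
      congr 1
      exact Subtype.ext ha
    · rw [← hd2]
      change algebraMap (invariants σ) K d2 = algebraMap (invariants σ) K yR * algebraMap (invariants σ) K ⟨b, hσb⟩
      rw [← map_mul]
      congr 1
      exact Subtype.ext hb
  -- two invariant vector fields
  have hDx1 : vf (1 + X 0) 0 x = x := by
    have := congrArg (vf (1 + X 0) 0) hx
    rw [map_add, Derivation.leibniz, Derivation.leibniz_pow, vf_X0] at this
    simp only [smul_eq_mul, nsmul_eq_mul] at this
    push_cast at this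
    have h3 : (1 + X 0) * (vf (1 + X 0) 0 x - x) = 0 := by
      linear_combination this + (X 0 * vf (1 + X 0) 0 x + X 0 * (1 + X 0)) * h2A
    rcases mul_eq_zero.mp h3 with h | h
    · exfalso
      have := congrArg (constantCoeff (σ := Fin 2) (R := k)) h
      simp at this
    · exact sub_eq_zero.mp h
  have hDy1 : vf (1 + X 0) 0 y = 0 := by
    have := congrArg (vf (1 + X 0) 0) hy
    rw [map_add, Derivation.leibniz, Derivation.leibniz_pow, vf_X1] at this
    simp only [smul_eq_mul, nsmul_eq_mul, mul_zero, add_zero, zero_add] at this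
    have h3 : (1 + X 1) * vf (1 + X 0) 0 y = 0 := by
      linear_combination this + (X 1 * vf (1 + X 0) 0 y) * h2A
    rcases mul_eq_zero.mp h3 with h | h
    · exfalso
      have := congrArg (constantCoeff (σ := Fin 2) (R := k)) h
      simp at this
    · exact h
  have hDy2 : vf 0 (1 + X 1) y = y := by
    have := congrArg (vf 0 (1 + X 1)) hy
    rw [map_add, Derivation.leibniz, Derivation.leibniz_pow, vf_X1] at this
    simp only [smul_eq_mul, nsmul_eq_mul] at this
    push_cast at this
    have h3 : (1 + X 1) * (vf 0 (1 + X 1) y - y) = 0 := by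
      linear_combination this + (X 1 * vf 0 (1 + X 1) y + X 1 * (1 + X 1)) * h2A
    rcases mul_eq_zero.mp h3 with h | h
    · exfalso
      have := congrArg (constantCoeff (σ := Fin 2) (R := k)) h
      simp at this
    · exact sub_eq_zero.mp h
  have hDx2 : vf 0 (1 + X 1) x = 0 := by
    have := congrArg (vf 0 (1 + X 1)) hx
    rw [map_add, Derivation.leibniz, Derivation.leibniz_pow, vf_X0] at this
    simp only [smul_eq_mul, nsmul_eq_mul, mul_zero, add_zero, zero_add] at this
    have h3 : (1 + X 0) * vf 0 (1 + X 1) x = 0 := by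
      linear_combination this + (X 0 * vf 0 (1 + X 1) x) * h2A
    rcases mul_eq_zero.mp h3 with h | h
    · exfalso
      have := congrArg (constantCoeff (σ := Fin 2) (R := k)) h
      simp at this
    · exact h
  obtain ⟨D1, hD1reg, hD1⟩ := exists_field (σ := σ) K (p := 1 + X 0) (q := 0)
    (by rw [h0, map_add, vf_X0, hDx1, map_add, map_one, h0]; ring)
    (by rw [h1, map_add, vf_X1, hDy1, map_zero, add_zero])
  obtain ⟨D2, hD2reg, hD2⟩ := exists_field (σ := σ) K (p := 0) (q := 1 + X 1)
    (by rw [h0, map_add, vf_X0, hDx2, map_zero, add_zero])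
    (by rw [h1, map_add, vf_X1, hDy2, map_add, map_one, h1]; ring)
  have hD1x : D1 xK = xK := hD1 xR xR hDx1
  have hD1y : D1 yK = 0 := by
    have := hD1 yR 0 (by rw [show ((0 : invariants σ) : Plane k) = 0 from rfl]; exact hDy1)
    rwa [map_zero] at this
  have hD2x : D2 xK = 0 := by
    have := hD2 xR 0 (by rw [show ((0 : invariants σ) : Plane k) = 0 from rfl]; exact hDx2)
    rwa [map_zero] at this
  have hD2y : D2 yK = yK := hD2 yR yR hDy2
  have hgen : IsCanonicalGenerator k (invariants σ) xK yK 1 (1 / (xK * yK)) := by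
    refine ⟨one_pos, div_ne_zero one_ne_zero (mul_ne_zero hxK0 hyK0), ?_⟩
    intro f
    constructor
    · intro hf
      obtain ⟨r, hr⟩ := hf D1 D2 hD1reg hD2reg
      rw [wedge, hD1x, hD1y, hD2x, hD2y] at hr
      exact ⟨r, alg_one_a hxK0 hyK0 hr⟩
    · rintro ⟨r, rfl⟩ E1 E2 hE1 hE2
      obtain ⟨a1, b1, ha1, hb1⟩ := hlog E1 hE1
      obtain ⟨a2, b2, ha2, hb2⟩ := hlog E2 hE2
      refine ⟨r * (a1 * b2 - b1 * a2), ?_⟩
      rw [map_mul, map_sub, map_mul, map_mul, wedge, ha1, hb1, ha2, hb2]
      exact (alg_one_b hxK0 hyK0).symm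
  refine ⟨xK, yK, 1, 1 / (xK * yK), hgen, ?_⟩
  intro O hO E1 E2 hE1 hE2 t ht
  have hxm : xR ∈ maximalIdeal (invariants σ) := by
    rw [mem_maximalIdeal, mem_nonunits_iff]
    intro hu
    have := hu.map ((invariants σ).val : invariants σ →+* Plane k)
    rw [MvPowerSeries.isUnit_iff_constantCoeff] at this
    have h' : constantCoeff x = 0 := ordGe_one_iff.mp (hx2.mono (by norm_num))
    change IsUnit (constantCoeff x) at this
    rw [h'] at this
    exact not_isUnit_zero this
  have hym : yR ∈ maximalIdeal (invariants σ) := by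
    rw [mem_maximalIdeal, mem_nonunits_iff]
    intro hu
    have := hu.map ((invariants σ).val : invariants σ →+* Plane k)
    rw [MvPowerSeries.isUnit_iff_constantCoeff] at this
    have h' : constantCoeff y = 0 := ordGe_one_iff.mp (hy2.mono (by norm_num))
    change IsUnit (constantCoeff y) at this
    rw [h'] at this
    exact not_isUnit_zero this
  have hmem : wedge xK yK E1 E2 / (xK * yK) ∈ O := by
    apply wedge_div_mem h2K hO.dvr hE1 hE2 hxK0 hyK0 (hO.center xR hxm) (hO.center yR hym)
      (ζ := zK / (xK * yK))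
    exact alg_one_c hxK0 hyK0 h2K hrelK
  have hle := (O.valuation_le_one_iff _).mpr hmem
  rw [alg_one_d, map_mul]
  exact mul_lt_one_of_lt_of_le ht hle

end OneLT

end Pool.Agent.WildPlane
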