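import Pool.Agent.helper19.WildSeries

namespace Pool.Agent.WildPlane

open IsLocalRing MvPowerSeries

section Parity

variable {k : Type*} [Field k]

/-- The exponent `(i, j)`. -/
noncomputable def par (i j : ℕ) : Fin 2 →₀ ℕ := Finsupp.single 0 i + Finsupp.single 1 j

@[simp] theorem par_zero (i j : ℕ) : par i j 0 = i := by simp [par]
@[simp] theorem par_one (i j : ℕ) : par i j 1 = j := by simp [par]

theorem degree_par (i j : ℕ) : (par i j).degree = i + j := by
  simp [par, Finsupp.degree_eq_sum]

theorem degree_eq (d : Fin 2 →₀ ℕ) : d.degree = d 0 + d 1 := by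
  rw [Finsupp.degree_eq_sum, Fin.sum_univ_two]

theorem eq_par (d : Fin 2 →₀ ℕ) : d = par (d 0) (d 1) := by
  ext i
  fin_cases i
  · simp
  · simp

/-- Parity component of a power series. -/
noncomputable def comp (i j : ℕ) : Plane k →+ Plane k where
  toFun f := fun d => coeff (par i j + 2 • d) f
  map_zero' := by ext d; exact map_zero _
  map_add' f g := by ext d; exact map_add _ _ _

theorem coeff_comp (i j : ℕ) (f : Plane k) (d : Fin 2 →₀ ℕ) :
    coeff d (comp i j f) = coeff (par i j + 2 • d) f := rfl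

/-- The squaring substitution `x ↦ x², y ↦ y²`. -/
noncomputable abbrev ex (f : Plane k) : Plane k := MvPowerSeries.expand 2 two_ne_zero f

theorem coeff_monomial_mul_ex_same (i j : ℕ) (g : Plane k) (d : Fin 2 →₀ ℕ) :
    coeff (par i j + 2 • d) (monomial (par i j) (1 : k) * ex g) = coeff d g := by
  rw [coeff_monomial_mul, if_pos (self_le_add_right _ _), one_mul, add_tsub_cancel_left,
    coeff_expand_smul]

theorem coeff_monomial_mul_ex_ne {i j i' j' : ℕ} (hi : i < 2) (hj : j < 2) (hi' : i' < 2)
    (hj' : j' < 2) (h : i ≠ i' ∨ j ≠ j') (g : Plane k) (d : Fin 2 →₀ ℕ) :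
    coeff (par i j + 2 • d) (monomial (par i' j') (1 : k) * ex g) = 0 := by
  rw [coeff_monomial_mul]
  split_ifs with hle
  · rw [one_mul]
    have h0 : i' ≤ i + 2 * d 0 := by simpa using hle 0
    have h1 : j' ≤ j + 2 * d 1 := by simpa using hle 1
    rcases h with h | h
    · refine coeff_expand_of_not_dvd 2 two_ne_zero g (i := 0) ?_
      simp only [Finsupp.coe_tsub, Pi.sub_apply, Finsupp.coe_add, Pi.add_apply, par_zero,
        Finsupp.coe_smul, Pi.smul_apply, smul_eq_mul]
      omega
    · refine coeff_expand_of_not_dvd 2 two_ne_zero g (i := 1) ?_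
      simp only [Finsupp.coe_tsub, Pi.sub_apply, Finsupp.coe_add, Pi.add_apply, par_one,
        Finsupp.coe_smul, Pi.smul_apply, smul_eq_mul]
      omega
  · rfl

theorem exists_par_add (n : Fin 2 →₀ ℕ) :
    ∃ (i j : ℕ) (d : Fin 2 →₀ ℕ), i < 2 ∧ j < 2 ∧ n = par i j + 2 • d := by
  refine ⟨n 0 % 2, n 1 % 2, par (n 0 / 2) (n 1 / 2), Nat.mod_lt _ two_pos,
    Nat.mod_lt _ two_pos, ?_⟩
  ext i
  fin_cases i
  · simp; omega
  · simp; omega

/-- Every power series is the sum of its four parity parts. -/
theorem parity_sum (f00 f10 f01 f11 : Plane k) (i j : ℕ) (hi : i < 2) (hj : j < 2)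
    (d : Fin 2 →₀ ℕ) :
    coeff (par i j + 2 • d)
      (monomial (par 0 0) (1 : k) * ex f00 + monomial (par 1 0) (1 : k) * ex f10 +
        monomial (par 0 1) (1 : k) * ex f01 + monomial (par 1 1) (1 : k) * ex f11) =
      if i = 0 then (if j = 0 then coeff d f00 else coeff d f01)
      else (if j = 0 then coeff d f10 else coeff d f11) := by
  have hi' : i = 0 ∨ i = 1 := by omega
  have hj' : j = 0 ∨ j = 1 := by omega
  rcases hi' with rfl | rfl <;> rcases hj' with rfl | rfl
  · simp only [map_add]
    rw [coeff_monomial_mul_ex_same,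
      coeff_monomial_mul_ex_ne (by omega) (by omega) (by omega) (by omega) (by omega),
      coeff_monomial_mul_ex_ne (by omega) (by omega) (by omega) (by omega) (by omega),
      coeff_monomial_mul_ex_ne (by omega) (by omega) (by omega) (by omega) (by omega)]
    simp
  · simp only [map_add]
    rw [coeff_monomial_mul_ex_same 0 1,
      coeff_monomial_mul_ex_ne (by omega) (by omega) (by omega) (by omega) (by omega),
      coeff_monomial_mul_ex_ne (by omega) (by omega) (by omega) (by omega) (by omega),
      coeff_monomial_mul_ex_ne (by omega) (by omega) (by omega) (by omega) (by omega)]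
    simp
  · simp only [map_add]
    rw [coeff_monomial_mul_ex_same 1 0,
      coeff_monomial_mul_ex_ne (by omega) (by omega) (by omega) (by omega) (by omega),
      coeff_monomial_mul_ex_ne (by omega) (by omega) (by omega) (by omega) (by omega),
      coeff_monomial_mul_ex_ne (by omega) (by omega) (by omega) (by omega) (by omega)]
    simp
  · simp only [map_add]
    rw [coeff_monomial_mul_ex_same 1 1,
      coeff_monomial_mul_ex_ne (by omega) (by omega) (by omega) (by omega) (by omega),
      coeff_monomial_mul_ex_ne (by omega) (by omega) (by omega) (by omega) (by omega),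
      coeff_monomial_mul_ex_ne (by omega) (by omega) (by omega) (by omega) (by omega)]
    simp

theorem monomial_par_zero_zero : (monomial (par 0 0) (1 : k) : Plane k) = 1 := by
  have : par 0 0 = 0 := by ext i; fin_cases i <;> simp
  rw [this]; rfl

theorem monomial_par_one_zero : (monomial (par 1 0) (1 : k) : Plane k) = X 0 := by
  have : par 1 0 = Finsupp.single 0 1 := by ext i; fin_cases i <;> simp [par]
  rw [this]; rfl

theorem monomial_par_zero_one : (monomial (par 0 1) (1 : k) : Plane k) = X 1 := by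
  have : par 0 1 = Finsupp.single 1 1 := by ext i; fin_cases i <;> simp [par]
  rw [this]; rfl

theorem monomial_par_one_one : (monomial (par 1 1) (1 : k) : Plane k) = X 0 * X 1 := by
  rw [X_def, X_def, monomial_mul_monomial, one_mul]
  rfl

theorem parity_decomp (f : Plane k) :
    f = ex (comp 0 0 f) + X 0 * ex (comp 1 0 f) + X 1 * ex (comp 0 1 f) +
      X 0 * X 1 * ex (comp 1 1 f) := by
  have h : f = monomial (par 0 0) (1 : k) * ex (comp 0 0 f) +
      monomial (par 1 0) (1 : k) * ex (comp 1 0 f) +
      monomial (par 0 1) (1 : k) * ex (comp 0 1 f) +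
      monomial (par 1 1) (1 : k) * ex (comp 1 1 f) := by
    ext n
    obtain ⟨i, j, d, hi, hj, rfl⟩ := exists_par_add n
    rw [parity_sum _ _ _ _ i j hi hj d]
    simp only [coeff_comp]
    have hi' : i = 0 ∨ i = 1 := by omega
    have hj' : j = 0 ∨ j = 1 := by omega
    rcases hi' with rfl | rfl <;> rcases hj' with rfl | rfl <;> simp
  rw [monomial_par_zero_zero, monomial_par_one_zero, monomial_par_zero_one,
    monomial_par_one_one, one_mul] at h
  exact h

/-- The parity components are uniquely determined. -/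
theorem comp_eq (f00 f10 f01 f11 : Plane k) :
    let f := ex f00 + X 0 * ex f10 + X 1 * ex f01 + X 0 * X 1 * ex f11
    comp 0 0 f = f00 ∧ comp 1 0 f = f10 ∧ comp 0 1 f = f01 ∧ comp 1 1 f = f11 := by
  intro f
  have hf : f = monomial (par 0 0) (1 : k) * ex f00 + monomial (par 1 0) (1 : k) * ex f10 +
      monomial (par 0 1) (1 : k) * ex f01 + monomial (par 1 1) (1 : k) * ex f11 := by
    rw [monomial_par_zero_zero, monomial_par_one_zero, monomial_par_zero_one,
      monomial_par_one_one, one_mul]
  refine ⟨?_, ?_, ?_, ?_⟩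
  · ext d
    rw [coeff_comp, hf, parity_sum _ _ _ _ 0 0 (by omega) (by omega)]; simp
  · ext d
    rw [coeff_comp, hf, parity_sum _ _ _ _ 1 0 (by omega) (by omega)]; simp
  · ext d
    rw [coeff_comp, hf, parity_sum _ _ _ _ 0 1 (by omega) (by omega)]; simp
  · ext d
    rw [coeff_comp, hf, parity_sum _ _ _ _ 1 1 (by omega) (by omega)]; simp

variable [CharP k 2] [PerfectRing k 2]

/-- Over a perfect field of characteristic 2, `x ↦ x², y ↦ y²` of a series is a square. -/
theorem ex_eq_sq (g : Plane k) :
    ∃ h : Plane k, ex g = h ^ 2 := by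
  refine ⟨MvPowerSeries.map ((frobeniusEquiv k 2).symm : k →+* k) g, ?_⟩
  rw [← map_frobenius_expand 2 two_ne_zero, ← map_expand, MvPowerSeries.map_map]
  have : (frobenius k 2).comp ((frobeniusEquiv k 2).symm : k →+* k) = RingHom.id k := by
    ext x
    simp
  rw [this, MvPowerSeries.map_id, RingHom.id_apply]

/-- `{x, y}` is a 2-basis of `k⟦x, y⟧`. -/
theorem two_basis (f : Plane k) : ∃ a b c d : Plane k,
    f = a ^ 2 + X 0 * b ^ 2 + X 1 * c ^ 2 + X 0 * X 1 * d ^ 2 := by
  obtain ⟨a, ha⟩ := ex_eq_sq (comp 0 0 f)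
  obtain ⟨b, hb⟩ := ex_eq_sq (comp 1 0 f)
  obtain ⟨c, hc⟩ := ex_eq_sq (comp 0 1 f)
  obtain ⟨d, hd⟩ := ex_eq_sq (comp 1 1 f)
  refine ⟨a, b, c, d, ?_⟩
  rw [← ha, ← hb, ← hc, ← hd]
  exact parity_decomp f

/-- An additive map from `k⟦x, y⟧` to a field that is linear over squares (through some map)
and kills `1, x, y, xy` vanishes. -/
theorem eq_zero_of_sq_linear {M : Type*} [AddCommMonoid M] (δ : Plane k →+ M)
    (h : ∀ f : Plane k, δ f = 0 → ∀ g : Plane k, δ (f * g ^ 2) = 0)
    (h1 : δ 1 = 0) (hx : δ (X 0) = 0) (hy : δ (X 1) = 0) (hxy : δ (X 0 * X 1) = 0)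
    (f : Plane k) : δ f = 0 := by
  obtain ⟨a, b, c, d, rfl⟩ := two_basis f
  have e1 := h 1 h1 a
  rw [one_mul] at e1
  rw [map_add, map_add, map_add, e1, h _ hx, h _ hy, h _ hxy]
  simp

end Parity

end Pool.Agent.WildPlane
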