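import Pool.Agent.helper19.WildDlog

namespace Pool.Agent.WildPlane

open IsLocalRing MvPowerSeries

section Prime

variable {k : Type*} [Field k]

theorem X_dvd_iff_weightedOrder (i : Fin 2) (f : Plane k) :
    X i ∣ f ↔ 1 ≤ f.weightedOrder (Pi.single i 1) := by
  rw [MvPowerSeries.X_dvd_iff]
  have hw : ∀ d : Fin 2 →₀ ℕ, Finsupp.weight (Pi.single i 1 : Fin 2 → ℕ) d = d i := by
    intro d
    rw [Finsupp.weight_apply, Finsupp.sum_fintype _ _ (by simp), Fin.sum_univ_two]
    fin_cases i <;> simp
  constructor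
  · intro h
    have : ((1 : ℕ) : ℕ∞) ≤ f.weightedOrder (Pi.single i 1) := by
      apply MvPowerSeries.nat_le_weightedOrder
      intro d hd
      rw [hw] at hd
      exact h d (by omega)
    exact_mod_cast this
  · intro h d hd
    apply MvPowerSeries.coeff_eq_zero_of_lt_weightedOrder (Pi.single i 1)
    rw [hw, hd]
    exact lt_of_lt_of_le (by norm_num) h

theorem prime_X (i : Fin 2) : Prime (X i : Plane k) := by
  refine ⟨?_, ?_, ?_⟩
  · intro h
    have := congrArg (coeff (Finsupp.single i 1)) h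
    rw [coeff_X] at this
    simp at this
  · intro h
    rw [MvPowerSeries.isUnit_iff_constantCoeff] at h
    simp at h
  · intro a b h
    rw [X_dvd_iff_weightedOrder, MvPowerSeries.weightedOrder_mul] at h
    rw [X_dvd_iff_weightedOrder, X_dvd_iff_weightedOrder]
    by_contra hcon
    rw [not_or, not_le, not_le, Order.lt_one_iff, Order.lt_one_iff] at hcon
    rw [hcon.1, hcon.2] at h
    simp at h

theorem not_X_dvd_of_coeff {i : Fin 2} {f : Plane k} (d : Fin 2 →₀ ℕ) (hd : d i = 0)
    (h : coeff d f ≠ 0) : ¬ X i ∣ f := fun hdvd => h (MvPowerSeries.X_dvd_iff.mp hdvd d hd)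

theorem coeff_single_X_pow (i : Fin 2) (n : ℕ) :
    coeff (Finsupp.single i n) ((X i : Plane k) ^ n) = 1 := by
  rw [MvPowerSeries.coeff_X_pow, if_pos rfl]

/-- quotients of invariants are invariant -/
theorem invariant_of_mul {σ : Plane k ≃ₐ[k] Plane k} {r s t : Plane k} (hs0 : s ≠ 0)
    (hr : σ r = r) (hs : σ s = s) (h : r = s * t) : σ t = t := by
  have h1 : s * σ t = s * t := by
    rw [← h, ← hr, h, map_mul, hs]
  exact mul_left_cancel₀ hs0 h1

end Prime

end Pool.Agent.WildPlane
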