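import Pool.Agent.helper19.WildIota

namespace Pool.Agent.WildPlane

open IsLocalRing

section Pull

variable {K F W : Type*} [Field K] [Field F] [CommRing W] [IsDomain W] [ValuationRing W]
  [Algebra W F] [IsFractionRing W F]

variable (W) in
/-- Pull back of a valuation ring along a field homomorphism. -/
def pullO (ι : K →+* F) : ValuationSubring K where
  carrier := {f | ∃ w : W, ι f = algebraMap W F w}
  mul_mem' := by
    rintro a b ⟨v, hv⟩ ⟨w, hw⟩
    exact ⟨v * w, by rw [map_mul, hv, hw, map_mul]⟩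
  one_mem' := ⟨1, by rw [map_one, map_one]⟩
  add_mem' := by
    rintro a b ⟨v, hv⟩ ⟨w, hw⟩
    exact ⟨v + w, by rw [map_add, hv, hw, map_add]⟩
  zero_mem' := ⟨0, by rw [map_zero, map_zero]⟩
  neg_mem' := by
    rintro a ⟨v, hv⟩
    exact ⟨-v, by rw [map_neg, hv, map_neg]⟩
  mem_or_inv_mem' := by
    intro f
    rcases ValuationRing.isInteger_or_isInteger W (ι f) with ⟨w, hw⟩ | ⟨w, hw⟩
    · exact Or.inl ⟨w, hw.symm⟩
    · exact Or.inr ⟨w, by rw [map_inv₀]; exact hw.symm⟩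

variable {ι : K →+* F}

theorem mem_pullO {f : K} : f ∈ pullO W ι ↔ ∃ w : W, ι f = algebraMap W F w := Iff.rfl

theorem val_eq_one {f : K} {w : W} (h : ι f = algebraMap W F w) (hw : IsUnit w) :
    (pullO W ι).valuation f = 1 := by
  obtain ⟨u, rfl⟩ := hw
  have h1 : f ∈ pullO W ι := ⟨_, h⟩
  have h2 : f⁻¹ ∈ pullO W ι := by
    refine ⟨((u⁻¹ : Wˣ) : W), ?_⟩
    rw [map_inv₀, h]
    have : algebraMap W F (u : W) * algebraMap W F ((u⁻¹ : Wˣ) : W) = 1 := by
      rw [← map_mul, u.mul_inv, map_one]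
    exact inv_eq_of_mul_eq_one_right this
  have hf : f ≠ 0 := by
    rintro rfl
    rw [map_zero] at h
    have := IsFractionRing.injective W F (h.symm.trans (map_zero _).symm)
    exact u.ne_zero this
  apply le_antisymm
  · exact ((pullO W ι).valuation_le_one_iff f).mpr h1
  · have h3 := ((pullO W ι).valuation_le_one_iff f⁻¹).mpr h2
    rw [map_inv₀] at h3
    have hne : (pullO W ι).valuation f ≠ 0 := ((pullO W ι).valuation.ne_zero_iff).mpr hf
    exact (inv_le_one₀ (zero_lt_iff.mpr hne)).mp h3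

theorem val_lt_one {f : K} {w : W} (h : ι f = algebraMap W F w) (hw : ¬ IsUnit w) :
    (pullO W ι).valuation f < 1 := by
  have h1 : f ∈ pullO W ι := ⟨_, h⟩
  refine lt_of_le_of_ne (((pullO W ι).valuation_le_one_iff f).mpr h1) ?_
  intro h2
  have hf : f ≠ 0 := by
    rintro rfl
    rw [map_zero] at h2
    exact zero_ne_one h2
  have h3 : f⁻¹ ∈ pullO W ι := by
    rw [← (pullO W ι).valuation_le_one_iff, map_inv₀, h2, inv_one]
  obtain ⟨v, hv⟩ := h3
  apply hw
  have h4 : algebraMap W F (w * v) = algebraMap W F 1 := by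
    rw [map_mul, ← h, ← hv, ← map_mul, mul_inv_cancel₀ hf, map_one, map_one]
  exact IsUnit.of_mul_eq_one v (IsFractionRing.injective W F h4)

end Pull

section TwoO

variable {k : Type*} [Field k]
variable {x y z : Plane k} {σ : Plane k ≃ₐ[k] Plane k}

open PowerSeries

/-- Local expressions of `x`, `y`, `z` in the chosen chart. -/
theorem exists_local (hx : x = MvPowerSeries.X 0 ^ 2 + MvPowerSeries.X 0 * y)
    (hy : y = MvPowerSeries.X 1 ^ 2 + MvPowerSeries.X 1 * x ^ 3)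
    (hz : z = x ^ 3 * MvPowerSeries.X 0 + y * MvPowerSeries.X 1) :
    ∃ ξ η ζ : WRing k, iota k x = X ^ 2 * ξ ∧ iota k y = X ^ 4 * η ∧ iota k z = X ^ 6 * ζ ∧
      constantCoeff ξ = 1 ∧ constantCoeff η = RatFunc.X ^ 2 ∧
      constantCoeff ζ = RatFunc.X ^ 3 := by
  have ex := congrArg (iota k) hx
  have ey := congrArg (iota k) hy
  have ez := congrArg (iota k) hz
  simp only [map_add, map_mul, map_pow, iota_X0, iota_X1] at ex ey ez
  let s : WRing k := C (RatFunc.X : RatFunc k)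
  have ey' : iota k y = X ^ 2 * (s ^ 2 * X ^ 2 + s * iota k x ^ 3) := by
    rw [ey]; ring
  have ex' : iota k x = X ^ 2 * (1 + X * (s ^ 2 * X ^ 2 + s * iota k x ^ 3)) := by
    conv_lhs => rw [ex, ey']
    ring
  let ξ : WRing k := 1 + X * (s ^ 2 * X ^ 2 + s * iota k x ^ 3)
  have hξ : iota k x = X ^ 2 * ξ := ex'
  have ey'' : iota k y = X ^ 4 * (s ^ 2 + s * X ^ 4 * ξ ^ 3) := by
    rw [ey', hξ]; ring
  have ez' : iota k z = X ^ 6 * (X * ξ ^ 3 + s * (s ^ 2 + s * X ^ 4 * ξ ^ 3)) := by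
    rw [ez, hξ, ey'']
    change _ + _ * (s * X ^ 2) = _
    ring
  refine ⟨ξ, s ^ 2 + s * X ^ 4 * ξ ^ 3, X * ξ ^ 3 + s * (s ^ 2 + s * X ^ 4 * ξ ^ 3),
    hξ, ey'', ez', ?_, ?_, ?_⟩
  · simp [ξ]
  · simp [s]
  · simp [s, pow_succ, mul_assoc]

end TwoO

end Pool.Agent.WildPlane
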