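import Pool.Agent.helper19.WildDefs

namespace Pool.Agent.WildPlane

open IsLocalRing MvPowerSeries

section Ord

variable {k : Type*} [Field k]

/-- `f` has order at least `N`. -/
def OrdGe (N : ℕ) (f : Plane k) : Prop := ∀ d : Fin 2 →₀ ℕ, d.degree < N → coeff d f = 0

theorem ordGe_iff {N : ℕ} {f : Plane k} : OrdGe N f ↔ (N : ℕ∞) ≤ f.order := by
  constructor
  · intro h
    exact MvPowerSeries.nat_le_order h
  · intro h d hd
    apply MvPowerSeries.coeff_of_lt_order
    exact lt_of_lt_of_le (by exact_mod_cast hd) h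

theorem OrdGe.mono {M N : ℕ} {f : Plane k} (h : OrdGe N f) (hMN : M ≤ N) : OrdGe M f :=
  fun d hd => h d (lt_of_lt_of_le hd hMN)

theorem OrdGe.zero' (f : Plane k) : OrdGe 0 f := fun _ hd => absurd hd (Nat.not_lt_zero _)

theorem OrdGe.add {N : ℕ} {f g : Plane k} (hf : OrdGe N f) (hg : OrdGe N g) :
    OrdGe N (f + g) := fun d hd => by rw [map_add, hf d hd, hg d hd, add_zero]

theorem OrdGe.neg {N : ℕ} {f : Plane k} (hf : OrdGe N f) : OrdGe N (-f) :=
  fun d hd => by rw [map_neg, hf d hd, neg_zero]

theorem OrdGe.sub {N : ℕ} {f g : Plane k} (hf : OrdGe N f) (hg : OrdGe N g) :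
    OrdGe N (f - g) := fun d hd => by rw [map_sub, hf d hd, hg d hd, sub_zero]

theorem OrdGe.mul {M N : ℕ} {f g : Plane k} (hf : OrdGe M f) (hg : OrdGe N g) :
    OrdGe (M + N) (f * g) := by
  rw [ordGe_iff] at *
  refine le_trans ?_ (MvPowerSeries.le_order_mul)
  push_cast
  exact add_le_add hf hg

theorem OrdGe.mul_left {N : ℕ} {g : Plane k} (f : Plane k) (hg : OrdGe N g) :
    OrdGe N (f * g) := by
  have := (OrdGe.zero' f).mul hg
  rwa [zero_add] at this

theorem OrdGe.mul_right {N : ℕ} {f : Plane k} (hf : OrdGe N f) (g : Plane k) :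
    OrdGe N (f * g) := by
  have := hf.mul (OrdGe.zero' g)
  rwa [add_zero] at this

theorem OrdGe.zero (N : ℕ) : OrdGe N (0 : Plane k) := fun d _ => by simp

theorem eq_zero_of_forall_ordGe {f : Plane k} (h : ∀ N, OrdGe N f) : f = 0 := by
  ext d
  rw [h (d.degree + 1) d (Nat.lt_succ_self _)]
  simp

theorem ordGe_one_iff {f : Plane k} : OrdGe 1 f ↔ constantCoeff f = 0 := by
  constructor
  · intro h
    rw [← coeff_zero_eq_constantCoeff_apply]
    exact h 0 (by simp)
  · intro h d hd
    have : d = 0 := by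
      rw [Nat.lt_one_iff, Finsupp.degree_eq_zero_iff] at hd
      exact hd
    rw [this, coeff_zero_eq_constantCoeff_apply, h]

theorem mem_maximalIdeal_iff {f : Plane k} :
    f ∈ maximalIdeal (Plane k) ↔ constantCoeff f = 0 := by
  rw [mem_maximalIdeal, mem_nonunits_iff, MvPowerSeries.isUnit_iff_constantCoeff,
    isUnit_iff_ne_zero, not_not]

theorem ordGe_X (i : Fin 2) : OrdGe 1 (X i : Plane k) := by
  rw [ordGe_one_iff]; simp

theorem ordGe_pow_of_mem {N : ℕ} {f : Plane k} (h : f ∈ maximalIdeal (Plane k) ^ N) :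
    OrdGe N f := by
  induction N generalizing f with
  | zero => exact OrdGe.zero' f
  | succ n ih =>
    rw [pow_succ] at h
    refine Submodule.mul_induction_on h ?_ ?_
    · intro a ha b hb
      exact (ih ha).mul (ordGe_one_iff.mpr (mem_maximalIdeal_iff.mp hb))
    · intro a b ha hb
      exact ha.add hb

/-- Contracting self-maps of the power series ring have a fixed point. -/
theorem exists_fixed_point (T : Plane k → Plane k)
    (hT : ∀ (N : ℕ) (f g : Plane k), OrdGe N (f - g) → OrdGe (N + 1) (T f - T g)) :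
    ∃ f, T f = f := by
  have hstep : ∀ n : ℕ, OrdGe n (T^[n + 1] 0 - T^[n] 0) := by
    intro n
    induction n with
    | zero => exact OrdGe.zero' _
    | succ n ih =>
      have h1 := hT n _ _ ih
      rwa [← Function.iterate_succ_apply' T (n + 1), ← Function.iterate_succ_apply' T n] at h1
  have hstab : ∀ n m : ℕ, n ≤ m → OrdGe n (T^[m] 0 - T^[n] 0) := by
    intro n m hnm
    induction m, hnm using Nat.le_induction with
    | base => rw [sub_self]; exact OrdGe.zero n
    | succ m hm ih =>
      have : T^[m + 1] 0 - T^[n] 0 = (T^[m + 1] 0 - T^[m] 0) + (T^[m] 0 - T^[n] 0) := by ring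
      rw [this]
      exact ((hstep m).mono hm).add ih
  let y : Plane k := fun d => coeff d (T^[d.degree + 1] 0)
  have hy : ∀ d, coeff d y = coeff d (T^[d.degree + 1] 0) := fun d => rfl
  have happrox : ∀ n : ℕ, OrdGe n (y - T^[n] 0) := by
    intro n d hd
    rw [map_sub, hy]
    have h := hstab (d.degree + 1) n hd d (Nat.lt_succ_self _)
    rw [map_sub, sub_eq_zero] at h
    rw [h, sub_self]
  refine ⟨y, ?_⟩
  rw [← sub_eq_zero]
  apply eq_zero_of_forall_ordGe
  intro N
  have h1 : OrdGe (N + 1) (T y - T^[N + 1] 0) := by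
    rw [Function.iterate_succ_apply' T N]
    exact hT N _ _ (happrox N)
  have h2 := happrox (N + 1)
  have : T y - y = (T y - T^[N + 1] 0) - (y - T^[N + 1] 0) := by ring
  rw [this]
  exact (h1.sub h2).mono (Nat.le_succ N)

theorem fixed_point_unique (T : Plane k → Plane k)
    (hT : ∀ (N : ℕ) (f g : Plane k), OrdGe N (f - g) → OrdGe (N + 1) (T f - T g))
    {f g : Plane k} (hf : T f = f) (hg : T g = g) : f = g := by
  rw [← sub_eq_zero]
  apply eq_zero_of_forall_ordGe
  intro N
  induction N with
  | zero => exact OrdGe.zero' _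
  | succ n ih =>
    have := hT n f g ih
    rwa [hf, hg] at this

/-- An additive self-map that is the identity to leading order is bijective. -/
theorem bijective_of_leading_id (Φ : Plane k →+ Plane k)
    (h : ∀ (N : ℕ) (f : Plane k), OrdGe N f → OrdGe (N + 1) (Φ f - f)) :
    Function.Bijective Φ := by
  constructor
  · intro f g hfg
    rw [← sub_eq_zero]
    apply eq_zero_of_forall_ordGe
    intro N
    induction N with
    | zero => exact OrdGe.zero' _
    | succ n ih =>
      have h1 := h n (f - g) ih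
      rw [map_sub, hfg, sub_self, zero_sub] at h1
      have h2 := h1.neg
      rwa [neg_neg] at h2
  · intro g
    obtain ⟨f, hf⟩ := exists_fixed_point (fun f => g - (Φ f - f)) (by
      intro N f f' hff
      have h1 := h N (f - f') hff
      have : (g - (Φ f - f)) - (g - (Φ f' - f')) = -(Φ (f - f') - (f - f')) := by
        rw [map_sub]; ring
      change OrdGe (N + 1) ((g - (Φ f - f)) - (g - (Φ f' - f')))
      rw [this]
      exact h1.neg)
    refine ⟨f, ?_⟩
    have hf' : g - (Φ f - f) = f := hf
    have : Φ f = g + (f - (g - (Φ f - f))) := by ring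
    rw [this, hf', sub_self, add_zero]

end Ord

end Pool.Agent.WildPlane
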