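import Pool.Agent.helper19.WildOne

namespace Pool.Agent.WildPlane

open IsLocalRing MvPowerSeries

section Two

variable {k : Type*} [Field k]

/-- The pair of series with `x = u² + u y`, `y = v² + v x³`. -/
theorem exists_artin_two : ∃ x y : Plane k, x = X 0 ^ 2 + X 0 * y ∧ y = X 1 ^ 2 + X 1 * x ^ 3 := by
  obtain ⟨y, hy⟩ := exists_fixed_point
    (fun f : Plane k => X 1 ^ 2 + X 1 * (X 0 ^ 2 + X 0 * f) ^ 3) (by
    intro N f g h
    have e : (X 1 ^ 2 + X 1 * (X 0 ^ 2 + X 0 * f) ^ 3) - (X 1 ^ 2 + X 1 * (X 0 ^ 2 + X 0 * g) ^ 3)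
        = X 1 * (f - g) * (X 0 * ((X 0 ^ 2 + X 0 * f) ^ 2 +
          (X 0 ^ 2 + X 0 * f) * (X 0 ^ 2 + X 0 * g) + (X 0 ^ 2 + X 0 * g) ^ 2)) := by ring
    change OrdGe (N + 1)
      ((X 1 ^ 2 + X 1 * (X 0 ^ 2 + X 0 * f) ^ 3) - (X 1 ^ 2 + X 1 * (X 0 ^ 2 + X 0 * g) ^ 3))
    rw [e, add_comm N 1]
    exact ((ordGe_X 1).mul h).mul_right _)
  exact ⟨X 0 ^ 2 + X 0 * y, y, rfl, hy.symm⟩

variable {x y : Plane k}

theorem two_ord (hx : x = X 0 ^ 2 + X 0 * y) (hy : y = X 1 ^ 2 + X 1 * x ^ 3) :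
    OrdGe 2 x ∧ OrdGe 2 y ∧ OrdGe 3 (x - X 0 ^ 2) ∧ OrdGe 3 (y - X 1 ^ 2) ∧
      coeff (Finsupp.single 0 2) x = 1 ∧ coeff (Finsupp.single 1 2) y = 1 := by
  have hX2 : ∀ i : Fin 2, OrdGe 2 ((X i : Plane k) ^ 2) := by
    intro i; rw [pow_two]; exact (ordGe_X i).mul (ordGe_X i)
  have hx1 : OrdGe 1 x := by
    rw [hx]; exact ((hX2 0).mono (by norm_num)).add ((ordGe_X 0).mul_right y)
  have hx3 : OrdGe 1 (x ^ 3) := by
    rw [pow_succ]; exact hx1.mul_left _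
  have hy2 : OrdGe 2 y := by
    rw [hy]; exact (hX2 1).add ((ordGe_X 1).mul hx3)
  have hxd : OrdGe 3 (x - X 0 ^ 2) := by
    have e : x - X 0 ^ 2 = X 0 * y := by linear_combination hx
    rw [e]; exact (ordGe_X 0).mul hy2
  have hx2 : OrdGe 2 x := by
    have e : x = (x - X 0 ^ 2) + X 0 ^ 2 := by ring
    rw [e]; exact (hxd.mono (by norm_num)).add (hX2 0)
  have hyd : OrdGe 3 (y - X 1 ^ 2) := by
    have e : y - X 1 ^ 2 = X 1 * x ^ 2 * x := by linear_combination hy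
    rw [e]; exact ((ordGe_X 1).mul_right _).mul hx2
  refine ⟨hx2, hy2, hxd, hyd, ?_, ?_⟩
  · have := hxd (Finsupp.single 0 2) (by rw [Finsupp.degree_single]; norm_num)
    rw [map_sub, coeff_single_X_pow, sub_eq_zero] at this
    exact this
  · have := hyd (Finsupp.single 1 2) (by rw [Finsupp.degree_single]; norm_num)
    rw [map_sub, coeff_single_X_pow, sub_eq_zero] at this
    exact this

theorem sub_comp_apply {x y a b : Plane k} (hx : OrdGe 1 x) (hy : OrdGe 1 y)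
    (ha : OrdGe 1 a) (hb : OrdGe 1 b) (h0 : sub ha hb x = x) (h1 : sub ha hb y = y)
    (f : Plane k) : sub ha hb (sub hx hy f) = sub hx hy f := by
  have e' : (fun s => subst (R := k) ![a, b] (![x, y] s)) = ![x, y] := by
    funext s
    rw [← substAlgHom_apply (hasSubst_pair ha hb)]
    fin_cases s
    · exact h0
    · exact h1
  rw [sub, sub, substAlgHom_apply, substAlgHom_apply,
    subst_comp_subst_apply (hasSubst_pair hx hy) (hasSubst_pair ha hb), e']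

/-- The second involution: `u ↦ u + y`, `v ↦ v + x³`. -/
theorem exists_sigma_two [CharP k 2] (hx : x = X 0 ^ 2 + X 0 * y)
    (hy : y = X 1 ^ 2 + X 1 * x ^ 3) (hx1 : OrdGe 1 x) (hy1 : OrdGe 1 y) :
    ∃ (σ : Plane k ≃ₐ[k] Plane k),
      σ (X 0) = X 0 + y ∧ σ (X 1) = X 1 + x ^ 3 ∧
      σ x = x ∧ σ y = y ∧ (∀ f, σ (σ f) = f) ∧ (∀ f, σ (sub hx1 hy1 f) = sub hx1 hy1 f) := by
  have h2 := two_eq_zero k
  have hx3 : OrdGe 1 (x ^ 3) := by
    rw [pow_succ]; exact hx1.mul_left _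
  have ha : OrdGe 1 (X 0 + y) := (ordGe_X 0).add hy1
  have hb : OrdGe 1 (X 1 + x ^ 3) := (ordGe_X 1).add hx3
  have hσy : sub ha hb y = y := by
    apply fixed_point_unique
      (fun f => (X 1 + x ^ 3) ^ 2 + (X 1 + x ^ 3) * ((X 0 + y) ^ 2 + (X 0 + y) * f) ^ 3)
    · intro N f g h
      have e : ((X 1 + x ^ 3) ^ 2 + (X 1 + x ^ 3) * ((X 0 + y) ^ 2 + (X 0 + y) * f) ^ 3) -
          ((X 1 + x ^ 3) ^ 2 + (X 1 + x ^ 3) * ((X 0 + y) ^ 2 + (X 0 + y) * g) ^ 3)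
          = (X 1 + x ^ 3) * (f - g) * ((X 0 + y) * (((X 0 + y) ^ 2 + (X 0 + y) * f) ^ 2 +
            ((X 0 + y) ^ 2 + (X 0 + y) * f) * ((X 0 + y) ^ 2 + (X 0 + y) * g) +
            ((X 0 + y) ^ 2 + (X 0 + y) * g) ^ 2)) := by ring
      change OrdGe (N + 1)
        (((X 1 + x ^ 3) ^ 2 + (X 1 + x ^ 3) * ((X 0 + y) ^ 2 + (X 0 + y) * f) ^ 3) -
          ((X 1 + x ^ 3) ^ 2 + (X 1 + x ^ 3) * ((X 0 + y) ^ 2 + (X 0 + y) * g) ^ 3))
      rw [e, add_comm N 1]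
      exact (hb.mul h).mul_right _
    · have e1 := congrArg (sub ha hb) hy
      have e2 := congrArg (sub ha hb) hx
      rw [map_add, map_mul, map_pow, map_pow, sub_X1] at e1
      rw [map_add, map_mul, map_pow, sub_X0] at e2
      rw [e2] at e1
      exact e1.symm
    · have e : (X 0 + y) ^ 2 + (X 0 + y) * y = x := by
        linear_combination (-1 : Plane k) * hx + (X 0 * y + y ^ 2) * h2
      change (X 1 + x ^ 3) ^ 2 + (X 1 + x ^ 3) * ((X 0 + y) ^ 2 + (X 0 + y) * y) ^ 3 = y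
      rw [e]
      linear_combination (-1 : Plane k) * hy + (X 1 * x ^ 3 + x ^ 6) * h2
  have hσx : sub ha hb x = x := by
    have e2 := congrArg (sub ha hb) hx
    rw [map_add, map_mul, map_pow, sub_X0, hσy] at e2
    rw [e2]
    linear_combination (-1 : Plane k) * hx + (X 0 * y + y ^ 2) * h2
  obtain ⟨σ, h0, h1, hσ, hinv⟩ := exists_involution ha hb hσy (by rw [map_pow, hσx])
  refine ⟨σ, h0, h1, by rw [hσ, hσx], by rw [hσ, hσy], hinv, ?_⟩
  intro f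
  rw [hσ]
  exact sub_comp_apply hx1 hy1 ha hb hσx hσy f

variable {σ : Plane k ≃ₐ[k] Plane k}

theorem two_invariants (hx : x = X 0 ^ 2 + X 0 * y) (hy : y = X 1 ^ 2 + X 1 * x ^ 3)
    (h0 : σ (X 0) = X 0 + y) (h1 : σ (X 1) = X 1 + x ^ 3) (hinv : ∀ f, σ (σ f) = f) :
    IsWildAction 2 σ ∧ jordanBlocks σ = 2 ∧ IsNonlinearityIndex σ 0 := by
  obtain ⟨hx2, hy2, -, -, -, hyc⟩ := two_ord hx hy
  have hx3 : OrdGe 2 (x ^ 3) := by
    rw [pow_succ]; exact hx2.mul_left _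
  have hy3 : ¬ OrdGe 3 y := by
    intro h
    have := h (Finsupp.single 1 2) (by rw [Finsupp.degree_single]; norm_num)
    rw [hyc] at this
    exact one_ne_zero this
  have e0 : OrdGe 2 (σ (X 0) - X 0) := by rw [h0, add_sub_cancel_left]; exact hy2
  have e1 : OrdGe 2 (σ (X 1) - X 1) := by rw [h1, add_sub_cancel_left]; exact hx3
  refine ⟨isWildAction_two h0 h1 hinv ?_ ?_, jordanBlocks_eq_two e0 e1,
    nonlinearityIndex_zero e0 e1 ?_⟩
  · intro h
    rw [h] at hy3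
    exact hy3 (OrdGe.zero 3)
  · intro q hq hyq hxq
    have hxq' : x ∈ q := hq.mem_of_pow_mem 3 hxq
    constructor
    · have : (X 0 : Plane k) ^ 2 ∈ q := by
        have e : (X 0 : Plane k) ^ 2 = x - X 0 * y := by linear_combination -hx
        rw [e]
        exact q.sub_mem hxq' (q.mul_mem_left _ hyq)
      exact hq.mem_of_pow_mem 2 this
    · have : (X 1 : Plane k) ^ 2 ∈ q := by
        have e : (X 1 : Plane k) ^ 2 = y - X 1 * x ^ 3 := by linear_combination -hy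
        rw [e]
        exact q.sub_mem hyq (q.mul_mem_left _ hxq)
      exact hq.mem_of_pow_mem 2 this
  · rintro ⟨h3, -⟩
    rw [h0, add_sub_cancel_left] at h3
    exact hy3 h3

/-- The structure of the invariant ring: it is generated by `1` and `z = x³ u + y v` over
`k⟦x, y⟧`. -/
theorem two_structure [CharP k 2] (hx : x = X 0 ^ 2 + X 0 * y) (hy : y = X 1 ^ 2 + X 1 * x ^ 3)
    (hx1 : OrdGe 1 x) (hy1 : OrdGe 1 y)
    (h0 : σ (X 0) = X 0 + y) (h1 : σ (X 1) = X 1 + x ^ 3)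
    (hφ : ∀ f, σ (sub hx1 hy1 f) = sub hx1 hy1 f) {f : Plane k} (hf : σ f = f) :
    ∃ α β : Plane k, f = sub hx1 hy1 α + sub hx1 hy1 β * (x ^ 3 * X 0 + y * X 1) := by
  have h2 := two_eq_zero k
  obtain ⟨-, -, hxd, hyd, -, -⟩ := two_ord hx hy
  obtain ⟨α, β, γ, δ, hrep⟩ := exists_basis_repr hx1 hy1 hxd hyd f
  have hxs : sub hx1 hy1 (X 0) = x := sub_X0 hx1 hy1
  have hys : sub hx1 hy1 (X 1) = y := sub_X1 hx1 hy1
  have e : σ f - f = sub hx1 hy1 (X 1 * β + X 0 ^ 3 * γ + X 0 ^ 3 * X 1 * δ) +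
      X 0 * sub hx1 hy1 (X 0 ^ 3 * δ) + X 1 * sub hx1 hy1 (X 1 * δ) +
      X 0 * X 1 * sub hx1 hy1 0 := by
    rw [hrep]
    simp only [map_add, map_mul, map_pow, map_zero, hφ, hxs, hys, h0, h1]
    ring
  rw [hf, sub_self] at e
  obtain ⟨e1, e2, -, -⟩ := basis_repr_unique hx1 hy1 hxd hyd e.symm
  have hδ : δ = 0 := by
    rcases mul_eq_zero.mp e2 with h | h
    · exact absurd (pow_eq_zero_iff (by norm_num) |>.mp h) (prime_X 0).ne_zero
    · exact h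
  subst hδ
  rw [mul_zero, add_zero] at e1
  have hdvd : X 1 ∣ (X 0 : Plane k) ^ 3 * γ := ⟨-β, by linear_combination e1⟩
  have hγ : X 1 ∣ γ := by
    rcases (prime_X (k := k) 1).dvd_or_dvd hdvd with h | h
    · exfalso
      have h' := (prime_X (k := k) 1).dvd_of_dvd_pow h
      refine not_X_dvd_of_coeff (Finsupp.single 0 1) (by simp) ?_ h'
      rw [coeff_X]; simp
    · exact h
  obtain ⟨γ', rfl⟩ := hγ
  have hβ : β = -(X 0 ^ 3 * γ') := by
    have : X 1 * (β + X 0 ^ 3 * γ') = 0 := by linear_combination e1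
    rcases mul_eq_zero.mp this with h | h
    · exact absurd h (prime_X 1).ne_zero
    · exact eq_neg_of_add_eq_zero_left h
  refine ⟨α, γ', ?_⟩
  rw [hrep, hβ]
  simp only [map_add, map_mul, map_pow, map_zero, map_neg, hxs, hys]
  linear_combination (-(X 0 * x ^ 3 * (sub hx1 hy1) γ')) * h2

end Two

end Pool.Agent.WildPlane
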