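import Pool.Agent.helper19.WildTwoA

namespace Pool.Agent.WildPlane

open IsLocalRing MvPowerSeries

section Hartogs

variable {k : Type*} [Field k] [CharP k 2]
variable {x y : Plane k} {σ : Plane k ≃ₐ[k] Plane k}

/-- Data of the second action. -/
structure TwoData (σ : Plane k ≃ₐ[k] Plane k) (x y z : Plane k) : Prop where
  hx : x = X 0 ^ 2 + X 0 * y
  hy : y = X 1 ^ 2 + X 1 * x ^ 3
  hz : z = x ^ 3 * X 0 + y * X 1
  h0 : σ (X 0) = X 0 + y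
  h1 : σ (X 1) = X 1 + x ^ 3
  hσx : σ x = x
  hσy : σ y = y

variable {z : Plane k} (T : TwoData σ x y z)

include T

theorem TwoData.hσz : σ z = z := by
  rw [T.hz, map_add, map_mul, map_mul, map_pow, T.hσx, T.hσy, T.h0, T.h1]
  linear_combination (x ^ 3 * y) * two_eq_zero k

theorem TwoData.rel : z ^ 2 + x ^ 3 * y * z + y ^ 3 + x ^ 7 = 0 := by
  have h2 := two_eq_zero k
  have hx := T.hx
  have hy := T.hy
  rw [T.hz]
  linear_combination (-(x ^ 6)) * hx - (y ^ 2) * hy +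
    (x ^ 7 + y ^ 3 + x ^ 3 * y * X 0 * X 1) * h2

omit [CharP k 2] in
theorem TwoData.ndvd_0_y : ¬ X 0 ∣ y := by
  obtain ⟨-, -, -, -, -, hyc⟩ := two_ord T.hx T.hy
  apply not_X_dvd_of_coeff (Finsupp.single 1 2) (by simp)
  rw [hyc]; exact one_ne_zero

omit [CharP k 2] in
theorem TwoData.ndvd_1_x : ¬ X 1 ∣ x := by
  obtain ⟨-, -, -, -, hxc, -⟩ := two_ord T.hx T.hy
  apply not_X_dvd_of_coeff (Finsupp.single 0 2) (by simp)
  rw [hxc]; exact one_ne_zero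

omit [CharP k 2] in
theorem TwoData.x_eq : x = X 0 * (X 0 + y) := by linear_combination T.hx
omit [CharP k 2] in
theorem TwoData.y_eq : y = X 1 * (X 1 + x ^ 3) := by linear_combination T.hy

theorem TwoData.sig0 : σ (X 0 + y) = X 0 := by
  rw [map_add, T.h0, T.hσy]; linear_combination y * two_eq_zero k
theorem TwoData.sig1 : σ (X 1 + x ^ 3) = X 1 := by
  rw [map_add, map_pow, T.h1, T.hσx]; linear_combination x ^ 3 * two_eq_zero k

omit [CharP k 2] in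
theorem TwoData.prime0 : Prime (X 0 + y) := by
  rw [← T.h0]
  exact (MulEquiv.prime_iff (σ : Plane k ≃* Plane k)).mpr (prime_X 0)

omit [CharP k 2] in
theorem TwoData.prime1 : Prime (X 1 + x ^ 3) := by
  rw [← T.h1]
  exact (MulEquiv.prime_iff (σ : Plane k ≃* Plane k)).mpr (prime_X 1)

omit [CharP k 2] T in
theorem dvd_map {a b : Plane k} (h : a ∣ b) : σ a ∣ σ b := map_dvd σ h

omit [CharP k 2] T in
theorem ndvd_1_0 : ¬ (X 1 : Plane k) ∣ X 0 := by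
  apply not_X_dvd_of_coeff (Finsupp.single 0 1) (by simp)
  rw [coeff_X]; simp

omit [CharP k 2] in
theorem TwoData.dvd_1_y : X 1 ∣ y := ⟨_, T.y_eq⟩
omit [CharP k 2] in
theorem TwoData.dvd_0_x : X 0 ∣ x := ⟨_, T.x_eq⟩

theorem TwoData.ndvd_1_s0 : ¬ X 1 ∣ X 0 + y := by
  intro h
  exact ndvd_1_0 ((dvd_add_left T.dvd_1_y).mp h)

theorem TwoData.ndvd_s0_0 : ¬ (X 0 + y) ∣ X 0 := by
  intro h
  have := dvd_map (σ := σ) h
  rw [T.sig0, T.h0] at this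
  exact T.ndvd_0_y ((dvd_add_right dvd_rfl).mp this)

theorem TwoData.ndvd_s1_0 : ¬ (X 1 + x ^ 3) ∣ X 0 := by
  intro h
  have := dvd_map (σ := σ) h
  rw [T.sig1, T.h0] at this
  exact T.ndvd_1_s0 this

theorem TwoData.ndvd_s1_s0 : ¬ (X 1 + x ^ 3) ∣ X 0 + y := by
  intro h
  have := dvd_map (σ := σ) h
  rw [T.sig1, T.sig0] at this
  exact ndvd_1_0 this

theorem TwoData.ndvd_s1_1 : ¬ (X 1 + x ^ 3) ∣ X 1 := by
  intro h
  have := dvd_map (σ := σ) h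
  rw [T.sig1, T.h1] at this
  have h' := (dvd_add_right dvd_rfl).mp this
  exact T.ndvd_1_x ((prime_X 1).dvd_of_dvd_pow h')

theorem TwoData.ndvd_0_Fy : ¬ X 0 ∣ x ^ 3 * z + y ^ 2 := by
  intro h
  have h1 : X 0 ∣ x ^ 3 * z := (T.dvd_0_x.pow (by norm_num)).mul_right z
  have h2 := (dvd_add_right h1).mp h
  exact T.ndvd_0_y ((prime_X 0).dvd_of_dvd_pow h2)

theorem TwoData.ndvd_s0_Fy : ¬ (X 0 + y) ∣ x ^ 3 * z + y ^ 2 := by
  intro h
  have := dvd_map (σ := σ) h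
  rw [T.sig0, map_add, map_mul, map_pow, map_pow, T.hσx, T.hσy, T.hσz] at this
  exact T.ndvd_0_Fy this

theorem TwoData.ndvd_1_Fx : ¬ X 1 ∣ x ^ 2 * y * z + x ^ 6 := by
  intro h
  have h1 : X 1 ∣ x ^ 2 * y * z := (T.dvd_1_y.mul_left _).mul_right z
  have h2 := (dvd_add_right h1).mp h
  exact T.ndvd_1_x ((prime_X 1).dvd_of_dvd_pow h2)

theorem TwoData.ndvd_s1_Fx : ¬ (X 1 + x ^ 3) ∣ x ^ 2 * y * z + x ^ 6 := by
  intro h
  have := dvd_map (σ := σ) h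
  rw [T.sig1, map_add, map_mul, map_mul, map_pow, map_pow, T.hσx, T.hσy, T.hσz] at this
  exact T.ndvd_1_Fx this

/-- A Hartogs type extension statement for the invariant ring. -/
theorem TwoData.hartogs (m : ℕ) {r r1 r2 : Plane k}
    (e1 : r * (x ^ 2 * y * z + x ^ 6) ^ m = (x ^ 3 * y) ^ m * r1)
    (e2 : r * (x ^ 3 * z + y ^ 2) ^ m = (x ^ 3 * y) ^ m * r2) :
    ∃ g, r = (x ^ 3 * y) ^ m * g := by
  have hp0 := prime_X (k := k) 0
  have hp1 := prime_X (k := k) 1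
  have hq0 := T.prime0
  have hq1 := T.prime1
  have pw : ∀ {p f : Plane k}, Prime p → ¬ p ∣ f → ∀ n, ¬ p ∣ f ^ n := by
    intro p f hp hf n h
    exact hf (hp.dvd_of_dvd_pow h)
  have hxp : x ^ (3 * m) = X 0 ^ (3 * m) * (X 0 + y) ^ (3 * m) := by
    rw [← mul_pow, ← T.x_eq]
  have hyp : y ^ m = X 1 ^ m * (X 1 + x ^ 3) ^ m := by
    rw [← mul_pow, ← T.y_eq]
  have hFz : (x ^ 3 * y) ^ m = X 0 ^ (3 * m) * (X 0 + y) ^ (3 * m) *
      (X 1 ^ m * (X 1 + x ^ 3) ^ m) := by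
    rw [mul_pow, ← pow_mul, hxp, hyp]
  -- u^(3m)
  have a1 : (X 0 : Plane k) ^ (3 * m) ∣ (x ^ 3 * z + y ^ 2) ^ m * r := by
    refine ⟨(X 0 + y) ^ (3 * m) * (X 1 ^ m * (X 1 + x ^ 3) ^ m) * r2, ?_⟩
    rw [mul_comm _ r, e2, hFz]
    ring
  obtain ⟨s1, hs1⟩ := hp0.pow_dvd_of_dvd_mul_left _ (pw hp0 T.ndvd_0_Fy m) a1
  have a2 : (X 0 + y : Plane k) ^ (3 * m) ∣ (x ^ 3 * z + y ^ 2) ^ m * r := by
    refine ⟨(X 0) ^ (3 * m) * (X 1 ^ m * (X 1 + x ^ 3) ^ m) * r2, ?_⟩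
    rw [mul_comm _ r, e2, hFz]
    ring
  have b2 := hq0.pow_dvd_of_dvd_mul_left _ (pw hq0 T.ndvd_s0_Fy m) a2
  rw [hs1] at b2
  obtain ⟨s2, hs2⟩ := hq0.pow_dvd_of_dvd_mul_left _ (pw hq0 T.ndvd_s0_0 _) b2
  have a3 : (X 1 : Plane k) ^ m ∣ (x ^ 2 * y * z + x ^ 6) ^ m * r := by
    refine ⟨(X 1 + x ^ 3) ^ m * (X 0 ^ (3 * m) * (X 0 + y) ^ (3 * m)) * r1, ?_⟩
    rw [mul_comm _ r, e1, hFz]
    ring
  have b3 := hp1.pow_dvd_of_dvd_mul_left _ (pw hp1 T.ndvd_1_Fx m) a3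
  rw [hs1] at b3
  have b3' := hp1.pow_dvd_of_dvd_mul_left _ (pw hp1 ndvd_1_0 _) b3
  rw [hs2] at b3'
  obtain ⟨s3, hs3⟩ := hp1.pow_dvd_of_dvd_mul_left _ (pw hp1 T.ndvd_1_s0 _) b3'
  have a4 : (X 1 + x ^ 3 : Plane k) ^ m ∣ (x ^ 2 * y * z + x ^ 6) ^ m * r := by
    refine ⟨(X 1) ^ m * (X 0 ^ (3 * m) * (X 0 + y) ^ (3 * m)) * r1, ?_⟩
    rw [mul_comm _ r, e1, hFz]
    ring
  have b4 := hq1.pow_dvd_of_dvd_mul_left _ (pw hq1 T.ndvd_s1_Fx m) a4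
  rw [hs1] at b4
  have b4' := hq1.pow_dvd_of_dvd_mul_left _ (pw hq1 T.ndvd_s1_0 _) b4
  rw [hs2] at b4'
  have b4'' := hq1.pow_dvd_of_dvd_mul_left _ (pw hq1 T.ndvd_s1_s0 _) b4'
  rw [hs3] at b4''
  obtain ⟨s4, hs4⟩ := hq1.pow_dvd_of_dvd_mul_left _ (pw hq1 T.ndvd_s1_1 _) b4''
  refine ⟨s4, ?_⟩
  rw [hs1, hs2, hs3, hs4, hFz]
  ring

/-- Values of a vector field on `x`, `y`. -/
theorem TwoData.vf_eq {p q a : Plane k}
    (h : (1 + X 0 * X 1 * x ^ 2) * a = p * y + X 0 * x ^ 3 * q) :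
    vf p q x = a ∧ vf p q y = x ^ 3 * q + X 1 * x ^ 2 * a := by
  have h2 := two_eq_zero k
  have e1 : vf p q x = p * y + X 0 * vf p q y := by
    have := congrArg (vf p q) T.hx
    rw [map_add, Derivation.leibniz, Derivation.leibniz_pow, vf_X0] at this
    simp only [smul_eq_mul, nsmul_eq_mul] at this
    push_cast at this
    linear_combination this + (X 0 * p) * h2
  have e2 : vf p q y = x ^ 3 * q + X 1 * x ^ 2 * vf p q x := by
    have := congrArg (vf p q) T.hy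
    rw [map_add, Derivation.leibniz, Derivation.leibniz_pow, Derivation.leibniz_pow,
      vf_X1] at this
    simp only [smul_eq_mul, nsmul_eq_mul] at this
    push_cast at this
    linear_combination this + (X 1 * q + X 1 * x ^ 2 * vf p q x) * h2
  have e3 : (1 + X 0 * X 1 * x ^ 2) * (vf p q x - a) = 0 := by
    linear_combination e1 + X 0 * e2 - h + X 0 * X 1 * x ^ 2 * vf p q x * h2
  have e4 : vf p q x = a := by
    rcases mul_eq_zero.mp e3 with h | h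
    · exfalso
      have := congrArg (constantCoeff (σ := Fin 2) (R := k)) h
      simp at this
    · exact sub_eq_zero.mp h
  exact ⟨e4, by rw [e2, e4]⟩

theorem TwoData.vf1 : vf (x ^ 3) (x ^ 2 * y * X 1) x = x ^ 3 * y ∧
    vf (x ^ 3) (x ^ 2 * y * X 1) y = 0 := by
  have h2 := two_eq_zero k
  obtain ⟨a, b⟩ := T.vf_eq (p := x ^ 3) (q := x ^ 2 * y * X 1) (a := x ^ 3 * y) (by ring)
  exact ⟨a, by rw [b]; linear_combination (X 1 * x ^ 5 * y) * h2⟩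

theorem TwoData.vf2 : vf (X 0 * x ^ 3) y x = 0 ∧ vf (X 0 * x ^ 3) y y = x ^ 3 * y := by
  have h2 := two_eq_zero k
  obtain ⟨a, b⟩ := T.vf_eq (p := X 0 * x ^ 3) (q := y) (a := 0)
    (by linear_combination (-(X 0 * x ^ 3 * y)) * h2)
  exact ⟨a, by rw [b]; ring⟩

theorem TwoData.vf3 :
    vf (x ^ 3 * X 1 + y + X 0 * x ^ 2 * z) (x ^ 2 * X 1 * z + x ^ 2 * y * X 0 + x ^ 3) x =
      x ^ 3 * z + y ^ 2 ∧
    vf (x ^ 3 * X 1 + y + X 0 * x ^ 2 * z) (x ^ 2 * X 1 * z + x ^ 2 * y * X 0 + x ^ 3) y =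
      x ^ 2 * y * z + x ^ 6 := by
  have h2 := two_eq_zero k
  have hz := T.hz
  obtain ⟨a, b⟩ := T.vf_eq (p := x ^ 3 * X 1 + y + X 0 * x ^ 2 * z)
    (q := x ^ 2 * X 1 * z + x ^ 2 * y * X 0 + x ^ 3) (a := x ^ 3 * z + y ^ 2) (by
      linear_combination (x ^ 3 - X 0 * x ^ 2 * y) * hz - (X 0 ^ 2 * x ^ 5 * y) * h2)
  refine ⟨a, ?_⟩
  rw [b]
  linear_combination (-(x ^ 2 * y)) * hz + (X 1 * x ^ 5 * z) * h2

end Hartogs

end Pool.Agent.WildPlane
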