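import Pool.Agent.helper19.WildTwoB

namespace Pool.Agent.WildPlane

open IsLocalRing MvPowerSeries

section Alg2

variable {L : Type*} [Field L]

theorem alg_two_c {a b c a1 b1 c1 a2 b2 c2 : L} {Fx Fy Fz : L}
    (h1 : Fx * a1 + Fy * b1 + Fz * c1 = 0) (h2 : Fx * a2 + Fy * b2 + Fz * c2 = 0)
    (_ : a = a) (_ : b = b) (_ : c = c) :
    (a1 * b2 - b1 * a2) * Fx = Fz * (b1 * c2 - c1 * b2) ∧
    (a1 * b2 - b1 * a2) * Fy = Fz * (c1 * a2 - a1 * c2) := by
  constructor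
  · linear_combination b2 * h1 - b1 * h2
  · linear_combination a1 * h2 - a2 * h1

end Alg2

section TwoK

variable {k : Type*} [Field k] [CharP k 2]
variable {x y z : Plane k} {σ : Plane k ≃ₐ[k] Plane k}

/-- `x` as an invariant. -/
noncomputable def TwoData.xR (T : TwoData σ x y z) : invariants σ := ⟨x, T.hσx⟩
/-- `y` as an invariant. -/
noncomputable def TwoData.yR (T : TwoData σ x y z) : invariants σ := ⟨y, T.hσy⟩
/-- `z` as an invariant. -/
noncomputable def TwoData.zR (T : TwoData σ x y z) : invariants σ := ⟨z, T.hσz⟩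

variable (T : TwoData σ x y z)

include T

omit [CharP k 2] in
theorem TwoData.x_ne : x ≠ 0 := by
  intro h
  apply (prime_X (k := k) 0).ne_zero
  have hx := T.hx
  have hy := T.hy
  rw [h] at hx hy
  have hXX : (X 0 : Plane k) * (X 0 + y) = 0 := by linear_combination -hx
  rcases mul_eq_zero.mp hXX with h | h
  · exact h
  · exfalso
    have hy0 : y = X 1 ^ 2 := by rw [hy]; ring
    have := congrArg (coeff (Finsupp.single (0 : Fin 2) 1)) h
    rw [map_add, coeff_X, if_pos rfl, hy0, MvPowerSeries.coeff_X_pow] at this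
    simp [Finsupp.single_eq_single_iff] at this

omit [CharP k 2] in
theorem TwoData.y_ne : y ≠ 0 := fun h => by
  have h1 := T.ndvd_0_y
  rw [h] at h1
  exact h1 (dvd_zero _)

variable (K : Type*) [Field K] [Algebra k K] [Algebra (invariants σ) K]
  [IsScalarTower k (invariants σ) K] [IsFractionRing (invariants σ) K]

/-- `x` in the function field. -/
noncomputable def TwoData.xK : K := algebraMap (invariants σ) K T.xR
/-- `y` in the function field. -/
noncomputable def TwoData.yK : K := algebraMap (invariants σ) K T.yR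
/-- `z` in the function field. -/
noncomputable def TwoData.zK : K := algebraMap (invariants σ) K T.zR

omit [CharP k 2] T [Algebra k K] [IsScalarTower k (invariants σ) K] in
theorem injK : Function.Injective (algebraMap (invariants σ) K) := IsFractionRing.injective _ _

omit [CharP k 2] [Algebra k K] [IsScalarTower k (invariants σ) K] in
theorem TwoData.xK_ne : T.xK K ≠ 0 := fun h =>
  T.x_ne (congrArg Subtype.val (injK (σ := σ) K (h.trans (map_zero _).symm)))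

omit [CharP k 2] [Algebra k K] [IsScalarTower k (invariants σ) K] in
theorem TwoData.yK_ne : T.yK K ≠ 0 := fun h =>
  T.y_ne (congrArg Subtype.val (injK (σ := σ) K (h.trans (map_zero _).symm)))

omit [Algebra k K] [IsScalarTower k (invariants σ) K] [IsFractionRing (invariants σ) K] in
theorem TwoData.relK : T.zK K ^ 2 + T.xK K ^ 3 * T.yK K * T.zK K + T.yK K ^ 3 + T.xK K ^ 7 = 0 := by
  have h : T.zR ^ 2 + T.xR ^ 3 * T.yR * T.zR + T.yR ^ 3 + T.xR ^ 7 = 0 := Subtype.ext T.rel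
  have := congrArg (algebraMap (invariants σ) K) h
  simp only [map_add, map_mul, map_pow, map_zero] at this
  exact this

omit [IsScalarTower k (invariants σ) K] [IsFractionRing (invariants σ) K] in
theorem TwoData.derK (D : Derivation k K K) :
    (T.xK K ^ 2 * T.yK K * T.zK K + T.xK K ^ 6) * D (T.xK K) +
      (T.xK K ^ 3 * T.zK K + T.yK K ^ 2) * D (T.yK K) +
      T.xK K ^ 3 * T.yK K * D (T.zK K) = 0 := by
  have h2 := charTwo_frac k K
  have := congrArg D (T.relK K)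
  simp only [map_add, map_zero, D.leibniz, D.leibniz_pow, smul_eq_mul, nsmul_eq_mul] at this
  push_cast at this
  linear_combination this - (T.zK K * D (T.zK K) + T.yK K * T.zK K * T.xK K ^ 2 * D (T.xK K)
    + T.yK K ^ 2 * D (T.yK K) + 3 * T.xK K ^ 6 * D (T.xK K)) * h2

omit [IsScalarTower k (invariants σ) K] in
/-- The 2-form `dx ∧ dy / (x³ y)` is regular on the quotient. -/
theorem TwoData.wedge_mem {D₁ D₂ : Derivation k K K}
    (h₁ : RegularOn (Set.range (algebraMap (invariants σ) K)) D₁)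
    (h₂ : RegularOn (Set.range (algebraMap (invariants σ) K)) D₂) :
    ∃ g : invariants σ, wedge (T.xK K) (T.yK K) D₁ D₂ =
      T.xK K ^ 3 * T.yK K * algebraMap (invariants σ) K g := by
  have hinj := injK (σ := σ) K
  obtain ⟨a1, ha1⟩ := h₁ (T.xK K) ⟨T.xR, rfl⟩
  obtain ⟨b1, hb1⟩ := h₁ (T.yK K) ⟨T.yR, rfl⟩
  obtain ⟨c1, hc1⟩ := h₁ (T.zK K) ⟨T.zR, rfl⟩
  obtain ⟨a2, ha2⟩ := h₂ (T.xK K) ⟨T.xR, rfl⟩
  obtain ⟨b2, hb2⟩ := h₂ (T.yK K) ⟨T.yR, rfl⟩
  obtain ⟨c2, hc2⟩ := h₂ (T.zK K) ⟨T.zR, rfl⟩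
  have e1 := T.derK K D₁
  have e2 := T.derK K D₂
  obtain ⟨f1, f2⟩ := alg_two_c (a := (0 : K)) (b := (0 : K)) (c := (0 : K)) e1 e2 rfl rfl rfl
  rw [← ha1, ← hb1, ← hc1, ← ha2, ← hb2, ← hc2] at f1 f2
  have g1 : (a1 * b2 - b1 * a2) * (T.xR ^ 2 * T.yR * T.zR + T.xR ^ 6) ^ 1 =
      (T.xR ^ 3 * T.yR) ^ 1 * (b1 * c2 - c1 * b2) := by
    apply hinj
    simp only [pow_one]
    simp only [map_add, map_mul, map_pow, map_sub]
    exact f1
  have g2 : (a1 * b2 - b1 * a2) * (T.xR ^ 3 * T.zR + T.yR ^ 2) ^ 1 =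
      (T.xR ^ 3 * T.yR) ^ 1 * (c1 * a2 - a1 * c2) := by
    apply hinj
    simp only [pow_one]
    simp only [map_add, map_mul, map_pow, map_sub]
    exact f2
  obtain ⟨g, hg⟩ := T.hartogs 1 (congrArg Subtype.val g1) (congrArg Subtype.val g2)
  rw [pow_one] at hg
  have hne : x ^ 3 * y ≠ 0 := mul_ne_zero (pow_ne_zero 3 T.x_ne) T.y_ne
  have hσg : σ g = g := by
    refine invariant_of_mul hne (a1 * b2 - b1 * a2).2 ?_ hg
    rw [map_mul, map_pow, T.hσx, T.hσy]
  refine ⟨⟨g, hσg⟩, ?_⟩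
  have hR : a1 * b2 - b1 * a2 = T.xR ^ 3 * T.yR * ⟨g, hσg⟩ := Subtype.ext hg
  have := congrArg (algebraMap (invariants σ) K) hR
  rw [map_sub, map_mul, map_mul, map_mul, map_mul, map_pow] at this
  rw [wedge, ← ha1, ← hb1, ← ha2, ← hb2]
  exact this

variable [PerfectRing k 2]

/-- The three basic vector fields. -/
theorem TwoData.fields : ∃ E1 E2 E3 : Derivation k K K,
    RegularOn (Set.range (algebraMap (invariants σ) K)) E1 ∧
    RegularOn (Set.range (algebraMap (invariants σ) K)) E2 ∧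
    RegularOn (Set.range (algebraMap (invariants σ) K)) E3 ∧
    (E1 (T.xK K) = T.xK K ^ 3 * T.yK K ∧ E1 (T.yK K) = 0) ∧
    (E2 (T.xK K) = 0 ∧ E2 (T.yK K) = T.xK K ^ 3 * T.yK K) ∧
    (E3 (T.xK K) = T.xK K ^ 3 * T.zK K + T.yK K ^ 2 ∧
      E3 (T.yK K) = T.xK K ^ 2 * T.yK K * T.zK K + T.xK K ^ 6) := by
  have h2 := two_eq_zero k
  obtain ⟨a1, b1⟩ := T.vf1
  obtain ⟨a2, b2⟩ := T.vf2
  obtain ⟨a3, b3⟩ := T.vf3
  have hz := T.hσz
  obtain ⟨E1, r1, e1⟩ := exists_field (σ := σ) K (p := x ^ 3) (q := x ^ 2 * y * X 1)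
    (by rw [T.h0, map_add, vf_X0, b1, map_pow, T.hσx, add_zero])
    (by
      rw [T.h1, map_add, vf_X1, Derivation.leibniz_pow, a1, map_mul, map_mul, map_pow, T.hσx,
        T.hσy, T.h1]
      simp only [smul_eq_mul, nsmul_eq_mul]
      push_cast
      linear_combination (x ^ 5 * y) * h2)
  obtain ⟨E2, r2, e2⟩ := exists_field (σ := σ) K (p := X 0 * x ^ 3) (q := y)
    (by rw [T.h0, map_add, vf_X0, b2, map_mul, map_pow, T.hσx, T.h0]; ring)
    (by
      rw [T.h1, map_add, vf_X1, Derivation.leibniz_pow, a2, T.hσy]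
      simp)
  obtain ⟨E3, r3, e3⟩ := exists_field (σ := σ) K (p := x ^ 3 * X 1 + y + X 0 * x ^ 2 * z)
    (q := x ^ 2 * X 1 * z + x ^ 2 * y * X 0 + x ^ 3)
    (by
      rw [T.h0, map_add, vf_X0, b3]
      simp only [map_add, map_mul, map_pow, T.hσx, T.hσy, hz, T.h0, T.h1]
      ring)
    (by
      rw [T.h1, map_add, vf_X1, Derivation.leibniz_pow, a3]
      simp only [map_add, map_mul, map_pow, T.hσx, T.hσy, hz, T.h0, T.h1]
      simp only [smul_eq_mul, nsmul_eq_mul]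
      push_cast
      linear_combination (x ^ 5 * z + x ^ 2 * y ^ 2) * h2)
  refine ⟨E1, E2, E3, r1, r2, r3, ⟨?_, ?_⟩, ⟨?_, ?_⟩, ⟨?_, ?_⟩⟩
  · have := e1 T.xR (T.xR ^ 3 * T.yR) (by push_cast; exact a1)
    rw [map_mul, map_pow] at this
    exact this
  · have := e1 T.yR 0 b1
    rw [map_zero] at this
    exact this
  · have := e2 T.xR 0 a2
    rw [map_zero] at this
    exact this
  · have := e2 T.yR (T.xR ^ 3 * T.yR) (by push_cast; exact b2)
    rw [map_mul, map_pow] at this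
    exact this
  · have := e3 T.xR (T.xR ^ 3 * T.zR + T.yR ^ 2) (by push_cast; exact a3)
    rw [map_add, map_mul, map_pow, map_pow] at this
    exact this
  · have := e3 T.yR (T.xR ^ 2 * T.yR * T.zR + T.xR ^ 6) (by push_cast; exact b3)
    rw [map_add, map_mul, map_mul, map_pow, map_pow] at this
    exact this

/-- The form `(dx ∧ dy / (x³ y))^{⊗ m}` generates the `m`-canonical module. -/
theorem TwoData.generator (m : ℕ) (hm : 0 < m) :
    IsCanonicalGenerator k (invariants σ) (T.xK K) (T.yK K) m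
      ((T.xK K ^ 3 * T.yK K) ^ m)⁻¹ := by
  have hF : T.xK K ^ 3 * T.yK K ≠ 0 :=
    mul_ne_zero (pow_ne_zero 3 (T.xK_ne K)) (T.yK_ne K)
  have hinj := injK (σ := σ) K
  refine ⟨hm, inv_ne_zero (pow_ne_zero m hF), ?_⟩
  intro f
  constructor
  · intro hf
    obtain ⟨E1, E2, E3, r1, r2, r3, ⟨x1, y1⟩, ⟨x2, y2⟩, ⟨x3, y3⟩⟩ := T.fields K
    obtain ⟨s, hs⟩ := hf E1 E2 r1 r2
    obtain ⟨t1, ht1⟩ := hf E1 E3 r1 r3
    obtain ⟨t2, ht2⟩ := hf E3 E2 r3 r2
    rw [wedge, x1, y1, x2, y2] at hs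
    rw [wedge, x1, y1, x3, y3] at ht1
    rw [wedge, x3, y3, x2, y2] at ht2
    have e1 : s * (T.xR ^ 2 * T.yR * T.zR + T.xR ^ 6) ^ m = (T.xR ^ 3 * T.yR) ^ m * t1 := by
      apply hinj
      simp only [map_mul, map_pow, map_add]
      rw [hs, ht1]
      change f * (T.xK K ^ 3 * T.yK K * (T.xK K ^ 3 * T.yK K) - 0 * 0) ^ m *
        (T.xK K ^ 2 * T.yK K * T.zK K + T.xK K ^ 6) ^ m = (T.xK K ^ 3 * T.yK K) ^ m *
          (f * (T.xK K ^ 3 * T.yK K * (T.xK K ^ 2 * T.yK K * T.zK K + T.xK K ^ 6) -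
            0 * (T.xK K ^ 3 * T.zK K + T.yK K ^ 2)) ^ m)
      rw [zero_mul, zero_mul, sub_zero, sub_zero, mul_pow _ (T.xK K ^ 3 * T.yK K),
        mul_pow (T.xK K ^ 3 * T.yK K) (T.xK K ^ 2 * T.yK K * T.zK K + T.xK K ^ 6)]
      ring
    have e2 : s * (T.xR ^ 3 * T.zR + T.yR ^ 2) ^ m = (T.xR ^ 3 * T.yR) ^ m * t2 := by
      apply hinj
      simp only [map_mul, map_pow, map_add]
      rw [hs, ht2]
      change f * (T.xK K ^ 3 * T.yK K * (T.xK K ^ 3 * T.yK K) - 0 * 0) ^ m *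
        (T.xK K ^ 3 * T.zK K + T.yK K ^ 2) ^ m = (T.xK K ^ 3 * T.yK K) ^ m *
          (f * ((T.xK K ^ 3 * T.zK K + T.yK K ^ 2) * (T.xK K ^ 3 * T.yK K) -
            (T.xK K ^ 2 * T.yK K * T.zK K + T.xK K ^ 6) * 0) ^ m)
      rw [zero_mul, mul_zero, sub_zero, sub_zero, mul_pow _ (T.xK K ^ 3 * T.yK K),
        mul_pow (T.xK K ^ 3 * T.zK K + T.yK K ^ 2) (T.xK K ^ 3 * T.yK K)]
      ring
    obtain ⟨g, hg⟩ := T.hartogs m (congrArg Subtype.val e1) (congrArg Subtype.val e2)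
    have hne : (x ^ 3 * y) ^ m ≠ 0 :=
      pow_ne_zero m (mul_ne_zero (pow_ne_zero 3 T.x_ne) T.y_ne)
    have hσg : σ g = g := by
      refine invariant_of_mul hne s.2 ?_ hg
      rw [map_pow, map_mul, map_pow, T.hσx, T.hσy]
    have hR : s = (T.xR ^ 3 * T.yR) ^ m * ⟨g, hσg⟩ := Subtype.ext hg
    refine ⟨⟨g, hσg⟩, ?_⟩
    have := congrArg (algebraMap (invariants σ) K) hR
    rw [hs, map_mul, map_pow, map_mul, map_pow, zero_mul, sub_zero] at this
    change f * (T.xK K ^ 3 * T.yK K * (T.xK K ^ 3 * T.yK K)) ^ m =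
      (T.xK K ^ 3 * T.yK K) ^ m * _ at this
    rw [mul_pow] at this
    have hFm := pow_ne_zero m hF
    field_simp
    apply mul_left_cancel₀ hFm
    linear_combination this
  · rintro ⟨r, rfl⟩ D₁ D₂ h₁ h₂
    obtain ⟨g, hg⟩ := T.wedge_mem K h₁ h₂
    refine ⟨r * g ^ m, ?_⟩
    rw [hg, map_mul, map_pow, mul_pow (T.xK K ^ 3 * T.yK K) (algebraMap (invariants σ) K g)]
    have hFm := pow_ne_zero m hF
    field_simp

end TwoK

end Pool.Agent.WildPlane
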