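import Pool.Agent.helper19.WildTwoC

namespace Pool.Agent.WildPlane

open IsLocalRing MvPowerSeries

section TwoChain

variable {k : Type*} [Field k] [CharP k 2]
variable {x y z : Plane k} {σ : Plane k ≃ₐ[k] Plane k}
variable (T : TwoData σ x y z) {hx1 : OrdGe 1 x} {hy1 : OrdGe 1 y}
  (hφ : ∀ f, σ (sub hx1 hy1 f) = sub hx1 hy1 f)

/-- `k⟦X, Y⟧ → A^G`. -/
noncomputable def phiR (hφ : ∀ f, σ (sub hx1 hy1 f) = sub hx1 hy1 f) :
    Plane k →ₐ[k] invariants σ := (sub hx1 hy1).codRestrict (invariants σ) hφ

omit [CharP k 2] in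
theorem coe_phiR (f : Plane k) : ((phiR hφ f : invariants σ) : Plane k) = sub hx1 hy1 f := rfl

omit [CharP k 2] in
include T in
theorem phiR_X0 : phiR hφ (X 0) = T.xR := Subtype.ext (sub_X0 hx1 hy1)

omit [CharP k 2] in
include T in
theorem phiR_X1 : phiR hφ (X 1) = T.yR := Subtype.ext (sub_X1 hx1 hy1)

include T in
/-- Every invariant is `φ(α) + φ(β) z`. -/
theorem exists_phiR (r : invariants σ) :
    ∃ α β : Plane k, r = phiR hφ α + phiR hφ β * T.zR := by
  obtain ⟨α, β, h⟩ := two_structure T.hx T.hy hx1 hy1 T.h0 T.h1 hφ r.2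
  refine ⟨α, β, Subtype.ext ?_⟩
  rw [← T.hz] at h
  exact h

variable (K : Type*) [Field K] [Algebra k K] [Algebra (invariants σ) K]
  [IsScalarTower k (invariants σ) K] [IsFractionRing (invariants σ) K]

variable [PerfectRing k 2]

include T in
omit [IsScalarTower k (invariants σ) K] [IsFractionRing (invariants σ) K] in
/-- Chain rule. -/
theorem chain_rule (D : Derivation k K K) (f : Plane k) :
    D (algebraMap (invariants σ) K (phiR hφ f)) =
      algebraMap (invariants σ) K (phiR hφ (pderiv k 0 f)) * D (T.xK K) +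
      algebraMap (invariants σ) K (phiR hφ (pderiv k 1 f)) * D (T.yK K) := by
  have h2 := charTwo_frac k K
  have h2A := two_eq_zero k
  let ψ : Plane k →+* K := (algebraMap (invariants σ) K).comp (phiR hφ : Plane k →+* invariants σ)
  have hψX0 : ψ (X 0) = T.xK K := congrArg (algebraMap (invariants σ) K) (phiR_X0 T hφ)
  have hψX1 : ψ (X 1) = T.yK K := congrArg (algebraMap (invariants σ) K) (phiR_X1 T hφ)
  let δ : Plane k →+ K :=
    { toFun := fun f => D (ψ f) - (ψ (pderiv k 0 f) * D (T.xK K) + ψ (pderiv k 1 f) * D (T.yK K))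
      map_zero' := by simp
      map_add' := fun f g => by simp only [map_add]; ring }
  have hδ : ∀ f, δ f = D (ψ f) -
    (ψ (pderiv k 0 f) * D (T.xK K) + ψ (pderiv k 1 f) * D (T.yK K)) := fun f => rfl
  have hsq : ∀ f g : Plane k, δ (f * g ^ 2) = ψ g ^ 2 * δ f := by
    intro f g
    have hp : ∀ i : Fin 2, pderiv k i (f * g ^ 2) = g ^ 2 * pderiv k i f := by
      intro i
      rw [Derivation.leibniz, Derivation.leibniz_pow]
      simp only [smul_eq_mul, nsmul_eq_mul]
      push_cast
      linear_combination (f * g * pderiv k i g) * h2A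
    rw [hδ, hδ, hp, hp, map_mul, D.leibniz, map_pow, D.leibniz_pow, map_mul, map_mul, map_pow]
    simp only [smul_eq_mul, nsmul_eq_mul]
    push_cast
    linear_combination (ψ f * ψ g * D (ψ g)) * h2
  have key := eq_zero_of_sq_linear (k := k) δ
    (by intro f hf g; rw [hsq, hf, mul_zero])
    (by rw [hδ, map_one, D.map_one_eq_zero, Derivation.map_one_eq_zero,
          Derivation.map_one_eq_zero, map_zero]; ring)
    (by
      rw [hδ, hψX0, pderiv_X_self, pderiv_X_of_ne (by decide), map_one, map_zero]; ring)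
    (by
      rw [hδ, hψX1, pderiv_X_self, pderiv_X_of_ne (by decide), map_one, map_zero]; ring)
    (by
      rw [hδ, map_mul, D.leibniz, hψX0, hψX1]
      simp only [Derivation.leibniz, smul_eq_mul, pderiv_X_self]
      rw [pderiv_X_of_ne (by decide), pderiv_X_of_ne (by decide)]
      simp only [mul_zero, mul_one, map_add, map_zero, hψX0, hψX1]
      ring) f
  rw [hδ, sub_eq_zero] at key
  exact key

include T hφ in
omit [IsScalarTower k (invariants σ) K] [IsFractionRing (invariants σ) K] in
/-- The values of all vector fields on an invariant are combinations of those on `x`, `y`, `z`. -/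
theorem der_phiR (r : invariants σ) : ∃ p q s : invariants σ, ∀ D : Derivation k K K,
    D (algebraMap (invariants σ) K r) = algebraMap (invariants σ) K p * D (T.xK K) +
      algebraMap (invariants σ) K q * D (T.yK K) +
      algebraMap (invariants σ) K s * D (T.zK K) := by
  obtain ⟨α, β, rfl⟩ := exists_phiR T hφ r
  refine ⟨phiR hφ (pderiv k 0 α) + T.zR * phiR hφ (pderiv k 0 β),
    phiR hφ (pderiv k 1 α) + T.zR * phiR hφ (pderiv k 1 β), phiR hφ β, ?_⟩
  intro D
  rw [map_add, map_mul, map_add, D.leibniz, chain_rule T hφ K, chain_rule T hφ K]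
  simp only [smul_eq_mul, map_add, map_mul]
  change _ + (_ * D (T.zK K) + T.zK K * _) = _
  change _ = (_ + T.zK K * _) * _ + (_ + T.zK K * _) * _ + _
  ring

include T hφ in
omit [IsScalarTower k (invariants σ) K] in
/-- The module of rational vector fields has rank at most two. -/
theorem der_two_dim (f : K) : ∃ p q : K, ∀ D : Derivation k K K,
    D f = p * D (T.xK K) + q * D (T.yK K) := by
  have hF : T.xK K ^ 3 * T.yK K ≠ 0 :=
    mul_ne_zero (pow_ne_zero 3 (T.xK_ne K)) (T.yK_ne K)
  have hR : ∀ r : invariants σ, ∃ p q : K, ∀ D : Derivation k K K,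
      D (algebraMap (invariants σ) K r) = p * D (T.xK K) + q * D (T.yK K) := by
    intro r
    obtain ⟨p, q, s, h⟩ := der_phiR T hφ K r
    refine ⟨algebraMap (invariants σ) K p - algebraMap (invariants σ) K s *
      ((T.xK K ^ 2 * T.yK K * T.zK K + T.xK K ^ 6) / (T.xK K ^ 3 * T.yK K)),
      algebraMap (invariants σ) K q - algebraMap (invariants σ) K s *
      ((T.xK K ^ 3 * T.zK K + T.yK K ^ 2) / (T.xK K ^ 3 * T.yK K)), ?_⟩
    intro D
    have hz : D (T.zK K) = -((T.xK K ^ 2 * T.yK K * T.zK K + T.xK K ^ 6) * D (T.xK K) +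
      (T.xK K ^ 3 * T.zK K + T.yK K ^ 2) * D (T.yK K)) / (T.xK K ^ 3 * T.yK K) := by
      rw [eq_div_iff hF]
      linear_combination T.derK K D
    rw [h D, hz]
    ring
  obtain ⟨a, b, hb, rfl⟩ := IsFractionRing.div_surjective (A := invariants σ) f
  have hb0 : algebraMap (invariants σ) K b ≠ 0 := by
    intro h
    exact nonZeroDivisors.ne_zero hb (injK (σ := σ) K (h.trans (map_zero _).symm))
  obtain ⟨p, q, hpq⟩ := hR a
  obtain ⟨p', q', hpq'⟩ := hR b
  refine ⟨(p * algebraMap (invariants σ) K b - algebraMap (invariants σ) K a * p') /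
    algebraMap (invariants σ) K b ^ 2,
    (q * algebraMap (invariants σ) K b - algebraMap (invariants σ) K a * q') /
    algebraMap (invariants σ) K b ^ 2, ?_⟩
  intro D
  have h1 : D (algebraMap (invariants σ) K a / algebraMap (invariants σ) K b) *
      algebraMap (invariants σ) K b ^ 2 =
      D (algebraMap (invariants σ) K a) * algebraMap (invariants σ) K b -
      algebraMap (invariants σ) K a * D (algebraMap (invariants σ) K b) := by
    have h3 : algebraMap (invariants σ) K a = algebraMap (invariants σ) K a /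
      algebraMap (invariants σ) K b * algebraMap (invariants σ) K b := by field_simp
    have h4 := congrArg D h3
    rw [D.leibniz, smul_eq_mul, smul_eq_mul] at h4
    rw [h4]
    field_simp
    ring
  rw [hpq D, hpq' D] at h1
  field_simp
  linear_combination h1

include T hφ in
omit [IsScalarTower k (invariants σ) K] in
/-- Change of coordinates for 2-forms. -/
theorem wedge_change (x' y' : K) : ∃ c : K, ∀ D₁ D₂ : Derivation k K K,
    wedge x' y' D₁ D₂ = c * wedge (T.xK K) (T.yK K) D₁ D₂ := by
  obtain ⟨p, q, h⟩ := der_two_dim T hφ K x'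
  obtain ⟨p', q', h'⟩ := der_two_dim T hφ K y'
  refine ⟨p * q' - q * p', ?_⟩
  intro D₁ D₂
  rw [wedge, wedge, h D₁, h D₂, h' D₁, h' D₂]
  ring

end TwoChain

end Pool.Agent.WildPlane
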