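import Pool.Agent.helper19.WildPull

namespace Pool.Agent.WildPlane

open IsLocalRing

section Poly

variable {k : Type*} [Field k]

/-- `s²` and `s³` separate even and odd parts. -/
theorem poly_separate {p0 p1 : Polynomial k}
    (h : Polynomial.aeval ((RatFunc.X : RatFunc k) ^ 2) p0 +
      Polynomial.aeval ((RatFunc.X : RatFunc k) ^ 2) p1 * RatFunc.X ^ 3 = 0) :
    p0 = 0 ∧ p1 = 0 := by
  have he : ∀ p : Polynomial k, Polynomial.aeval ((RatFunc.X : RatFunc k) ^ 2) p =
      algebraMap (Polynomial k) (RatFunc k) (Polynomial.expand k 2 p) := by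
    intro p
    have h1 : (RatFunc.X : RatFunc k) ^ 2 =
        algebraMap (Polynomial k) (RatFunc k) (Polynomial.X ^ 2) := by
      rw [map_pow, RatFunc.algebraMap_X]
    rw [h1, Polynomial.aeval_algebraMap_apply]
    rfl
  have hX : (RatFunc.X : RatFunc k) ^ 3 =
      algebraMap (Polynomial k) (RatFunc k) (Polynomial.X ^ 3) := by
    rw [map_pow, RatFunc.algebraMap_X]
  rw [he, he, hX, ← map_mul, ← map_add] at h
  have h0 : Polynomial.expand k 2 p0 + Polynomial.expand k 2 p1 * Polynomial.X ^ 3 = 0 :=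
    IsFractionRing.injective (Polynomial k) (RatFunc k) (h.trans (map_zero _).symm)
  have hp0 : p0 = 0 := by
    ext n
    have h1 := congrArg (fun q : Polynomial k => q.coeff (2 * n)) h0
    simp only [Polynomial.coeff_add, Polynomial.coeff_mul_X_pow', Polynomial.coeff_zero] at h1
    rw [Polynomial.coeff_expand (by norm_num), if_pos ⟨n, rfl⟩,
      Polynomial.coeff_expand (by norm_num)] at h1
    have h2 : 2 * n / 2 = n := by omega
    rw [h2] at h1
    rw [Polynomial.coeff_zero, ← h1]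
    split_ifs with h3 h4
    · exfalso; omega
    · rw [add_zero]
    · rw [add_zero]
  refine ⟨hp0, ?_⟩
  rw [hp0, map_zero, zero_add] at h0
  rcases mul_eq_zero.mp h0 with h1 | h1
  · exact (Polynomial.expand_eq_zero (by norm_num)).mp h1
  · exact absurd h1 (pow_ne_zero 3 Polynomial.X_ne_zero)

end Poly

section Chart

variable {k : Type*} [Field k] [CharP k 2]
variable {x y z : Plane k} {σ : Plane k ≃ₐ[k] Plane k}
variable (T : TwoData σ x y z) {hx1 : OrdGe 1 x} {hy1 : OrdGe 1 y}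
  (hφ : ∀ f, σ (sub hx1 hy1 f) = sub hx1 hy1 f)
variable (K : Type*) [Field K] [Algebra k K] [Algebra (invariants σ) K]
  [IsScalarTower k (invariants σ) K] [IsFractionRing (invariants σ) K]

/-- `Y = y / x²`. -/
noncomputable def TwoData.Y : K := T.yK K / T.xK K ^ 2
/-- `Z = z / x³`. -/
noncomputable def TwoData.Z : K := T.zK K / T.xK K ^ 3

/-- The finitely generated algebra `B = R[Y, Z]`. -/
noncomputable def TwoData.B : Subalgebra (invariants σ) K :=
  Algebra.adjoin (invariants σ) ({T.Y K, T.Z K} : Set K)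

omit [CharP k 2] [Algebra k K] [IsScalarTower k (invariants σ) K] in
theorem TwoData.yK_eq : T.yK K = T.xK K ^ 2 * T.Y K := by
  have := T.xK_ne K
  unfold TwoData.Y; field_simp

omit [Algebra k K] [IsScalarTower k (invariants σ) K] in
theorem TwoData.zK_eq : T.zK K = T.xK K ^ 3 * T.Z K := by
  have := T.xK_ne K
  unfold TwoData.Z; field_simp

omit [Algebra k K] [IsScalarTower k (invariants σ) K] in
theorem TwoData.relYZ : T.Z K ^ 2 + T.xK K ^ 2 * T.Y K * T.Z K + T.Y K ^ 3 + T.xK K = 0 := by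
  have h := T.relK K
  rw [T.yK_eq K, T.zK_eq K] at h
  have h6 : T.xK K ^ 6 ≠ 0 := pow_ne_zero 6 (T.xK_ne K)
  apply mul_left_cancel₀ h6
  linear_combination h

omit [Algebra k K] [IsScalarTower k (invariants σ) K] [IsFractionRing (invariants σ) K] in
theorem TwoData.Y_mem : T.Y K ∈ T.B K := Algebra.subset_adjoin (by simp)
omit [Algebra k K] [IsScalarTower k (invariants σ) K] [IsFractionRing (invariants σ) K] in
theorem TwoData.Z_mem : T.Z K ∈ T.B K := Algebra.subset_adjoin (by simp)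
omit [Algebra k K] [IsScalarTower k (invariants σ) K] [IsFractionRing (invariants σ) K] in
theorem TwoData.R_mem (r : invariants σ) : algebraMap (invariants σ) K r ∈ T.B K :=
  (T.B K).algebraMap_mem r
omit [Algebra k K] [IsScalarTower k (invariants σ) K] [IsFractionRing (invariants σ) K] in
theorem TwoData.x_mem : T.xK K ∈ T.B K := T.R_mem K T.xR

omit [IsFractionRing (invariants σ) K] in
theorem TwoData.k_mem (c : k) : algebraMap k K c ∈ T.B K := by
  rw [IsScalarTower.algebraMap_apply k (invariants σ) K]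
  exact T.R_mem K _

omit [IsFractionRing (invariants σ) K] in
theorem TwoData.aeval_mem (p : Polynomial k) : Polynomial.aeval (T.Y K) p ∈ T.B K := by
  rw [Polynomial.aeval_eq_sum_range]
  refine Subalgebra.sum_mem _ (fun i _ => ?_)
  rw [Algebra.smul_def]
  exact (T.B K).mul_mem (T.k_mem K _) ((T.B K).pow_mem (T.Y_mem K) i)

include T hφ in
/-- `m_R` is generated by `x, y, z`. -/
theorem exists_phiR_decomp (r : invariants σ) : ∃ (c : k) (a b d : invariants σ),
    r = algebraMap k (invariants σ) c + T.xR * a + T.yR * b + T.zR * d := by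
  obtain ⟨α, β, rfl⟩ := exists_phiR T hφ r
  obtain ⟨c, g, hg, rfl⟩ := exists_const_add α
  obtain ⟨g0, g1, -, -, rfl⟩ := exists_decomp_of_ordGe (N := 0) hg
  refine ⟨c, phiR hφ g0, phiR hφ g1, phiR hφ β, ?_⟩
  rw [map_add, map_add, map_mul, map_mul, phiR_X0 T hφ, phiR_X1 T hφ]
  have : phiR hφ (MvPowerSeries.C c) = algebraMap k (invariants σ) c := (phiR hφ).commutes c
  rw [this]
  ring

include hφ in
/-- Modulo `x`, the algebra `B` is generated by `1` and `Z` over `k[Y]`. -/
theorem TwoData.B_mod {b : K} (hb : b ∈ T.B K) : ∃ (p0 p1 : Polynomial k) (b' : K),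
    b' ∈ T.B K ∧
    b = Polynomial.aeval (T.Y K) p0 + Polynomial.aeval (T.Y K) p1 * T.Z K + T.xK K * b' := by
  induction hb using Algebra.adjoin_induction with
  | mem b hb =>
    simp only [Set.mem_insert_iff, Set.mem_singleton_iff] at hb
    rcases hb with rfl | rfl
    · exact ⟨Polynomial.X, 0, 0, (T.B K).zero_mem, by simp⟩
    · exact ⟨0, 1, 0, (T.B K).zero_mem, by simp⟩
  | algebraMap r =>
    obtain ⟨c, a, b, d, rfl⟩ := exists_phiR_decomp T hφ r
    refine ⟨Polynomial.C c, 0, algebraMap (invariants σ) K a +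
      T.xK K * T.Y K * algebraMap (invariants σ) K b +
      T.xK K ^ 2 * T.Z K * algebraMap (invariants σ) K d, ?_, ?_⟩
    · refine (T.B K).add_mem ((T.B K).add_mem (T.R_mem K a) ?_) ?_
      · exact (T.B K).mul_mem ((T.B K).mul_mem (T.x_mem K) (T.Y_mem K)) (T.R_mem K b)
      · exact (T.B K).mul_mem ((T.B K).mul_mem ((T.B K).pow_mem (T.x_mem K) 2) (T.Z_mem K))
          (T.R_mem K d)
    · simp only [map_add, map_mul, map_zero, zero_mul, add_zero, Polynomial.aeval_C]
      rw [← IsScalarTower.algebraMap_apply k (invariants σ) K]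
      change _ + T.xK K * _ + T.yK K * _ + T.zK K * _ = _
      rw [T.yK_eq K, T.zK_eq K]
      ring
  | add a b ha hb iha ihb =>
    obtain ⟨p0, p1, a', ha', rfl⟩ := iha
    obtain ⟨q0, q1, b', hb', rfl⟩ := ihb
    exact ⟨p0 + q0, p1 + q1, a' + b', (T.B K).add_mem ha' hb', by
      simp only [map_add]; ring⟩
  | mul a b ha hb iha ihb =>
    obtain ⟨p0, p1, a', ha', hea⟩ := iha
    obtain ⟨q0, q1, b', hb', heb⟩ := ihb
    refine ⟨p0 * q0 - p1 * q1 * Polynomial.X ^ 3, p0 * q1 + p1 * q0,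
      a' * b + (Polynomial.aeval (T.Y K) p0 + Polynomial.aeval (T.Y K) p1 * T.Z K) * b' -
      Polynomial.aeval (T.Y K) p1 * Polynomial.aeval (T.Y K) q1 *
        (1 + T.xK K * T.Y K * T.Z K), ?_, ?_⟩
    · refine (T.B K).sub_mem ((T.B K).add_mem ((T.B K).mul_mem ha' hb)
        ((T.B K).mul_mem ((T.B K).add_mem (T.aeval_mem K p0)
          ((T.B K).mul_mem (T.aeval_mem K p1) (T.Z_mem K))) hb')) ?_
      exact (T.B K).mul_mem ((T.B K).mul_mem (T.aeval_mem K p1) (T.aeval_mem K q1))
        ((T.B K).add_mem (T.B K).one_mem ((T.B K).mul_mem ((T.B K).mul_mem (T.x_mem K)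
          (T.Y_mem K)) (T.Z_mem K)))
    · simp only [map_add, map_sub, map_mul, map_pow, Polynomial.aeval_X]
      linear_combination b * hea + (Polynomial.aeval (T.Y K) p0 +
        Polynomial.aeval (T.Y K) p1 * T.Z K) * heb + Polynomial.aeval (T.Y K) p1 *
        Polynomial.aeval (T.Y K) q1 * T.relYZ K

variable {K}
variable {F : Type*} [Field F] [Algebra (WRing k) F] [IsFractionRing (WRing k) F]
  [Algebra k F] [IsScalarTower k (WRing k) F]
variable (ι : K →ₐ[k] F)
  (hι : ∀ r : invariants σ, ι (algebraMap (invariants σ) K r) =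
    algebraMap (WRing k) F (iota k (r : Plane k)))

open PowerSeries in
include hι in
omit [IsScalarTower k (invariants σ) K] [IsFractionRing (invariants σ) K]
  [IsScalarTower k (WRing k) F] in
theorem TwoData.local_YZ : ∃ ξ wY wZ : WRing k, ι (T.xK K) = algebraMap (WRing k) F (X ^ 2 * ξ) ∧
    ι (T.Y K) = algebraMap (WRing k) F wY ∧ ι (T.Z K) = algebraMap (WRing k) F wZ ∧
    constantCoeff ξ = 1 ∧ constantCoeff wY = RatFunc.X ^ 2 ∧
    constantCoeff wZ = RatFunc.X ^ 3 := by
  obtain ⟨ξ, η, ζ, hx, hy, hz, cξ, cη, cζ⟩ := exists_local T.hx T.hy T.hz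
  have hxK : ι (T.xK K) = algebraMap (WRing k) F (X ^ 2 * ξ) := by
    rw [← hx]; exact hι T.xR
  have hyK : ι (T.yK K) = algebraMap (WRing k) F (X ^ 4 * η) := by
    rw [← hy]; exact hι T.yR
  have hzK : ι (T.zK K) = algebraMap (WRing k) F (X ^ 6 * ζ) := by
    rw [← hz]; exact hι T.zR
  have hξ : ξ * ξ⁻¹ = 1 := PowerSeries.mul_inv_cancel ξ (by rw [cξ]; exact one_ne_zero)
  have hξc : constantCoeff ξ⁻¹ = 1 := by
    rw [PowerSeries.constantCoeff_inv, cξ, inv_one]
  have hxne : algebraMap (WRing k) F (X ^ 2 * ξ) ≠ 0 := by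
    intro h
    have h0 : (X : WRing k) ^ 2 * ξ = 0 :=
      IsFractionRing.injective (WRing k) F (h.trans (map_zero _).symm)
    rcases mul_eq_zero.mp h0 with h1 | h1
    · exact absurd h1 (pow_ne_zero 2 PowerSeries.X_ne_zero)
    · rw [h1, map_zero] at cξ
      exact zero_ne_one cξ
  refine ⟨ξ, η * ξ⁻¹ ^ 2, ζ * ξ⁻¹ ^ 3, hxK, ?_, ?_, cξ, ?_, ?_⟩
  · rw [TwoData.Y, map_div₀, map_pow, hxK, hyK, div_eq_iff (pow_ne_zero 2 hxne), ← map_pow,
      ← map_mul]
    congr 1
    linear_combination (-(X ^ 4 * η) * (ξ * ξ⁻¹ + 1)) * hξ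
  · rw [TwoData.Z, map_div₀, map_pow, hxK, hzK, div_eq_iff (pow_ne_zero 3 hxne), ← map_pow,
      ← map_mul]
    congr 1
    linear_combination (-(X ^ 6 * ζ) * ((ξ * ξ⁻¹) ^ 2 + ξ * ξ⁻¹ + 1)) * hξ
  · rw [map_mul, map_pow, hξc, cη]; ring
  · rw [map_mul, map_pow, hξc, cζ]; ring

include hι in
omit [IsScalarTower k (invariants σ) K] [IsFractionRing (invariants σ) K]
  [IsScalarTower k (WRing k) F] in
theorem TwoData.B_rep {b : K} (hb : b ∈ T.B K) : ∃ w : WRing k,
    ι b = algebraMap (WRing k) F w := by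
  obtain ⟨ξ, wY, wZ, hx, hY, hZ, -, -, -⟩ := T.local_YZ ι hι
  induction hb using Algebra.adjoin_induction with
  | mem b hb =>
    simp only [Set.mem_insert_iff, Set.mem_singleton_iff] at hb
    rcases hb with rfl | rfl
    · exact ⟨wY, hY⟩
    · exact ⟨wZ, hZ⟩
  | algebraMap r => exact ⟨_, hι r⟩
  | add a b ha hb iha ihb =>
    obtain ⟨v, hv⟩ := iha
    obtain ⟨w, hw⟩ := ihb
    exact ⟨v + w, by rw [map_add, hv, hw, map_add]⟩
  | mul a b ha hb iha ihb =>
    obtain ⟨v, hv⟩ := iha
    obtain ⟨w, hw⟩ := ihb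
    exact ⟨v * w, by rw [map_mul, hv, hw, map_mul]⟩

open PowerSeries in
include hφ hι in
/-- An element of `B` vanishing along the divisor is divisible by `x` in `B`. -/
theorem TwoData.B_div {b : K} (hb : b ∈ T.B K) {w : WRing k}
    (hw : ι b = algebraMap (WRing k) F w) (hc : constantCoeff w = 0) :
    ∃ b' ∈ T.B K, b = T.xK K * b' := by
  obtain ⟨ξ, wY, wZ, hx, hY, hZ, cξ, cY, cZ⟩ := T.local_YZ ι hι
  obtain ⟨p0, p1, b', hb', he⟩ := T.B_mod hφ K hb
  obtain ⟨w', hw'⟩ := T.B_rep ι hι hb'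
  have hp : ∀ p : Polynomial k, ι (Polynomial.aeval (T.Y K) p) =
      algebraMap (WRing k) F (Polynomial.aeval wY p) := by
    intro p
    rw [← Polynomial.aeval_algHom_apply, hY, Polynomial.aeval_algebraMap_apply]
  have hcp : ∀ p : Polynomial k, constantCoeff (Polynomial.aeval wY p) =
      Polynomial.aeval ((RatFunc.X : RatFunc k) ^ 2) p := by
    intro p
    rw [Polynomial.aeval_def, Polynomial.aeval_def, Polynomial.hom_eval₂, cY]
    congr 1
  have h1 : w = Polynomial.aeval wY p0 + Polynomial.aeval wY p1 * wZ + X ^ 2 * ξ * w' := by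
    apply IsFractionRing.injective (WRing k) F
    rw [← hw, he, map_add, map_add, map_mul, map_mul, hp, hp, hZ, hx, hw']
    simp only [map_add, map_mul]
  have h2 := congrArg (constantCoeff (R := RatFunc k)) h1
  rw [hc, map_add, map_add, map_mul, hcp, hcp, cZ] at h2
  have h3 : constantCoeff ((X : WRing k) ^ 2 * ξ * w') = 0 := by simp
  rw [h3, add_zero] at h2
  obtain ⟨hp0, hp1⟩ := poly_separate h2.symm
  refine ⟨b', hb', ?_⟩
  rw [he, hp0, hp1]
  simp

open PowerSeries in
include hφ hι in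
/-- Every nonzero element of `B` is a power of `x` times an element that is a unit along the
divisor. -/
theorem TwoData.B_factor {b : K} (hb : b ∈ T.B K) (hb0 : b ≠ 0) :
    ∃ (N : ℕ) (b0 : K) (w0 : WRing k), b0 ∈ T.B K ∧ b = T.xK K ^ N * b0 ∧
      ι b0 = algebraMap (WRing k) F w0 ∧ IsUnit w0 := by
  obtain ⟨ξ, wY, wZ, hx, hY, hZ, cξ, cY, cZ⟩ := T.local_YZ ι hι
  have main : ∀ (n : ℕ) (b : K) (w : WRing k), b ∈ T.B K → ι b = algebraMap (WRing k) F w →
      coeff n w ≠ 0 → ∃ (N : ℕ) (b0 : K) (w0 : WRing k), b0 ∈ T.B K ∧ b = T.xK K ^ N * b0 ∧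
      ι b0 = algebraMap (WRing k) F w0 ∧ IsUnit w0 := by
    intro n
    induction n using Nat.strong_induction_on with
    | _ n ih =>
      intro b w hb hw hn
      by_cases hc : constantCoeff w = 0
      · obtain ⟨b', hb', hbb⟩ := T.B_div hφ ι hι hb hw hc
        obtain ⟨w', hw'⟩ := T.B_rep ι hι hb'
        have hww : w = X ^ 2 * (ξ * w') := by
          apply IsFractionRing.injective (WRing k) F
          rw [← hw, hbb, map_mul, hx, hw', ← map_mul]
          congr 1
          ring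
        have hn2 : 2 ≤ n := by
          by_contra hcon
          apply hn
          rw [hww, PowerSeries.coeff_X_pow_mul', if_neg hcon]
        rw [hww, PowerSeries.coeff_X_pow_mul', if_pos hn2, PowerSeries.coeff_mul] at hn
        obtain ⟨⟨i, j⟩, hij, hne⟩ := Finset.exists_ne_zero_of_sum_ne_zero hn
        have hij2 : i + j = n - 2 := Finset.HasAntidiagonal.mem_antidiagonal.mp hij
        have hj : coeff j w' ≠ 0 := right_ne_zero_of_mul hne
        obtain ⟨N, b0, w0, hb0, hbN, hw0, hu⟩ := ih j (by omega) b' w' hb' hw' hj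
        exact ⟨N + 1, b0, w0, hb0, by rw [hbb, hbN]; ring, hw0, hu⟩
      · refine ⟨0, b, w, hb, by simp, hw, ?_⟩
        rw [PowerSeries.isUnit_iff_constantCoeff]
        exact isUnit_iff_ne_zero.mpr hc
  obtain ⟨w, hw⟩ := T.B_rep ι hι hb
  have hw0 : w ≠ 0 := by
    rintro rfl
    rw [map_zero] at hw
    exact hb0 ((_root_.map_eq_zero ι).mp hw)
  obtain ⟨n, hn⟩ : ∃ n, coeff n w ≠ 0 := by
    by_contra hcon
    push Not at hcon
    exact hw0 (PowerSeries.ext hcon)
  exact main n b w hb hw hn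

end Chart

end Pool.Agent.WildPlane
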