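import Pool.Agent.helper19.WildTwoE

namespace Pool.Agent.WildPlane

open IsLocalRing

section Div

variable {k : Type*} [Field k] [CharP k 2]
variable {x y z : Plane k} {σ : Plane k ≃ₐ[k] Plane k}
variable (T : TwoData σ x y z) {hx1 : OrdGe 1 x} {hy1 : OrdGe 1 y}
  (hφ : ∀ f, σ (sub hx1 hy1 f) = sub hx1 hy1 f)
variable {K : Type*} [Field K] [Algebra k K] [Algebra (invariants σ) K]
  [IsScalarTower k (invariants σ) K] [IsFractionRing (invariants σ) K]
variable {F : Type*} [Field F] [Algebra (WRing k) F] [IsFractionRing (WRing k) F]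
  [Algebra k F] [IsScalarTower k (WRing k) F]
variable (ι : K →ₐ[k] F)
  (hι : ∀ r : invariants σ, ι (algebraMap (invariants σ) K r) =
    algebraMap (WRing k) F (iota k (r : Plane k)))

omit [CharP k 2] in
theorem isUnit_invariants {r : invariants σ} (h : IsUnit (r : Plane k)) : IsUnit r := by
  obtain ⟨u, hu⟩ := h
  have hfix : σ (r : Plane k) = r := r.2
  have h1 : (r : Plane k) * ((u⁻¹ : (Plane k)ˣ) : Plane k) = 1 := by
    rw [← hu]; exact u.mul_inv
  have hinv : σ ((u⁻¹ : (Plane k)ˣ) : Plane k) = ((u⁻¹ : (Plane k)ˣ) : Plane k) := by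
    have h2 : (r : Plane k) * σ ((u⁻¹ : (Plane k)ˣ) : Plane k) = 1 := by
      have := congrArg σ h1
      rw [map_mul, hfix, map_one] at this
      exact this
    have hne : (r : Plane k) ≠ 0 := by
      rw [← hu]; exact u.ne_zero
    exact mul_left_cancel₀ hne (h2.trans h1.symm)
  refine isUnit_iff_exists_inv.mpr ⟨⟨((u⁻¹ : (Plane k)ˣ) : Plane k), hinv⟩, ?_⟩
  apply Subtype.ext
  exact h1

omit [CharP k 2] in
theorem not_isUnit_iota {r : invariants σ} (h : ¬ IsUnit r) :
    ¬ IsUnit (iota k (r : Plane k)) := by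
  intro h1
  apply h
  apply isUnit_invariants
  rw [MvPowerSeries.isUnit_iff_constantCoeff]
  rw [PowerSeries.isUnit_iff_constantCoeff, ← PowerSeries.coeff_zero_eq_constantCoeff_apply,
    coeff_iota] at h1
  rw [isUnit_iff_ne_zero] at h1 ⊢
  intro h2
  apply h1
  have h3 : MvPowerSeries.coeff (par 0 0) (r : Plane k) = 0 := by
    have h4 : par 0 0 = 0 := by
      ext i; fin_cases i <;> simp
    rw [h4]
    exact h2
  simp [h3]

omit [CharP k 2] [IsScalarTower k (invariants σ) K] [IsFractionRing (invariants σ) K]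
  [IsScalarTower k (WRing k) F] in
include hι in
theorem R_mem_pull (r : invariants σ) :
    algebraMap (invariants σ) K r ∈ pullO (WRing k) (ι : K →+* F) := ⟨_, hι r⟩

omit [CharP k 2] [IsScalarTower k (invariants σ) K] [IsFractionRing (invariants σ) K]
  [IsScalarTower k (WRing k) F] in
include hι in
theorem center_pull (r : invariants σ) (hr : ¬ IsUnit r) :
    (pullO (WRing k) (ι : K →+* F)).valuation (algebraMap (invariants σ) K r) < 1 :=
  val_lt_one (ι := (ι : K →+* F)) (hι r) (not_isUnit_iota hr)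

omit [CharP k 2] in
include T in
theorem xR_not_unit : ¬ IsUnit T.xR := by
  intro h
  have h1 : IsUnit (x : Plane k) := h.map (invariants σ).val
  rw [MvPowerSeries.isUnit_iff_constantCoeff] at h1
  have h2 : MvPowerSeries.constantCoeff x = 0 := by
    rw [T.hx]
    simp
  rw [h2] at h1
  exact not_isUnit_zero h1

omit [CharP k 2] [IsScalarTower k (invariants σ) K] [IsFractionRing (invariants σ) K]
  [IsScalarTower k (WRing k) F] in
include hι in
theorem val_xK : (pullO (WRing k) (ι : K →+* F)).valuation (T.xK K) < 1 :=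
  center_pull ι hι T.xR (xR_not_unit T)

include T hφ hι in
/-- Every nonzero rational function is a quotient of elements of `B` of the form
power of `x` times unit. -/
theorem frac_factor {f : K} (hf : f ≠ 0) : ∃ (N M : ℕ) (a d : K), a ∈ T.B K ∧ d ∈ T.B K ∧
    (pullO (WRing k) (ι : K →+* F)).valuation a = 1 ∧
    (pullO (WRing k) (ι : K →+* F)).valuation d = 1 ∧
    f * (T.xK K ^ M * d) = T.xK K ^ N * a := by
  obtain ⟨a, b, hb, rfl⟩ := IsFractionRing.div_surjective (A := invariants σ) f
  have hb0 : algebraMap (invariants σ) K b ≠ 0 := by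
    intro h
    exact nonZeroDivisors.ne_zero hb (injK (σ := σ) K (h.trans (map_zero _).symm))
  have ha0 : algebraMap (invariants σ) K a ≠ 0 := by
    intro h
    rw [h, zero_div] at hf
    exact hf rfl
  obtain ⟨N, a0, wa, ha, hae, haw, hau⟩ := T.B_factor hφ ι hι (T.R_mem K a) ha0
  obtain ⟨M, b0, wb, hb, hbe, hbw, hbu⟩ := T.B_factor hφ ι hι (T.R_mem K b) hb0
  refine ⟨N, M, a0, b0, ha, hb, val_eq_one (ι := (ι : K →+* F)) haw hau,
    val_eq_one (ι := (ι : K →+* F)) hbw hbu, ?_⟩
  rw [← hbe, ← hae]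
  field_simp

include T hφ hι in
theorem frac_factor_mem {f : K} (hf : f ≠ 0) (hfO : f ∈ pullO (WRing k) (ι : K →+* F)) :
    ∃ (N : ℕ) (a d : K), a ∈ T.B K ∧ d ∈ T.B K ∧
    (pullO (WRing k) (ι : K →+* F)).valuation a = 1 ∧
    (pullO (WRing k) (ι : K →+* F)).valuation d = 1 ∧
    f * d = T.xK K ^ N * a := by
  obtain ⟨N, M, a, d, ha, hd, va, vd, he⟩ := frac_factor T hφ ι hι hf
  have hx0 := T.xK_ne K
  have hvx := val_xK T ι hι
  have hvx0 : (pullO (WRing k) (ι : K →+* F)).valuation (T.xK K) ≠ 0 :=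
    ((pullO (WRing k) (ι : K →+* F)).valuation.ne_zero_iff).mpr hx0
  have hMN : M ≤ N := by
    by_contra hcon
    push Not at hcon
    have h1 := congrArg (pullO (WRing k) (ι : K →+* F)).valuation he
    rw [map_mul, map_mul, map_mul, map_pow, map_pow, va, vd, mul_one, mul_one] at h1
    have h2 := ((pullO (WRing k) (ι : K →+* F)).valuation_le_one_iff f).mpr hfO
    have h3 : (pullO (WRing k) (ι : K →+* F)).valuation (T.xK K) ^ N ≤
        (pullO (WRing k) (ι : K →+* F)).valuation (T.xK K) ^ M := by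
      rw [← h1]
      calc _ ≤ 1 * (pullO (WRing k) (ι : K →+* F)).valuation (T.xK K) ^ M :=
            mul_le_mul_left h2 _
        _ = _ := one_mul _
    have h4 : (pullO (WRing k) (ι : K →+* F)).valuation (T.xK K) ^ M <
        (pullO (WRing k) (ι : K →+* F)).valuation (T.xK K) ^ N :=
      pow_lt_pow_right_of_lt_one₀ (zero_lt_iff.mpr hvx0) hvx hcon
    exact absurd h4 (not_lt.mpr h3)
  refine ⟨N - M, a, d, ha, hd, va, vd, ?_⟩
  apply mul_left_cancel₀ (pow_ne_zero M hx0)
  rw [← mul_assoc (T.xK K ^ M) (T.xK K ^ (N - M)), ← pow_add, Nat.add_sub_cancel' hMN]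
  linear_combination he

include T hφ hι in
theorem dvr_pull : IsDiscreteValuationRing (pullO (WRing k) (ι : K →+* F)) := by
  have hx0 := T.xK_ne K
  have hvx := val_xK T ι hι
  have hvx0 : (pullO (WRing k) (ι : K →+* F)).valuation (T.xK K) ≠ 0 :=
    ((pullO (WRing k) (ι : K →+* F)).valuation.ne_zero_iff).mpr hx0
  let p : pullO (WRing k) (ι : K →+* F) := ⟨T.xK K, R_mem_pull ι hι T.xR⟩
  have hfac : ∀ f : pullO (WRing k) (ι : K →+* F), f ≠ 0 →
      ∃ (N : ℕ) (u : (pullO (WRing k) (ι : K →+* F))ˣ), p ^ N * u = f := by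
    intro f hf
    obtain ⟨N, a, d, ha, hd, va, vd, he⟩ := frac_factor_mem T hφ ι hι
      (f := (f : K)) (fun h => hf (Subtype.ext h)) f.2
    have hd0 : d ≠ 0 := by
      rintro rfl
      rw [map_zero] at vd
      exact zero_ne_one vd
    have hq : (pullO (WRing k) (ι : K →+* F)).valuation (a / d) = 1 := by
      rw [map_div₀, va, vd, div_one]
    have hqm : a / d ∈ pullO (WRing k) (ι : K →+* F) := by
      rw [← ValuationSubring.valuation_le_one_iff, hq]
    have hu : IsUnit (⟨a / d, hqm⟩ : pullO (WRing k) (ι : K →+* F)) :=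
      (ValuationSubring.valuation_eq_one_iff _ _).mpr hq
    refine ⟨N, hu.unit, ?_⟩
    apply Subtype.ext
    change T.xK K ^ N * (a / d) = f
    field_simp
    linear_combination -he
  have hpn : ¬ IsUnit p := by
    intro h
    have h1 := (ValuationSubring.valuation_eq_one_iff _ _).mp h
    exact absurd h1 (ne_of_lt hvx)
  have hval : ∀ (N : ℕ) (u : (pullO (WRing k) (ι : K →+* F))ˣ),
      (pullO (WRing k) (ι : K →+* F)).valuation ((p ^ N * u : pullO (WRing k) (ι : K →+* F)) : K)
        = (pullO (WRing k) (ι : K →+* F)).valuation (T.xK K) ^ N := by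
    intro N u
    have h1 : ((p ^ N * u : pullO (WRing k) (ι : K →+* F)) : K) = T.xK K ^ N * (u : K) := rfl
    rw [h1, map_mul, map_pow,
      (ValuationSubring.valuation_eq_one_iff _ _).mp u.isUnit, mul_one]
  have hirr : Irreducible p := by
    refine ⟨hpn, ?_⟩
    intro a b hab
    have hp0 : p ≠ 0 := fun h => hx0 (congrArg Subtype.val h)
    have ha0 : a ≠ 0 := by rintro rfl; rw [zero_mul] at hab; exact hp0 hab
    have hb0 : b ≠ 0 := by rintro rfl; rw [mul_zero] at hab; exact hp0 hab
    obtain ⟨N, u, hu⟩ := hfac a ha0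
    obtain ⟨M, v, hv⟩ := hfac b hb0
    rcases Nat.eq_zero_or_pos N with hN | hN
    · left
      rw [← hu, hN, pow_zero, one_mul]
      exact u.isUnit
    rcases Nat.eq_zero_or_pos M with hM | hM
    · right
      rw [← hv, hM, pow_zero, one_mul]
      exact v.isUnit
    exfalso
    have h1 : (pullO (WRing k) (ι : K →+* F)).valuation (T.xK K) =
        (pullO (WRing k) (ι : K →+* F)).valuation (T.xK K) ^ (N + M) := by
      have h2 := congrArg (fun f : pullO (WRing k) (ι : K →+* F) =>
        (pullO (WRing k) (ι : K →+* F)).valuation (f : K)) hab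
      rw [← hu, ← hv] at h2
      have h3 : (p ^ N * u : pullO (WRing k) (ι : K →+* F)) * (p ^ M * v) =
        p ^ (N + M) * ((u * v : (pullO (WRing k) (ι : K →+* F))ˣ) :
          pullO (WRing k) (ι : K →+* F)) := by
        rw [pow_add, Units.val_mul]; ring
      simp only [h3, hval] at h2
      exact h2
    have h4 : (pullO (WRing k) (ι : K →+* F)).valuation (T.xK K) ^ (N + M) <
        (pullO (WRing k) (ι : K →+* F)).valuation (T.xK K) ^ 1 :=
      pow_lt_pow_right_of_lt_one₀ (zero_lt_iff.mpr hvx0) hvx (by omega)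
    rw [pow_one, ← h1] at h4
    exact lt_irrefl _ h4
  apply IsDiscreteValuationRing.ofHasUnitMulPowIrreducibleFactorization
  refine ⟨p, hirr, ?_⟩
  intro f hf
  obtain ⟨N, u, hu⟩ := hfac f hf
  exact ⟨N, u, hu⟩

include T hφ hι in
theorem exceptional_pull :
    IsExceptionalDivisor (invariants σ) (pullO (WRing k) (ι : K →+* F)) := by
  classical
  refine ⟨dvr_pull T hφ ι hι, R_mem_pull ι hι, ?_, {T.Y K, T.Z K}, ?_, ?_⟩
  · intro r hr
    exact center_pull ι hι r ((mem_maximalIdeal r).mp hr)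
  · intro b hb
    rw [Finset.coe_insert, Finset.coe_singleton] at hb
    exact T.B_rep ι hι hb
  · intro f hf
    rw [Finset.coe_insert, Finset.coe_singleton]
    by_cases hf0 : f = 0
    · refine ⟨0, Subalgebra.zero_mem _, 1, Subalgebra.one_mem _, map_one _, ?_⟩
      rw [hf0, zero_mul]
    · obtain ⟨N, a, d, ha, hd, va, vd, he⟩ := frac_factor_mem T hφ ι hι hf0 hf
      exact ⟨T.xK K ^ N * a, (T.B K).mul_mem ((T.B K).pow_mem (T.x_mem K) N) ha, d, hd, vd, he⟩

end Div

end Pool.Agent.WildPlane
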